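import Pool.Agent.MP_67227b_nt.Sg.SgDefs

set_option autoImplicit false

open Filter Topology Set MeasureTheory Complex
open scoped Real

namespace Pool.Agent.MP_67227b_nt.Sg

open Pool.Agent.Lib.ZetaCount_helper33 Pool.Agent.MP_67227b_nt Pool.Agent.MP_67227b_nt.Mo

private lemma ac_ne_one {s : ℂ} (ht : 0 < s.im) : s ≠ 1 := by
  rintro rfl
  simp at ht

private lemma ac_ne_zero {s : ℂ} (ht : 0 < s.im) : s ≠ 0 := by
  rintro rfl
  simp at ht

/-- No zeros to the right of the critical line. -/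
private lemma ac_zeta_ne (hRH : RiemannHypothesis) {s : ℂ} (hs : 1 / 2 < s.re) (ht : 0 < s.im) :
    riemannZeta s ≠ 0 := by
  intro h
  have h1 : s.re = 1 / 2 := by
    refine hRH s h ?_ (ac_ne_one ht)
    rintro ⟨n, hn⟩
    rw [hn] at ht
    simp at ht
  linarith

/-- MODULE SG4c. Differentiability of the quotient to the right of the critical line. -/
theorem differentiableAt_Hq (hRH : RiemannHypothesis) {α : ℝ} (hα : 0 ≤ α) {s : ℂ}
    (hs : 1 / 2 < s.re) (ht : 0 < s.im) : DifferentiableAt ℂ (Hq α) s := by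
  have h1 : DifferentiableAt ℂ riemannZeta s := differentiableAt_riemannZeta (ac_ne_one ht)
  have h2 : DifferentiableAt ℂ (fun s : ℂ => riemannZeta (s + (α : ℂ) * I)) s := by
    have h3 : DifferentiableAt ℂ riemannZeta (s + (α : ℂ) * I) :=
      differentiableAt_riemannZeta (ac_ne_one (by simp; linarith))
    exact h3.comp (f := fun s : ℂ => s + (α : ℂ) * I) s (by fun_prop)
  exact h2.div h1 (ac_zeta_ne hRH hs ht)

private lemma ac_half_re {s : ℂ} (hs : 0 < s.re) : 0 < (s / 2).re := by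
  have : (s / 2).re = s.re / 2 := by simp
  rw [this]
  linarith

private lemma ac_logDeriv_Gammaℝ {s : ℂ} (hs : 0 < s.re) :
    DifferentiableAt ℂ Gammaℝ s ∧
    logDeriv Gammaℝ s = - (Real.log Real.pi : ℂ) / 2 + digamma (s / 2) / 2 := by
  have h0 := ac_half_re hs
  have e : Gammaℝ = fun s : ℂ => exp (-(s / 2) * (Real.log Real.pi : ℂ)) * Gamma (s / 2) := by
    ext s
    rw [Gammaℝ_def, cpow_def_of_ne_zero (by exact_mod_cast Real.pi_ne_zero),
      ← ofReal_log Real.pi_pos.le]
    congr 2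
    ring
  have h1 : HasDerivAt (fun s : ℂ => exp (-(s / 2) * (Real.log Real.pi : ℂ)))
      (exp (-(s / 2) * (Real.log Real.pi : ℂ)) * (-(1 / 2) * (Real.log Real.pi : ℂ))) s :=
    (((hasDerivAt_id s).div_const 2).neg.mul_const _).cexp
  have h2 : HasDerivAt (fun s : ℂ => Gamma (s / 2)) (deriv Gamma (s / 2) * (1 / 2)) s := by
    have h3 : HasDerivAt Gamma (deriv Gamma (s / 2)) (s / 2) :=
      (differentiableAt_Gamma _ (ne_neg_nat h0)).hasDerivAt
    exact h3.comp s ((hasDerivAt_id s).div_const 2)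
  have hG : Gamma (s / 2) ≠ 0 := Gamma_ne_zero_of_re_pos h0
  refine ⟨by rw [e]; exact (h1.mul h2).differentiableAt, ?_⟩
  rw [e, logDeriv_mul (f := fun s : ℂ => exp (-(s / 2) * (Real.log Real.pi : ℂ)))
    (g := fun s : ℂ => Gamma (s / 2)) s (exp_ne_zero _) hG h1.differentiableAt
    h2.differentiableAt, logDeriv_apply, logDeriv_apply, h1.deriv, h2.deriv, mul_div_cancel_left₀ _ (exp_ne_zero _),
    digamma_def, logDeriv_apply]
  ring

/-- The logarithmic derivative of `xi` to the right of the critical line. -/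
private lemma ac_logDeriv_xi (hRH : RiemannHypothesis) {s : ℂ} (hs : 1 / 2 < s.re)
    (ht : 0 < s.im) : logDeriv xi s = archF s + logDeriv riemannZeta s := by
  have h0 : s ≠ 0 := ac_ne_zero ht
  have h1 : s ≠ 1 := ac_ne_one ht
  have h1' : (1 : ℂ) - s ≠ 0 := sub_ne_zero.mpr h1.symm
  have hs0 : 0 < s.re := by linarith
  have hGn : Gammaℝ s ≠ 0 := Gammaℝ_ne_zero_of_re_pos hs0
  have hz : riemannZeta s ≠ 0 := ac_zeta_ne hRH hs ht
  have e : xi =ᶠ[𝓝 s] fun s => s * (1 - s) * Gammaℝ s * riemannZeta s := by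
    filter_upwards [(isOpen_lt continuous_const continuous_re).mem_nhds hs0,
      (isOpen_lt continuous_const continuous_im).mem_nhds ht] with z hz hz2
    have hz' : 0 < z.re := hz
    exact xi_eq' (ac_ne_zero hz2) (ac_ne_one hz2) (Gammaℝ_ne_zero_of_re_pos hz')
  have d1 : DifferentiableAt ℂ (fun s : ℂ => s) s := differentiableAt_id
  have d2 : DifferentiableAt ℂ (fun s : ℂ => 1 - s) s := (differentiableAt_const 1).sub d1
  obtain ⟨d3, hGl⟩ := ac_logDeriv_Gammaℝ hs0
  have d4 : DifferentiableAt ℂ riemannZeta s := differentiableAt_riemannZeta h1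
  have e2 : logDeriv xi s = logDeriv (fun s => s * (1 - s) * Gammaℝ s * riemannZeta s) s := by
    rw [logDeriv_apply, logDeriv_apply, e.deriv_eq, e.eq_of_nhds]
  rw [e2, logDeriv_mul (f := fun s : ℂ => s * (1 - s) * Gammaℝ s) (g := riemannZeta) s
      (mul_ne_zero (mul_ne_zero h0 h1') hGn) hz ((d1.mul d2).mul d3) d4,
    logDeriv_mul (f := fun s : ℂ => s * (1 - s)) (g := Gammaℝ) s
      (mul_ne_zero h0 h1') hGn (d1.mul d2) d3,
    logDeriv_mul (f := fun s : ℂ => s) (g := fun s : ℂ => 1 - s) s h0 h1' d1 d2,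
    hGl]
  have e3 : logDeriv (fun s : ℂ => s) s = s⁻¹ := by
    rw [logDeriv_apply, deriv_id'', one_div]
  have e4 : logDeriv (fun s : ℂ => 1 - s) s = (s - 1)⁻¹ := by
    have h5 : HasDerivAt (fun s : ℂ => 1 - s) (-1) s := (hasDerivAt_id s).const_sub 1
    rw [logDeriv_apply, h5.deriv, ← neg_sub s 1, neg_div_neg_eq, one_div]
  rw [e3, e4]
  unfold archF
  ring

private lemma ac_analyticAt_archF {s : ℂ} (hs : 0 < s.re) (ht : 0 < s.im) :
    AnalyticAt ℂ archF s := by
  have h0 : s ≠ 0 := ac_ne_zero ht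
  have h1 : s - 1 ≠ 0 := sub_ne_zero.mpr (ac_ne_one ht)
  have h2 := analyticAt_Gamma (ac_half_re hs)
  have h3 : AnalyticAt ℂ digamma (s / 2) :=
    h2.deriv.div h2 (Gamma_ne_zero_of_re_pos (ac_half_re hs))
  have h4 : AnalyticAt ℂ (fun s : ℂ => digamma (s / 2)) s := by
    have h5 : AnalyticAt ℂ (fun s : ℂ => s / 2) s := by fun_prop
    exact AnalyticAt.fun_comp (g := digamma) (f := fun s : ℂ => s / 2) h3 h5
  unfold archF
  exact (((analyticAt_id.inv h0).add ((analyticAt_id.sub analyticAt_const).inv h1)).sub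
    analyticAt_const).add (h4.div_const)

private lemma ac_hasDerivAt_pl (σ t : ℝ) : HasDerivAt (pl σ) I t := by
  have h6 : HasDerivAt (fun t : ℝ => (σ : ℂ) + (t : ℂ) * I) (1 * I) t :=
    ((hasDerivAt_id t).ofReal_comp.mul_const I).const_add _
  rw [one_mul] at h6
  exact h6

private lemma ac_continuous_pl (σ : ℝ) : Continuous (pl σ) := by
  unfold pl
  fun_prop

/-- The two terms in `Hq_eq_exp` are continuous. -/
theorem continuousOn_F (hRH : RiemannHypothesis) {σ : ℝ} (hσ : 1 / 2 < σ) :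
    Continuous fun t : ℝ => logDeriv xi (pl σ t) := by
  have h1 : ∀ t : ℝ, xi (pl σ t) ≠ 0 := by
    intro t h
    have := xi_zero_re hRH h
    rw [pl_re] at this
    linarith
  have h2 : Continuous (deriv xi) := by
    have h3 : ContDiff ℂ 1 xi := differentiable_xi.contDiff
    exact h3.continuous_deriv le_rfl
  have h3 : Continuous fun t : ℝ => deriv xi (pl σ t) / xi (pl σ t) :=
    (h2.comp (ac_continuous_pl σ)).div (differentiable_xi.continuous.comp (ac_continuous_pl σ)) h1
  exact h3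

theorem continuousOn_archF {σ : ℝ} (hσ : 1 / 2 < σ) :
    ContinuousOn (fun t : ℝ => archF (pl σ t)) (Ioi 0) := by
  intro t ht
  have h1 : AnalyticAt ℂ archF (pl σ t) :=
    ac_analyticAt_archF (by rw [pl_re]; linarith) (by rw [pl_im]; exact ht)
  have h2 : ContinuousAt (fun t : ℝ => archF (pl σ t)) t :=
    ContinuousAt.comp h1.continuousAt (ac_continuous_pl σ).continuousAt
  exact h2.continuousWithinAt

/-- MODULE SG4d. The quotient as an exponential. -/
theorem Hq_eq_exp (hRH : RiemannHypothesis) {α σ t : ℝ} (hα : 0 ≤ α) (hσ : 1 / 2 < σ)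
    (ht : 0 < t) : Hq α (pl σ t) =
      Complex.exp (I * ∫ η in (0 : ℝ)..α, (logDeriv xi (pl σ (t + η)) - archF (pl σ (t + η)))) := by
  -- a continuous extension of the integrand
  set ψ : ℝ → ℂ := fun η => logDeriv xi (pl σ (t + max η 0)) - archF (pl σ (t + max η 0)) with hψ
  have hpos : ∀ η : ℝ, 0 < t + max η 0 := fun η => by
    have := le_max_right η 0
    linarith
  have hψc : Continuous ψ := by
    have h1 : Continuous fun η : ℝ => logDeriv xi (pl σ (t + max η 0)) :=
      (continuousOn_F hRH hσ).comp (f := fun η : ℝ => t + max η 0) (by fun_prop)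
    have h2 : Continuous fun η : ℝ => archF (pl σ (t + max η 0)) :=
      (continuousOn_archF hσ).comp_continuous (f := fun η : ℝ => t + max η 0) (by fun_prop) hpos
    exact h1.sub h2
  have hint : ∫ η in (0 : ℝ)..α, (logDeriv xi (pl σ (t + η)) - archF (pl σ (t + η))) =
      ∫ η in (0 : ℝ)..α, ψ η := by
    apply intervalIntegral.integral_congr
    intro η hη
    rw [uIcc_of_le hα] at hη
    simp only [hψ]
    rw [max_eq_left hη.1]
  have hψd : ∀ η : ℝ, 0 ≤ η → ψ η = logDeriv riemannZeta (pl σ (t + η)) := by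
    intro η hη
    simp only [hψ]
    rw [max_eq_left hη, ac_logDeriv_xi hRH (by rw [pl_re]; exact hσ) (by rw [pl_im]; linarith)]
    ring
  set Ψ : ℝ → ℂ := fun x => ∫ η in (0 : ℝ)..x, ψ η with hΨ
  have hΨd : ∀ x : ℝ, HasDerivAt Ψ (ψ x) x := fun x => (hψc.integral_hasStrictDerivAt 0 x).hasDerivAt
  set g : ℝ → ℂ := fun x => riemannZeta (pl σ (t + x)) * Complex.exp (-(I * Ψ x)) with hg
  have hgd : ∀ x : ℝ, 0 ≤ x → HasDerivAt g 0 x := by
    intro x hx
    have him : 0 < (pl σ (t + x)).im := by rw [pl_im]; linarith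
    have hre : 1 / 2 < (pl σ (t + x)).re := by rw [pl_re]; exact hσ
    have hz : riemannZeta (pl σ (t + x)) ≠ 0 := ac_zeta_ne hRH hre him
    have h1 : HasDerivAt riemannZeta (deriv riemannZeta (pl σ (t + x))) (pl σ (t + x)) :=
      (differentiableAt_riemannZeta (ac_ne_one him)).hasDerivAt
    have h2 : HasDerivAt (fun x : ℝ => pl σ (t + x)) I x := by
      have h3 := (ac_hasDerivAt_pl σ (t + x)).comp_const_add t x
      exact h3
    have h3 : HasDerivAt (fun x : ℝ => riemannZeta (pl σ (t + x)))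
        (deriv riemannZeta (pl σ (t + x)) * I) x := h1.comp x h2
    have h4 : HasDerivAt (fun x : ℝ => Complex.exp (-(I * Ψ x)))
        (Complex.exp (-(I * Ψ x)) * (-(I * ψ x))) x :=
      ((hΨd x).const_mul I).neg.cexp
    have h5 := h3.mul h4
    have h6 : deriv riemannZeta (pl σ (t + x)) * I * Complex.exp (-(I * Ψ x)) +
        riemannZeta (pl σ (t + x)) * (Complex.exp (-(I * Ψ x)) * (-(I * ψ x))) = 0 := by
      rw [hψd x hx, logDeriv_apply]
      field_simp
      ring
    rw [h6] at h5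
    exact h5
  have hconst := constant_of_has_deriv_right_zero (f := g) (a := 0) (b := α)
    (fun x hx => (hgd x hx.1).continuousAt.continuousWithinAt)
    (fun x hx => (hgd x hx.1).hasDerivWithinAt) α (right_mem_Icc.mpr hα)
  have hg0 : g 0 = riemannZeta (pl σ t) := by
    simp only [hg, hΨ]
    simp
  have hgα : g α = riemannZeta (pl σ (t + α)) * Complex.exp (-(I * Ψ α)) := rfl
  rw [hg0, hgα] at hconst
  have hz : riemannZeta (pl σ t) ≠ 0 :=
    ac_zeta_ne hRH (by rw [pl_re]; exact hσ) (by rw [pl_im]; exact ht)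
  have hpl : pl σ t + (α : ℂ) * I = pl σ (t + α) := by
    simp only [pl]
    push_cast
    ring
  rw [hint]
  rw [Hq, hpl, div_eq_iff hz, ← hconst]
  have h7 : Complex.exp (I * Ψ α) * Complex.exp (-(I * Ψ α)) = 1 := by
    rw [← Complex.exp_add]
    simp
  change riemannZeta (pl σ (t + α)) = Complex.exp (I * Ψ α) *
    (riemannZeta (pl σ (t + α)) * Complex.exp (-(I * Ψ α)))
  rw [mul_left_comm, h7, mul_one]

end Pool.Agent.MP_67227b_nt.Sg
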