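import Pool.Agent.MP_67227b_nt.Sg.SgN
import Pool.Agent.MP_67227b_nt.Sg.SgA

set_option autoImplicit false

open Filter Topology Set MeasureTheory Complex
open scoped Real

namespace Pool.Agent.MP_67227b_nt.Sg

open Pool.Agent.Lib.ZetaCount_helper33 Pool.Agent.MP_67227b_nt Pool.Agent.MP_67227b_nt.Mo

/-- Crude bounds for zeta on `2 ≤ Re s`. -/
private lemma g7_zeta {s : ℂ} (hs : 2 ≤ s.re) :
    ‖riemannZeta s‖ ≤ 2 ∧ 1 / 3 ≤ ‖riemannZeta s‖ := by
  have hs1 : 1 < s.re := by linarith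
  have hsum2 : HasSum (fun n : ℕ => 1 / (n : ℝ) ^ 2) (π ^ 2 / 6) := hasSum_zeta_two
  have hnorm : ∀ n : ℕ, ‖1 / (n : ℂ) ^ s‖ ≤ 1 / (n : ℝ) ^ 2 := by
    intro n
    rcases Nat.eq_zero_or_pos n with h0 | h0
    · subst h0
      have : s ≠ 0 := by
        rintro rfl
        simp at hs
        linarith
      simp [Complex.zero_cpow this]
    · rw [norm_div, norm_one, Complex.norm_natCast_cpow_of_pos h0]
      apply one_div_le_one_div_of_le (by positivity)
      rw [← Real.rpow_natCast]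
      apply Real.rpow_le_rpow_of_exponent_le
      · exact_mod_cast h0
      · exact_mod_cast hs
  have hsumm : Summable fun n : ℕ => 1 / (n : ℂ) ^ s :=
    Summable.of_norm_bounded hsum2.summable hnorm
  have hpi : π ^ 2 / 6 ≤ 1.6451 := by
    have h1 := Real.pi_lt_d6
    have h2 := Real.pi_pos
    nlinarith
  have hz : riemannZeta s = ∑' n : ℕ, 1 / (n : ℂ) ^ s := zeta_eq_tsum_one_div_nat_cpow hs1
  constructor
  · rw [hz]
    have h1 : ‖∑' n : ℕ, 1 / (n : ℂ) ^ s‖ ≤ π ^ 2 / 6 :=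
      tsum_of_norm_bounded hsum2 hnorm
    linarith
  · -- split off `n = 0, 1`
    have h1 : ∑' n : ℕ, 1 / (n : ℂ) ^ s = (∑ n ∈ Finset.range 2, 1 / (n : ℂ) ^ s) +
        ∑' n : ℕ, 1 / ((n + 2 : ℕ) : ℂ) ^ s := (hsumm.sum_add_tsum_nat_add 2).symm
    have h2 : ∑ n ∈ Finset.range 2, 1 / (n : ℂ) ^ s = 1 := by
      have : s ≠ 0 := by
        rintro rfl
        simp at hs
        linarith
      simp [Finset.sum_range_succ, Complex.zero_cpow this]
    have h3 : HasSum (fun n : ℕ => 1 / ((n + 2 : ℕ) : ℝ) ^ 2)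
        (π ^ 2 / 6 - ∑ n ∈ Finset.range 2, 1 / (n : ℝ) ^ 2) := by
      have := (hasSum_nat_add_iff' (f := fun n : ℕ => 1 / (n : ℝ) ^ 2) (g := π ^ 2 / 6) 2).mpr hsum2
      exact this
    have h4 : ∑ n ∈ Finset.range 2, 1 / (n : ℝ) ^ 2 = 1 := by
      simp [Finset.sum_range_succ]
    rw [h4] at h3
    have h5 : ‖∑' n : ℕ, 1 / ((n + 2 : ℕ) : ℂ) ^ s‖ ≤ π ^ 2 / 6 - 1 :=
      tsum_of_norm_bounded h3 (fun n => hnorm (n + 2))
    rw [hz, h1, h2]
    have h6 := norm_sub_le_norm_add (1 : ℂ) (∑' n : ℕ, 1 / ((n + 2 : ℕ) : ℂ) ^ s)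
    rw [norm_one] at h6
    linarith

/-- MODULE SG7. Growth of the quotient: at most a power of `T`. -/
theorem Hq_growth (hRH : RiemannHypothesis) {u β : ℝ} (hu : 0 < u) (hβ : 0 < β) :
    ∃ C : ℝ, 0 < C ∧ ∀ᶠ T : ℝ in atTop, ∀ σ t : ℝ, 1 / 2 + β / Real.log T ≤ σ → σ ≤ 4 →
      T / 2 ≤ t → t ≤ 4 * T → ‖Hq (2 * π * u / Real.log T) (pl σ t)‖ ≤ T ^ C := by
  obtain ⟨C₁, hC₁, h1⟩ := norm_F_le hRH
  obtain ⟨C₂, hC₂, h2⟩ := archF_near
  set A : ℝ := 2 * π * u * (2 * C₁ / β + 2 + C₂) with hA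
  have hA0 : 0 < A := by positivity
  refine ⟨A + 2, by linarith, ?_⟩
  have hT1 : ∀ᶠ T : ℝ in atTop, 1 ≤ Real.log T := Real.tendsto_log_atTop.eventually_ge_atTop 1
  have hT2 : ∀ᶠ T : ℝ in atTop, 2 * π * u ≤ Real.log T :=
    Real.tendsto_log_atTop.eventually_ge_atTop _
  filter_upwards [hT1, hT2, eventually_ge_atTop 100] with T hL1 hL2 hT100 σ t hσ hσ4 ht ht4
  have hT0 : 0 < T := by linarith
  have hL0 : 0 < Real.log T := by linarith
  set L := Real.log T with hL
  set α : ℝ := 2 * π * u / L with hα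
  have hα0 : 0 < α := by positivity
  have hα1 : α ≤ 1 := by
    rw [hα, div_le_one hL0]
    exact hL2
  have ht0 : 0 < t := by linarith
  have hTC : T ^ (A + 2) = T ^ A * T ^ 2 := by
    rw [Real.rpow_add hT0]
    norm_num
  have hTA : 1 ≤ T ^ A := Real.one_le_rpow (by linarith) hA0.le
  rcases le_or_gt σ 2 with h | h
  · -- the half strip
    have hσ1 : 1 / 2 < σ := by
      have : 0 < β / L := by positivity
      linarith
    rw [Hq_eq_exp hRH hα0.le hσ1 ht0, Complex.norm_exp]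
    have hlog : ∀ v : ℝ, t ≤ v → v ≤ t + α → Real.log (|v| + 3) ≤ 2 * L := by
      intro v hv1 hv2
      rw [abs_of_nonneg (by linarith)]
      have h3 : v + 3 ≤ T ^ 2 := by nlinarith
      have h4 := Real.log_le_log (by linarith : 0 < v + 3) h3
      rw [Real.log_pow] at h4
      push_cast at h4
      exact h4
    have hbd : ∀ η ∈ Set.uIoc (0 : ℝ) α, ‖logDeriv xi (pl σ (t + η)) - archF (pl σ (t + η))‖ ≤
        (2 * C₁ / β + 2 + C₂) * L ^ 2 := by
      intro η hη
      rw [uIoc_of_le hα0.le] at hη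
      have e1 := h1 σ (t + η) hσ1 h
      have e2 := h2 σ (t + η) hσ1 h (by linarith [hη.1])
      have e3 := hlog (t + η) (by linarith [hη.1]) (by linarith [hη.2])
      have e4 : C₁ * Real.log (|t + η| + 3) / (σ - 1 / 2) ≤ 2 * C₁ / β * L ^ 2 := by
        have hb : 0 < β / L := by positivity
        calc C₁ * Real.log (|t + η| + 3) / (σ - 1 / 2) ≤ C₁ * (2 * L) / (β / L) := by
              apply div_le_div₀ (by positivity) _ hb (by linarith)
              gcongr
          _ = 2 * C₁ / β * L ^ 2 := by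
              field_simp
      have e5 : ‖archF (pl σ (t + η))‖ ≤ C₂ + L := by
        have e6 := norm_sub_norm_le (archF (pl σ (t + η))) ((Real.log (t + η) / 2 : ℝ) : ℂ)
        have e7 : ‖((Real.log (t + η) / 2 : ℝ) : ℂ)‖ ≤ L := by
          rw [norm_real, Real.norm_of_nonneg]
          · have e8 : Real.log (t + η) ≤ Real.log (|t + η| + 3) := by
              apply Real.log_le_log (by linarith [hη.1])
              have := le_abs_self (t + η)
              linarith
            linarith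
          · apply div_nonneg _ (by norm_num)
            apply Real.log_nonneg
            linarith [hη.1]
        linarith
      have hLL : L ≤ L ^ 2 := by nlinarith
      have hCL : C₂ ≤ C₂ * L ^ 2 := by
        have : 1 ≤ L ^ 2 := by nlinarith
        nlinarith
      calc ‖logDeriv xi (pl σ (t + η)) - archF (pl σ (t + η))‖
          ≤ ‖logDeriv xi (pl σ (t + η))‖ + ‖archF (pl σ (t + η))‖ := norm_sub_le _ _
        _ ≤ 2 * C₁ / β * L ^ 2 + (C₂ + L) := add_le_add (e1.trans e4) e5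
        _ ≤ (2 * C₁ / β + 2 + C₂) * L ^ 2 := by nlinarith
    have hI : ‖∫ η in (0 : ℝ)..α, (logDeriv xi (pl σ (t + η)) - archF (pl σ (t + η)))‖ ≤ A * L := by
      have h5 := intervalIntegral.norm_integral_le_of_norm_le_const hbd
      refine h5.trans (le_of_eq ?_)
      rw [sub_zero, abs_of_pos hα0, hα, hA]
      field_simp
    have hre : (I * ∫ η in (0 : ℝ)..α, (logDeriv xi (pl σ (t + η)) -
        archF (pl σ (t + η)))).re ≤ A * L := by
      refine (re_le_norm _).trans ?_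
      rw [norm_mul, norm_I, one_mul]
      exact hI
    calc Real.exp _ ≤ Real.exp (A * L) := Real.exp_le_exp.mpr hre
      _ = T ^ A := by
          rw [Real.rpow_def_of_pos hT0, mul_comm]
      _ ≤ T ^ (A + 2) := by
          rw [hTC]
          have : 1 ≤ T ^ 2 := by nlinarith
          nlinarith
  · -- to the right of `2`
    rw [Hq, norm_div]
    have h3 := (g7_zeta (s := pl σ t + (α : ℂ) * I) (by simp [pl]; linarith)).1
    have h4 := (g7_zeta (s := pl σ t) (by rw [pl_re]; linarith)).2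
    calc ‖riemannZeta (pl σ t + (α : ℂ) * I)‖ / ‖riemannZeta (pl σ t)‖ ≤ 2 / (1 / 3) := by
          apply div_le_div₀ (by norm_num) h3 (by norm_num) h4
      _ ≤ T ^ (A + 2) := by
          rw [hTC]
          nlinarith

end Pool.Agent.MP_67227b_nt.Sg
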