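import Pool.Agent.MP_67227b_nt.Sg.SgDefs

set_option autoImplicit false

open Filter Topology Set MeasureTheory Complex
open scoped Real

namespace Pool.Agent.MP_67227b_nt.Sg

open Pool.Agent.Lib.ZetaCount_helper33 Pool.Agent.MP_67227b_nt Pool.Agent.MP_67227b_nt.Mo

/-- MODULE SG9. The Gaussian integral against `x^s` on the line `Re s = 4`. -/
theorem gauss_int {Δ b t₀ ℓ : ℝ} (hΔ : 0 < Δ) :
    ∫ t : ℝ, Wg Δ b t₀ (pl 4 t) * Complex.exp ((ℓ : ℂ) * pl 4 t) =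
      (Δ * Real.sqrt π : ℝ) * Complex.exp ((ℓ : ℂ) * pl (1 / 2 + b) t₀) *
        (Real.exp (-(Δ ^ 2 * ℓ ^ 2 / 4)) : ℝ) := by
  have hΔC : (Δ : ℂ) ≠ 0 := by exact_mod_cast hΔ.ne'
  obtain ⟨c, hc⟩ : ∃ c : ℂ, c = 7 / 2 - (b : ℂ) := ⟨_, rfl⟩
  obtain ⟨B, hB⟩ : ∃ B : ℂ, B = -(1 / (Δ : ℂ) ^ 2) := ⟨_, rfl⟩
  obtain ⟨C, hC⟩ : ∃ C : ℂ, C = 2 * (I * c + t₀) / (Δ : ℂ) ^ 2 + I * ℓ := ⟨_, rfl⟩
  obtain ⟨D, hD⟩ : ∃ D : ℂ, D = (c ^ 2 - 2 * I * c * t₀ - (t₀ : ℂ) ^ 2) / (Δ : ℂ) ^ 2 + 4 * ℓ :=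
    ⟨_, rfl⟩
  have hfun : ∀ t : ℝ, Wg Δ b t₀ (pl 4 t) * Complex.exp ((ℓ : ℂ) * pl 4 t) =
      Complex.exp (B * (t : ℂ) ^ 2 + C * (t : ℂ) + D) := by
    intro t
    unfold Wg
    rw [← Complex.exp_add]
    congr 1
    have e1 : (pl 4 t - pl (1 / 2 + b) t₀) / (Δ : ℂ) = (c + I * ((t : ℂ) - t₀)) / Δ := by
      simp only [pl, hc]
      push_cast
      ring
    have e2 : pl 4 t = 4 + (t : ℂ) * I := by simp [pl]
    rw [e1, e2, div_pow, hB, hC, hD]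
    field_simp
    ring_nf
    rw [Complex.I_sq]
    ring
  have hBre : B.re < 0 := by
    have : B = ((-(1 / Δ ^ 2) : ℝ) : ℂ) := by rw [hB]; push_cast; ring
    rw [this, Complex.ofReal_re]
    have : 0 < 1 / Δ ^ 2 := by positivity
    linarith
  rw [integral_congr_ae (Filter.Eventually.of_forall hfun),
    integral_cexp_quadratic hBre C D]
  have e3 : ((π : ℂ) / -B) ^ (1 / 2 : ℂ) = ((Δ * Real.sqrt π : ℝ) : ℂ) := by
    have e4 : (π : ℂ) / -B = ((π * Δ ^ 2 : ℝ) : ℂ) := by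
      rw [hB]
      push_cast
      field_simp
    have e5 : (1 / 2 : ℂ) = ((1 / 2 : ℝ) : ℂ) := by push_cast; ring
    rw [e4, e5, ← Complex.ofReal_cpow (by positivity), ← Real.sqrt_eq_rpow, Real.sqrt_mul' _ (by positivity),
      Real.sqrt_sq hΔ.le, mul_comm]
  have e6 : D - C ^ 2 / (4 * B) =
      (ℓ : ℂ) * pl (1 / 2 + b) t₀ + ((-(Δ ^ 2 * ℓ ^ 2 / 4) : ℝ) : ℂ) := by
    simp only [pl]
    rw [hB, hC, hD, hc]
    push_cast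
    field_simp
    ring_nf
    rw [Complex.I_sq]
    ring
  rw [e3, e6, Complex.exp_add, Complex.ofReal_exp]
  ring

/-- MODULE SG9b. The window on the line `Re s = 4`. -/
theorem Wg_norm_le {Δ b t₀ t : ℝ} (hΔ : 4 ≤ Δ) (hb : 0 ≤ b) (hb1 : b ≤ 1) :
    ‖Wg Δ b t₀ (pl 4 t)‖ ≤ Real.exp 1 * Real.exp (-((t - t₀) / Δ) ^ 2) := by
  unfold Wg
  rw [Complex.norm_exp, ← Real.exp_add]
  apply Real.exp_le_exp.2
  have hΔ0 : 0 < Δ := by linarith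
  have e1 : ((pl 4 t - pl (1 / 2 + b) t₀) / (Δ : ℂ)) =
      (((7 / 2 - b) / Δ : ℝ) : ℂ) + (((t - t₀) / Δ : ℝ) : ℂ) * I := by
    simp only [pl]
    push_cast
    ring
  have e2 : (((pl 4 t - pl (1 / 2 + b) t₀) / (Δ : ℂ)) ^ 2).re =
      ((7 / 2 - b) / Δ) ^ 2 - ((t - t₀) / Δ) ^ 2 := by
    rw [e1, pow_two, Complex.mul_re]
    simp only [Complex.add_re, Complex.add_im, Complex.ofReal_re, Complex.ofReal_im,
      Complex.mul_re, Complex.mul_im, Complex.I_re, Complex.I_im]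
    ring
  rw [e2]
  have h1 : (7 / 2 - b) / Δ ≤ 1 := by
    rw [div_le_one hΔ0]
    linarith
  have h2 : 0 ≤ (7 / 2 - b) / Δ := div_nonneg (by linarith) hΔ0.le
  have h3 : ((7 / 2 - b) / Δ) ^ 2 ≤ 1 := by nlinarith
  linarith

end Pool.Agent.MP_67227b_nt.Sg
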