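import Pool.Agent.MP_67227b_nt.Sg.SgDefs

set_option autoImplicit false

open Filter Topology Set MeasureTheory Complex
open scoped Real

namespace Pool.Agent.MP_67227b_nt.Sg

open Pool.Agent.Lib.ZetaCount_helper33 Pool.Agent.MP_67227b_nt Pool.Agent.MP_67227b_nt.Mo

private lemma f1_re_inv (b y : ℝ) : (1 / ((b : ℂ) + (y : ℂ) * I)).re = b / (b ^ 2 + y ^ 2) := by
  rw [one_div, inv_re]
  have h1 : ((b : ℂ) + (y : ℂ) * I).re = b := by simp
  have h2 : ((b : ℂ) + (y : ℂ) * I).im = y := by simp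
  rw [normSq_apply, h1, h2]
  ring_nf

private lemma f1_re_ST (hRH : RiemannHypothesis) {T : ℝ} (hT : 0 ≤ T) (b t : ℝ) :
    (ST T (pl (1 / 2 + b) t)).re = ∑ u ∈ ZZ T, mu u * (b / (b ^ 2 + (t - ord u) ^ 2)) := by
  have h1 : ST T (pl (1 / 2 + b) t) =
      ∑ u ∈ ZZ T, (analyticOrderNatAt xi u.1 : ℂ) / (pl (1 / 2 + b) t - u.1) :=
    (sum_ZZ hRH hT (fun u => (analyticOrderNatAt xi u : ℂ) / (pl (1 / 2 + b) t - u))).symm
  rw [h1, re_sum]
  apply Finset.sum_congr rfl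
  intro u _
  have h2 : pl (1 / 2 + b) t - u.1 = (b : ℂ) + ((t - ord u : ℝ) : ℂ) * I := by
    rw [zer_eq hRH u, pl]
    push_cast
    ring
  have h3 : (analyticOrderNatAt xi u.1 : ℂ) / (pl (1 / 2 + b) t - u.1) =
      ((mu u : ℝ) : ℂ) * (1 / ((b : ℂ) + ((t - ord u : ℝ) : ℂ) * I)) := by
    rw [h2, mu]
    push_cast
    ring
  rw [h3, re_ofReal_mul, f1_re_inv]

/-- MODULE SG1. The real part of `xi'/xi` at distance `b` from the critical line. -/
theorem hasSum_reF (hRH : RiemannHypothesis) {b : ℝ} (hb : 0 < b) (t : ℝ) :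
    HasSum (fun z : Zer => mu z * (b / (b ^ 2 + (t - ord z) ^ 2)))
      (logDeriv xi (pl (1 / 2 + b) t)).re := by
  have hterm : ∀ u : Zer, 0 ≤ mu u * (b / (b ^ 2 + (t - ord u) ^ 2)) := fun u =>
    mul_nonneg (mu_nonneg u) (div_nonneg hb.le (by positivity))
  have hlim : Tendsto (fun T : ℝ => (ST T (pl (1 / 2 + b) t)).re) atTop
      (𝓝 (logDeriv xi (pl (1 / 2 + b) t)).re) :=
    (Complex.continuous_re.tendsto _).comp (tendsto_ST hRH (by rw [pl_re]; linarith))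
  have hZ : ∀ T : ℝ, 0 ≤ T → ∑ u ∈ ZZ T, mu u * (b / (b ^ 2 + (t - ord u) ^ 2)) ≤
      (logDeriv xi (pl (1 / 2 + b) t)).re := by
    intro T hT
    apply ge_of_tendsto hlim
    filter_upwards [eventually_ge_atTop T] with T' hT'
    rw [f1_re_ST hRH (hT.trans hT')]
    exact Finset.sum_le_sum_of_subset_of_nonneg (mono_ZZ hRH hT hT') (fun u _ _ => hterm u)
  have hfin : ∀ s : Finset Zer, ∑ u ∈ s, mu u * (b / (b ^ 2 + (t - ord u) ^ 2)) ≤
      (logDeriv xi (pl (1 / 2 + b) t)).re := by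
    intro s
    have h1 : ∀ᶠ T : ℝ in atTop, s ≤ ZZ T := (tendsto_ZZ hRH).eventually_ge_atTop s
    obtain ⟨T, hT, hT0⟩ := (h1.and (eventually_ge_atTop 0)).exists
    exact (Finset.sum_le_sum_of_subset_of_nonneg hT (fun u _ _ => hterm u)).trans (hZ T hT0)
  have hsum : Summable fun u : Zer => mu u * (b / (b ^ 2 + (t - ord u) ^ 2)) :=
    summable_of_sum_le hterm hfin
  have h2 : Tendsto (fun T : ℝ => ∑ u ∈ ZZ T, mu u * (b / (b ^ 2 + (t - ord u) ^ 2))) atTop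
      (𝓝 (∑' u : Zer, mu u * (b / (b ^ 2 + (t - ord u) ^ 2)))) :=
    hsum.hasSum.comp (tendsto_ZZ hRH)
  have h3 : Tendsto (fun T : ℝ => ∑ u ∈ ZZ T, mu u * (b / (b ^ 2 + (t - ord u) ^ 2))) atTop
      (𝓝 (logDeriv xi (pl (1 / 2 + b) t)).re) := by
    refine hlim.congr' ?_
    filter_upwards [eventually_ge_atTop 0] with T hT
    exact f1_re_ST hRH hT b t
  have h4 := tendsto_nhds_unique h2 h3
  rw [← h4]
  exact hsum.hasSum

end Pool.Agent.MP_67227b_nt.Sg
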