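import Pool.Agent.MP_67227b_nt.Sg.SgDefs

set_option autoImplicit false

open Filter Topology Set MeasureTheory Complex
open scoped Real

namespace Pool.Agent.MP_67227b_nt.Sg

open Pool.Agent.Lib.ZetaCount_helper33 Pool.Agent.MP_67227b_nt Pool.Agent.MP_67227b_nt.Mo

lemma SG2_ST (hRH : RiemannHypothesis) {T : ℝ} (hT : 0 ≤ T) (s : ℂ) :
    ST T s = ∑ u ∈ ZZ T, (mu u : ℂ) * (1 / (s - u.1)) := by
  have h1 : ST T s = ∑ u ∈ ZZ T, (analyticOrderNatAt xi u.1 : ℂ) / (s - u.1) :=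
    (sum_ZZ hRH hT (fun u => (analyticOrderNatAt xi u : ℂ) / (s - u))).symm
  rw [h1]
  apply Finset.sum_congr rfl
  intro u _
  rw [mu]
  push_cast
  ring

/-- the norm of one term -/
lemma SG2_term {x y : ℝ} (hx : 0 < x) (hx2 : x ≤ 3 / 2) :
    ‖1 / ((x : ℂ) + (y : ℂ) * I) - 1 / (1 + (y : ℂ) * I)‖ ≤ 3 / 2 / x * (1 / (1 + y ^ 2)) := by
  have hn1 : ‖(x : ℂ) + (y : ℂ) * I‖ = Real.sqrt (x ^ 2 + y ^ 2) := Complex.norm_add_mul_I x y
  have hn2 : ‖(1 : ℂ) + (y : ℂ) * I‖ = Real.sqrt (1 + y ^ 2) := by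
    have := Complex.norm_add_mul_I 1 y
    simpa using this
  have hp1 : (0 : ℝ) < x ^ 2 + y ^ 2 := by positivity
  have hp2 : (0 : ℝ) < 1 + y ^ 2 := by positivity
  have hs1 : 0 < Real.sqrt (x ^ 2 + y ^ 2) := Real.sqrt_pos.2 hp1
  have hs2 : 0 < Real.sqrt (1 + y ^ 2) := Real.sqrt_pos.2 hp2
  have hne1 : (x : ℂ) + (y : ℂ) * I ≠ 0 := by
    rw [← norm_pos_iff, hn1]; exact hs1
  have hne2 : (1 : ℂ) + (y : ℂ) * I ≠ 0 := by
    rw [← norm_pos_iff, hn2]; exact hs2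
  have e : 1 / ((x : ℂ) + (y : ℂ) * I) - 1 / (1 + (y : ℂ) * I) =
      ((1 - x : ℝ) : ℂ) / (((x : ℂ) + (y : ℂ) * I) * (1 + (y : ℂ) * I)) := by
    field_simp
    push_cast
    ring
  rw [e, norm_div, norm_mul, hn1, hn2, Complex.norm_real, Real.norm_eq_abs]
  have h1 : |1 - x| ≤ 1 := by rw [abs_le]; constructor <;> linarith
  have h2 : 2 / 3 * x * Real.sqrt (1 + y ^ 2) ≤ Real.sqrt (x ^ 2 + y ^ 2) := by
    apply Real.le_sqrt_of_sq_le
    rw [mul_pow, Real.sq_sqrt hp2.le]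
    have h3 : (2 / 3 * x) ^ 2 ≤ 1 := by nlinarith
    have h4 : (2 / 3 * x) ^ 2 * y ^ 2 ≤ 1 * y ^ 2 := mul_le_mul_of_nonneg_right h3 (sq_nonneg y)
    nlinarith [sq_nonneg x]
  have h5 : 2 / 3 * x * (1 + y ^ 2) ≤ Real.sqrt (x ^ 2 + y ^ 2) * Real.sqrt (1 + y ^ 2) := by
    have := mul_le_mul_of_nonneg_right h2 hs2.le
    rwa [mul_assoc, Real.mul_self_sqrt hp2.le] at this
  have h6 : 0 < 2 / 3 * x * (1 + y ^ 2) := by positivity
  calc |1 - x| / (Real.sqrt (x ^ 2 + y ^ 2) * Real.sqrt (1 + y ^ 2))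
      ≤ 1 / (2 / 3 * x * (1 + y ^ 2)) := div_le_div₀ zero_le_one h1 h6 h5
    _ = 3 / 2 / x * (1 / (1 + y ^ 2)) := by field_simp

/-- MODULE SG2. Upper bound for `xi'/xi` in the half-strip. -/
theorem norm_F_le (hRH : RiemannHypothesis) : ∃ C : ℝ, 0 < C ∧ ∀ σ t : ℝ, 1 / 2 < σ → σ ≤ 2 →
    ‖logDeriv xi (pl σ t)‖ ≤ C * Real.log (|t| + 3) / (σ - 1 / 2) := by
  obtain ⟨C, hC, hb⟩ := exists_Fl_bound
  refine ⟨3 * C, by positivity, fun σ t h1 h2 => ?_⟩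
  have hx : 0 < σ - 1 / 2 := by linarith
  have hx2 : σ - 1 / 2 ≤ 3 / 2 := by linarith
  have hlog : 0 ≤ Real.log (|t| + 3) := Real.log_nonneg (by have := abs_nonneg t; linarith)
  have hT1 : Tendsto (fun T : ℝ => ST T (pl σ t)) atTop (𝓝 (logDeriv xi (pl σ t))) :=
    tendsto_ST hRH (by rw [pl_re]; exact h1)
  have hT2 : Tendsto (fun T : ℝ => ST T (pt32 t)) atTop (𝓝 (Fl t)) := tendsto_ST_pt32 hRH t
  have hT3 := (hT1.sub hT2).norm
  have hle : ‖logDeriv xi (pl σ t) - Fl t‖ ≤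
      3 / 2 / (σ - 1 / 2) * (C * Real.log (|t| + 3)) := by
    refine le_of_tendsto hT3 ?_
    filter_upwards [eventually_ge_atTop 0] with T hT
    rw [SG2_ST hRH hT, ST_pt32 hRH hT, ← Finset.sum_sub_distrib]
    calc ‖∑ u ∈ ZZ T, ((mu u : ℂ) * (1 / (pl σ t - u.1)) -
          (mu u : ℂ) * (1 / (1 + ((t - ord u : ℝ) : ℂ) * I)))‖
        ≤ ∑ u ∈ ZZ T, ‖(mu u : ℂ) * (1 / (pl σ t - u.1)) -
          (mu u : ℂ) * (1 / (1 + ((t - ord u : ℝ) : ℂ) * I))‖ := norm_sum_le _ _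
      _ ≤ ∑ u ∈ ZZ T, 3 / 2 / (σ - 1 / 2) * (mu u / (1 + (t - ord u) ^ 2)) := by
          refine Finset.sum_le_sum fun u _ => ?_
          have e1 : pl σ t - u.1 = ((σ - 1 / 2 : ℝ) : ℂ) + ((t - ord u : ℝ) : ℂ) * I := by
            rw [zer_eq hRH u, pl]
            push_cast
            ring
          rw [e1, ← mul_sub, norm_mul, Complex.norm_real, Real.norm_of_nonneg (mu_nonneg u)]
          have h3 := mul_le_mul_of_nonneg_left (SG2_term (y := t - ord u) hx hx2) (mu_nonneg u)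
          refine h3.trans (le_of_eq ?_)
          ring
      _ = 3 / 2 / (σ - 1 / 2) * ∑ u ∈ ZZ T, mu u / (1 + (t - ord u) ^ 2) := by
          rw [Finset.mul_sum]
      _ ≤ 3 / 2 / (σ - 1 / 2) * (C * Real.log (|t| + 3)) := by
          refine mul_le_mul_of_nonneg_left ?_ (by positivity)
          exact ((finset_sum_le hRH t _).trans (re_le_norm _)).trans (hb t)
  have h3 : ‖logDeriv xi (pl σ t)‖ ≤ ‖logDeriv xi (pl σ t) - Fl t‖ + ‖Fl t‖ := by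
    have := norm_add_le (logDeriv xi (pl σ t) - Fl t) (Fl t)
    rwa [sub_add_cancel] at this
  have h4 : (1 : ℝ) ≤ 3 / 2 / (σ - 1 / 2) := (one_le_div hx).2 hx2
  have h5 : ‖Fl t‖ ≤ 3 / 2 / (σ - 1 / 2) * (C * Real.log (|t| + 3)) := by
    refine (hb t).trans ?_
    have := mul_le_mul_of_nonneg_right h4 (mul_nonneg hC.le hlog)
    linarith
  refine h3.trans ((add_le_add hle h5).trans (le_of_eq ?_))
  field_simp
  ring

end Pool.Agent.MP_67227b_nt.Sg
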