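import Pool.Agent.MP_67227b_nt.Sg.SgDefs

set_option autoImplicit false

open Filter Topology Set MeasureTheory Complex
open scoped Real

namespace Pool.Agent.MP_67227b_nt.Sg

open Pool.Agent.Lib.ZetaCount_helper33 Pool.Agent.MP_67227b_nt Pool.Agent.MP_67227b_nt.Mo

/-- telescoping bound -/
private lemma SG3_step {L : ℝ} (hL : 0 ≤ L) {n : ℕ} (hn : 1 ≤ n) :
    (L + Real.log ((n : ℝ) + 1)) / (n : ℝ) ^ 2 ≤
      2 * (L + Real.log ((n : ℝ) + 1) + 2) / n -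
        2 * (L + Real.log (((n + 1 : ℕ) : ℝ) + 1) + 2) / ((n + 1 : ℕ) : ℝ) := by
  have hn' : (1 : ℝ) ≤ n := by exact_mod_cast hn
  have h0 : 0 < (n : ℝ) := by linarith
  have hl : 0 ≤ Real.log ((n : ℝ) + 1) := Real.log_nonneg (by linarith)
  have h1 : Real.log (((n + 1 : ℕ) : ℝ) + 1) ≤ Real.log ((n : ℝ) + 1) + 1 / ((n : ℝ) + 1) := by
    have e : ((n + 1 : ℕ) : ℝ) + 1 = ((n : ℝ) + 1) * (1 + 1 / ((n : ℝ) + 1)) := by
      push_cast
      field_simp
    rw [e, Real.log_mul (by positivity) (by positivity)]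
    have := Real.log_le_sub_one_of_pos (x := 1 + 1 / ((n : ℝ) + 1)) (by positivity)
    linarith
  have h2 : 2 * (L + Real.log (((n + 1 : ℕ) : ℝ) + 1) + 2) / ((n + 1 : ℕ) : ℝ) ≤
      2 * (L + (Real.log ((n : ℝ) + 1) + 1 / ((n : ℝ) + 1)) + 2) / ((n + 1 : ℕ) : ℝ) := by
    gcongr
  set l := Real.log ((n : ℝ) + 1) with hldef
  have e2 : 2 * (L + l + 2) / n - 2 * (L + (l + 1 / ((n : ℝ) + 1)) + 2) / ((n + 1 : ℕ) : ℝ) =
      2 * (L + l + 2) / (n * (n + 1)) - 2 / (((n : ℝ) + 1) * (n + 1)) := by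
    push_cast
    field_simp
    ring
  have h3 : 2 / (((n : ℝ) + 1) * (n + 1)) ≤ 2 / ((n : ℝ) * (n + 1)) := by
    gcongr
    linarith
  have h4 : (L + l) / (n : ℝ) ^ 2 ≤ 2 * (L + l + 1) / (n * (n + 1)) := by
    rw [div_le_div_iff₀ (by positivity) (by positivity)]
    have h5 : (n : ℝ) * (n + 1) ≤ 2 * (n : ℝ) ^ 2 := by nlinarith
    have h6 : 0 ≤ L + l := by positivity
    nlinarith [mul_le_mul_of_nonneg_left h5 h6, sq_nonneg (n : ℝ)]
  have e3 : 2 * (L + l + 2) / ((n : ℝ) * (n + 1)) =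
      2 * (L + l + 1) / (n * (n + 1)) + 2 / ((n : ℝ) * (n + 1)) := by
    rw [← add_div]
    congr 1
    ring
  linarith

private lemma SG3_tele {L : ℝ} (hL : 0 ≤ L) {n0 : ℕ} (h0 : 1 ≤ n0) (N : ℕ) :
    ∑ n ∈ Finset.Ico n0 N, (L + Real.log ((n : ℝ) + 1)) / (n : ℝ) ^ 2 ≤
      2 * (L + Real.log ((n0 : ℝ) + 1) + 2) / n0 := by
  have hn0 : (1 : ℝ) ≤ n0 := by exact_mod_cast h0
  have hG : ∀ n : ℕ, 0 ≤ 2 * (L + Real.log ((n : ℝ) + 1) + 2) / (n : ℝ) := by
    intro n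
    have : 0 ≤ Real.log ((n : ℝ) + 1) := Real.log_nonneg (by have := n.cast_nonneg (α := ℝ); linarith)
    positivity
  rcases le_or_gt n0 N with h | h
  · obtain ⟨G, hGd⟩ : ∃ G : ℕ → ℝ, ∀ n : ℕ, G n =
        -(2 * (L + Real.log ((n : ℝ) + 1) + 2) / (n : ℝ)) := ⟨_, fun _ => rfl⟩
    have h1 : ∑ n ∈ Finset.Ico n0 N, (L + Real.log ((n : ℝ) + 1)) / (n : ℝ) ^ 2 ≤
        ∑ n ∈ Finset.Ico n0 N, (G (n + 1) - G n) := by
      apply Finset.sum_le_sum
      intro n hn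
      have := SG3_step hL (h0.trans (Finset.mem_Ico.1 hn).1)
      rw [hGd, hGd]
      linarith
    rw [Finset.sum_Ico_sub G h, hGd, hGd] at h1
    have := hG N
    linarith
  · rw [Finset.Ico_eq_empty (by omega), Finset.sum_empty]
    exact hG n0

private lemma SG3_kernel {x : ℝ} {n : ℕ} (hn : 1 ≤ n) (h1 : (n : ℝ) ≤ |x|) (h2 : |x| < n + 1) :
    1 / x ^ 2 ≤ 2 / (n : ℝ) ^ 2 * (1 / (1 + (x - n) ^ 2) + 1 / (1 + (x + n) ^ 2)) := by
  have hn' : (1 : ℝ) ≤ n := by exact_mod_cast hn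
  have h3 : (1 : ℝ) / 2 ≤ 1 / (1 + (x - n) ^ 2) + 1 / (1 + (x + n) ^ 2) := by
    rcases abs_cases x with ⟨h, _⟩ | ⟨h, _⟩
    · rw [h] at h1 h2
      have h4 : (1 : ℝ) / 2 ≤ 1 / (1 + (x - n) ^ 2) := by
        apply one_div_le_one_div_of_le (by positivity)
        nlinarith
      have h5 : 0 ≤ 1 / (1 + (x + n) ^ 2) := by positivity
      linarith
    · rw [h] at h1 h2
      have h4 : (1 : ℝ) / 2 ≤ 1 / (1 + (x + n) ^ 2) := by
        apply one_div_le_one_div_of_le (by positivity)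
        nlinarith
      have h5 : 0 ≤ 1 / (1 + (x - n) ^ 2) := by positivity
      linarith
  have h6 : 1 / x ^ 2 ≤ 1 / (n : ℝ) ^ 2 := by
    apply one_div_le_one_div_of_le (by positivity)
    rw [← sq_abs x]
    gcongr
  calc 1 / x ^ 2 ≤ 1 / (n : ℝ) ^ 2 := h6
    _ = 2 / (n : ℝ) ^ 2 * (1 / 2) := by ring
    _ ≤ _ := by gcongr

private lemma SG3_logs {T t X : ℝ} (hT : 3 ≤ T) (ht : t ≤ 4 * T) (ht0 : 0 ≤ t)
    (hXT : X ≤ T) {n0 : ℕ} (hn : (n0 : ℝ) ≤ X) :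
    Real.log (t + 3) + Real.log ((n0 : ℝ) + 1) + 2 ≤ 8 * Real.log T := by
  have h1 : 1 ≤ Real.log T := by
    rw [Real.le_log_iff_exp_le (by linarith)]
    have := Real.exp_one_lt_d9
    linarith
  have hn0 : (0 : ℝ) ≤ n0 := Nat.cast_nonneg _
  have h2 : Real.log (t + 3) ≤ 3 * Real.log T := by
    have : Real.log (t + 3) ≤ Real.log (T ^ 3) := by
      apply Real.log_le_log (by linarith)
      nlinarith [mul_nonneg (by linarith : (0 : ℝ) ≤ T) (sq_nonneg (T - 3)), sq_nonneg (T - 3)]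
    rwa [Real.log_pow] at this
  have h3 : Real.log ((n0 : ℝ) + 1) ≤ 2 * Real.log T := by
    have : Real.log ((n0 : ℝ) + 1) ≤ Real.log (T ^ 2) := by
      apply Real.log_le_log (by linarith)
      nlinarith
    rwa [Real.log_pow] at this
  linarith

/-- MODULE SG3. The zeros at distance at least `X` from `t`. -/
theorem tail_le (hRH : RiemannHypothesis) : ∃ C : ℝ, 0 < C ∧ ∀ T t X : ℝ, 3 ≤ T → T / 2 ≤ t →
    t ≤ 4 * T → 1 ≤ X → X ≤ T → ∀ s : Finset Zer, (∀ z ∈ s, X ≤ |t - ord z|) →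
    ∑ z ∈ s, mu z / (t - ord z) ^ 2 ≤ C * Real.log T / X := by
  obtain ⟨C, hC, hd⟩ := exists_density hRH
  refine ⟨128 * C, by positivity, ?_⟩
  intro T t X hT ht1 ht2 hX hXT s hs
  have ht0 : 0 < t := by linarith
  have hfin : ∀ y : ℝ, ∑ z ∈ s, mu z / (1 + (y - ord z) ^ 2) ≤ C * Real.log (|y| + 3) := fun y =>
    ((summable_zer hRH y).sum_le_tsum s (fun _ _ => term_nonneg _ _)).trans (hd y)
  set n0 : ℕ := ⌊X⌋₊ with hn0
  have hn0X : (n0 : ℝ) ≤ X := Nat.floor_le (by linarith)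
  have hn01 : 1 ≤ n0 := (Nat.one_le_floor_iff X).2 hX
  have hn01' : (1 : ℝ) ≤ n0 := by exact_mod_cast hn01
  have hn0' : X / 2 ≤ n0 := by
    have := Nat.lt_floor_add_one X
    rw [← hn0] at this
    linarith
  set N : ℕ := (s.sup fun z => ⌊|t - ord z|⌋₊) + 1 with hN
  have hterm : ∀ z ∈ s, mu z / (t - ord z) ^ 2 ≤ ∑ n ∈ Finset.Ico n0 N,
      2 / (n : ℝ) ^ 2 * (mu z / (1 + ((t - n) - ord z) ^ 2) + mu z / (1 + ((t + n) - ord z) ^ 2)) := by
    intro z hz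
    have h1 := hs z hz
    set n : ℕ := ⌊|t - ord z|⌋₊ with hn
    have h2 : (n : ℝ) ≤ |t - ord z| := Nat.floor_le (abs_nonneg _)
    have h3 : |t - ord z| < n + 1 := Nat.lt_floor_add_one _
    have h4 : n0 ≤ n := Nat.floor_mono h1
    have h5 : n < N := by
      rw [hN]
      exact Nat.lt_succ_of_le (Finset.le_sup (f := fun z => ⌊|t - ord z|⌋₊) hz)
    have h6 := SG3_kernel (hn01.trans h4) h2 h3
    have hmu := mu_nonneg z
    have h7 : mu z / (t - ord z) ^ 2 ≤ 2 / (n : ℝ) ^ 2 *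
        (mu z / (1 + ((t - n) - ord z) ^ 2) + mu z / (1 + ((t + n) - ord z) ^ 2)) := by
      have h8 := mul_le_mul_of_nonneg_left h6 hmu
      calc mu z / (t - ord z) ^ 2 = mu z * (1 / (t - ord z) ^ 2) := by ring
        _ ≤ mu z * (2 / (n : ℝ) ^ 2 * (1 / (1 + ((t - ord z) - n) ^ 2) +
            1 / (1 + ((t - ord z) + n) ^ 2))) := h8
        _ = _ := by
          rw [show (t - ord z) - n = (t - n) - ord z by ring,
            show (t - ord z) + n = (t + n) - ord z by ring]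
          ring
    refine h7.trans ?_
    refine Finset.single_le_sum (f := fun n : ℕ => 2 / (n : ℝ) ^ 2 *
      (mu z / (1 + ((t - n) - ord z) ^ 2) + mu z / (1 + ((t + n) - ord z) ^ 2))) ?_
      (Finset.mem_Ico.2 ⟨h4, h5⟩)
    intro m _
    positivity
  have hsum : ∑ z ∈ s, mu z / (t - ord z) ^ 2 ≤ ∑ n ∈ Finset.Ico n0 N,
      2 / (n : ℝ) ^ 2 * (∑ z ∈ s, mu z / (1 + ((t - n) - ord z) ^ 2) +
        ∑ z ∈ s, mu z / (1 + ((t + n) - ord z) ^ 2)) := by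
    refine (Finset.sum_le_sum hterm).trans (le_of_eq ?_)
    rw [Finset.sum_comm]
    refine Finset.sum_congr rfl fun n _ => ?_
    rw [← Finset.sum_add_distrib, Finset.mul_sum]
  have hlog : ∀ n ∈ Finset.Ico n0 N, 2 / (n : ℝ) ^ 2 * (∑ z ∈ s, mu z / (1 + ((t - n) - ord z) ^ 2) +
        ∑ z ∈ s, mu z / (1 + ((t + n) - ord z) ^ 2)) ≤
      4 * C * ((Real.log (t + 3) + Real.log ((n : ℝ) + 1)) / (n : ℝ) ^ 2) := by
    intro n _
    have hn : (0 : ℝ) ≤ n := Nat.cast_nonneg n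
    have k0 : Real.log (t + n + 3) ≤ Real.log (t + 3) + Real.log ((n : ℝ) + 1) := by
      rw [← Real.log_mul (by positivity) (by positivity)]
      apply Real.log_le_log (by positivity)
      nlinarith
    have k1 : Real.log (|t - n| + 3) ≤ Real.log (t + n + 3) := by
      apply Real.log_le_log (by positivity)
      have : |t - n| ≤ t + n := by rw [abs_le]; constructor <;> linarith
      linarith
    have k2 : Real.log (|t + n| + 3) ≤ Real.log (t + n + 3) := by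
      rw [abs_of_nonneg (by positivity)]
    have k3 := hfin (t - n)
    have k4 := hfin (t + n)
    have k5 : ∑ z ∈ s, mu z / (1 + ((t - n) - ord z) ^ 2) +
        ∑ z ∈ s, mu z / (1 + ((t + n) - ord z) ^ 2) ≤
        2 * C * (Real.log (t + 3) + Real.log ((n : ℝ) + 1)) := by
      have k6 := mul_le_mul_of_nonneg_left (k1.trans k0) hC.le
      have k7 := mul_le_mul_of_nonneg_left (k2.trans k0) hC.le
      linarith
    calc _ ≤ 2 / (n : ℝ) ^ 2 * (2 * C * (Real.log (t + 3) + Real.log ((n : ℝ) + 1))) := by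
          gcongr
      _ = _ := by ring
  have hL : 0 ≤ Real.log (t + 3) := Real.log_nonneg (by linarith)
  have hfinal := SG3_tele hL hn01 N
  have hb := SG3_logs hT ht2 ht0.le hXT hn0X
  calc ∑ z ∈ s, mu z / (t - ord z) ^ 2
      ≤ ∑ n ∈ Finset.Ico n0 N,
        4 * C * ((Real.log (t + 3) + Real.log ((n : ℝ) + 1)) / (n : ℝ) ^ 2) :=
        hsum.trans (Finset.sum_le_sum hlog)
    _ = 4 * C * ∑ n ∈ Finset.Ico n0 N,
        ((Real.log (t + 3) + Real.log ((n : ℝ) + 1)) / (n : ℝ) ^ 2) := by rw [Finset.mul_sum]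
    _ ≤ 4 * C * (2 * (Real.log (t + 3) + Real.log ((n0 : ℝ) + 1) + 2) / n0) := by gcongr
    _ ≤ 4 * C * (2 * (8 * Real.log T) / (X / 2)) := by
        have h1 : 0 ≤ Real.log T := Real.log_nonneg (by linarith)
        gcongr
    _ = 128 * C * Real.log T / X := by
        field_simp
        ring

end Pool.Agent.MP_67227b_nt.Sg
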