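import Pool.Agent.MP_67227b_nt.Sg.SgDefs

set_option autoImplicit false

open Filter Topology Set MeasureTheory Complex
open scoped Real

namespace Pool.Agent.MP_67227b_nt.Sg

open Pool.Agent.Lib.ZetaCount_helper33 Pool.Agent.MP_67227b_nt Pool.Agent.MP_67227b_nt.Mo

/-- the index of a zero of `xi` with positive ordinate, for `i` below the order. -/
private lemma SG16_idx {z : Zer} (hz : 0 < ord z) {i : ℕ} (hi : i < analyticOrderNatAt xi z.1) :
    ∃ j : ZetaZeroIdx, j.1 = (z.1, i) ∧ zetaOrdinate j = ord z := by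
  have him : z.1.im ≠ 0 := ne_of_gt hz
  have h1 : riemannZeta z.1 = 0 := (xi_eq_zero_iff him).mp z.2
  have h2 : i < analyticOrderNatAt riemannZeta z.1 := by
    rw [← xi_order_eq him]
    exact hi
  exact ⟨⟨(z.1, i), h1, hz, h2⟩, rfl, rfl⟩

private lemma SG16_pos {z : Zer} (_hz : 0 < ord z) : 0 < analyticOrderNatAt xi z.1 := by
  have han : AnalyticAt ℂ xi z.1 := differentiable_xi.analyticAt z.1
  have h1 : analyticOrderAt xi z.1 ≠ ⊤ := by
    intro h
    rw [analyticOrderAt_eq_top] at h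
    have hon : AnalyticOnNhd ℂ xi univ := fun x _ => differentiable_xi.analyticAt x
    have h2 := hon.eqOn_zero_of_preconnected_of_eventuallyEq_zero isPreconnected_univ
      (mem_univ z.1) h
    exact xi_two_ne_zero (h2 (mem_univ 2))
  have h2 : analyticOrderAt xi z.1 ≠ 0 := by
    rw [han.analyticOrderAt_ne_zero]
    exact z.2
  have h3 : (analyticOrderNatAt xi z.1 : ℕ∞) = analyticOrderAt xi z.1 :=
    Nat.cast_analyticOrderNatAt h1
  rcases Nat.eq_zero_or_pos (analyticOrderNatAt xi z.1) with h | h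
  · rw [h] at h3
    exact absurd h3.symm h2
  · exact h

/-- MODULE SG16. From separated zeros to indices. -/
theorem exists_pair_of_not_sep {A B a : ℝ} (hA : 0 < A) (ha : 0 ≤ a) (h : ¬ Sep (Icc A B) a) :
    ∃ j j' : ZetaZeroIdx, j ≠ j' ∧ zetaOrdinate j ∈ Icc A B ∧ zetaOrdinate j' ∈ Icc A B ∧
      0 ≤ zetaOrdinate j' - zetaOrdinate j ∧ zetaOrdinate j' - zetaOrdinate j ≤ a := by
  by_cases h1 : ∀ z : Zer, ord z ∈ Icc A B → mu z = 1
  · have h2 : ¬ ∀ z z' : Zer, ord z ∈ Icc A B → ord z' ∈ Icc A B → z ≠ z' →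
        a < |ord z - ord z'| := fun h3 => h ⟨h1, h3⟩
    push Not at h2
    obtain ⟨z, z', hz, hz', hne, hle⟩ := h2
    have hz0 : 0 < ord z := lt_of_lt_of_le hA hz.1
    have hz0' : 0 < ord z' := lt_of_lt_of_le hA hz'.1
    obtain ⟨j, hj, hj2⟩ := SG16_idx hz0 (SG16_pos hz0)
    obtain ⟨j', hj', hj2'⟩ := SG16_idx hz0' (SG16_pos hz0')
    have hjne : j ≠ j' := by
      intro e
      apply hne
      apply Subtype.ext
      rw [e, hj'] at hj
      exact (congrArg Prod.fst hj).symm
    have hle2 := abs_le.1 hle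
    rcases le_total (ord z) (ord z') with h5 | h5
    · refine ⟨j, j', hjne, ?_, ?_, ?_, ?_⟩
      · rw [hj2]; exact hz
      · rw [hj2']; exact hz'
      · rw [hj2, hj2']; linarith
      · rw [hj2, hj2']; linarith
    · refine ⟨j', j, hjne.symm, ?_, ?_, ?_, ?_⟩
      · rw [hj2']; exact hz'
      · rw [hj2]; exact hz
      · rw [hj2, hj2']; linarith
      · rw [hj2, hj2']; linarith
  · push Not at h1
    obtain ⟨z, hz, hmu⟩ := h1
    have hz0 : 0 < ord z := lt_of_lt_of_le hA hz.1
    have hp := SG16_pos hz0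
    have h2 : 1 < analyticOrderNatAt xi z.1 := by
      by_contra hn
      apply hmu
      have : analyticOrderNatAt xi z.1 = 1 := by omega
      unfold mu
      rw [this]
      norm_num
    obtain ⟨j, hj, hj2⟩ := SG16_idx hz0 hp
    obtain ⟨j', hj', hj2'⟩ := SG16_idx hz0 h2
    refine ⟨j, j', ?_, ?_, ?_, ?_, ?_⟩
    · intro e
      rw [e, hj'] at hj
      have := congrArg Prod.snd hj
      simp at this
    · rw [hj2]; exact hz
    · rw [hj2']; exact hz
    · rw [hj2, hj2']; linarith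
    · rw [hj2, hj2']; linarith

end Pool.Agent.MP_67227b_nt.Sg
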