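import Pool.Agent.MP_67227b_nt.Sg.SgDefs

set_option autoImplicit false

open Filter Topology Set MeasureTheory Complex
open scoped Real

namespace Pool.Agent.MP_67227b_nt.Sg

open Pool.Agent.Lib.ZetaCount_helper33 Pool.Agent.MP_67227b_nt Pool.Agent.MP_67227b_nt.Mo

private lemma tupFin (m : ℕ) (T : ℝ) (a b : Fin m → ℝ) :
    {j : Fin (m + 1) → ZetaZeroIdx | Function.Injective j ∧ (∀ i, zetaOrdinate (j i) ≤ T) ∧
    ∀ i : Fin m, (zetaOrdinate (j i.castSucc) - zetaOrdinate (j (Fin.last m))) *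
      (Real.log T / (2 * π)) ∈ Set.Icc (a i) (b i)}.Finite := by
  have h1 : (Set.pi univ (fun _ : Fin (m + 1) => {j | zetaOrdinate j ≤ T})).Finite :=
    Set.Finite.pi' (fun _ => goodFamily_zeta.fin T) |>.subset (fun j hj i => hj i (mem_univ i))
  exact h1.subset (fun j hj i _ => hj.2.1 i)

/-- From short intervals to the count of pairs. -/
theorem count_of_local {θ lam' lam η : ℝ} (hθ : 0 < θ) (hθ1 : θ < 1) (hl0 : 0 < lam')
    (hl1 : lam' < lam) (hη : η < 1 - θ)
    (hev : ∀ᶠ T : ℝ in atTop,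
      ∃ j j' : ZetaZeroIdx, j ≠ j' ∧ zetaOrdinate j ∈ Icc T (T + T ^ θ) ∧
        zetaOrdinate j' ∈ Icc T (T + T ^ θ) ∧ 0 ≤ zetaOrdinate j' - zetaOrdinate j ∧
        zetaOrdinate j' - zetaOrdinate j ≤ 2 * π * lam' / Real.log T) :
    ∀ᶠ T : ℝ in atTop,
      T ^ η ≤ (tupleCount zetaOrdinate 1 T (fun _ => 0) (fun _ => lam) : ℝ) := by
  classical
  obtain ⟨T0, hT0⟩ := eventually_atTop.mp hev
  have e1 : ∀ᶠ T : ℝ in atTop, 2 * T0 ≤ T := eventually_ge_atTop _
  have e2 : ∀ᶠ T : ℝ in atTop, (4 : ℝ) ≤ T := eventually_ge_atTop _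
  have e3 : ∀ᶠ T : ℝ in atTop, (16 : ℝ) ≤ T ^ ((1 - θ) / 2) :=
    (tendsto_rpow_atTop (by linarith)).eventually_ge_atTop _
  have e5 : ∀ᶠ T : ℝ in atTop, (16 : ℝ) ≤ T ^ (1 - θ - η) :=
    (tendsto_rpow_atTop (by linarith)).eventually_ge_atTop _
  have e4 : ∀ᶠ T : ℝ in atTop, lam * Real.log 2 / (lam - lam') ≤ Real.log T :=
    Real.tendsto_log_atTop.eventually_ge_atTop _
  filter_upwards [e1, e2, e3, e4, e5] with T h1 h2 h3 h4 h5'
  have hTpos : 0 < T := by linarith
  set P : ℝ := T ^ θ with hP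
  have hPpos : 0 < P := Real.rpow_pos_of_pos hTpos _
  set Q : ℝ := T ^ ((1 - θ) / 2) with hQ
  have hQQ : P * (Q * Q) = T := by
    rw [hP, hQ, ← Real.rpow_add hTpos, ← Real.rpow_add hTpos]
    have : θ + ((1 - θ) / 2 + (1 - θ) / 2) = 1 := by ring
    rw [this, Real.rpow_one]
  set K : ℕ := ⌊Q * Q / 8⌋₊ with hK
  have hK1 : (K : ℝ) ≤ Q * Q / 8 := Nat.floor_le (by positivity)
  have hK2 : T ^ η ≤ (K : ℝ) := by
    have h5 := Nat.lt_floor_add_one (Q * Q / 8)
    rw [← hK] at h5
    have h6 : Q * Q = T ^ η * T ^ (1 - θ - η) := by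
      rw [hQ, ← Real.rpow_add hTpos, ← Real.rpow_add hTpos]
      congr 1
      ring
    have h7 : 0 < T ^ η := Real.rpow_pos_of_pos hTpos _
    have h8 : 16 * T ^ η ≤ Q * Q := by
      rw [h6]
      nlinarith
    have h9 : 16 ≤ Q * Q := by nlinarith
    linarith
  have hlog2 : 0 < Real.log 2 := Real.log_pos (by norm_num)
  have hlogT : 0 < Real.log T := Real.log_pos (by linarith)
  have hlogT2 : 0 < Real.log (T / 2) := Real.log_pos (by linarith)
  have hloge : Real.log (T / 2) = Real.log T - Real.log 2 := Real.log_div (by linarith) (by norm_num)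
  have hll : lam' * Real.log T ≤ lam * Real.log (T / 2) := by
    rw [hloge]
    rw [div_le_iff₀ (by linarith)] at h4
    nlinarith
  -- the points
  have hpt : ∀ k : ℕ, k < K → T / 2 + 2 * k * P + P ≤ T := by
    intro k hk
    have hk' : (k : ℝ) ≤ Q * Q / 8 := by
      have : (k : ℝ) ≤ K := by exact_mod_cast hk.le
      linarith
    have h5 : 2 * (k : ℝ) * P ≤ T / 4 := by
      have : 2 * (k : ℝ) * P ≤ 2 * (Q * Q / 8) * P := by
        apply mul_le_mul_of_nonneg_right _ hPpos.le
        linarith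
      nlinarith
    have h6 : 4 * P ≤ T := by
      have : (4 : ℝ) ≤ Q * Q := by nlinarith
      nlinarith
    linarith
  have hex : ∀ k : ℕ, ∃ p : ZetaZeroIdx × ZetaZeroIdx, k < K →
      (p.1 ≠ p.2 ∧ T / 2 + 2 * k * P ≤ zetaOrdinate p.1 ∧
        zetaOrdinate p.1 ≤ T / 2 + 2 * k * P + P ∧ zetaOrdinate p.2 ≤ T / 2 + 2 * k * P + P ∧
        0 ≤ zetaOrdinate p.2 - zetaOrdinate p.1 ∧
        (zetaOrdinate p.2 - zetaOrdinate p.1) * (Real.log T / (2 * π)) ≤ lam) := by
    intro k
    have hS1 : T / 2 ≤ T / 2 + 2 * k * P := by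
      have : 0 ≤ 2 * (k : ℝ) * P := by positivity
      linarith
    obtain ⟨j, j', a1, a2, a3, a4, a5⟩ := hT0 (T / 2 + 2 * k * P) (by linarith)
    refine ⟨(j, j'), fun hk => ⟨a1, a2.1, ?_, ?_, a4, ?_⟩⟩
    · refine a2.2.trans ?_
      have hS2 := hpt k hk
      have : (T / 2 + 2 * k * P) ^ θ ≤ P :=
        Real.rpow_le_rpow (by linarith) (by linarith) hθ.le
      linarith
    · refine a3.2.trans ?_
      have hS2 := hpt k hk
      have : (T / 2 + 2 * k * P) ^ θ ≤ P :=
        Real.rpow_le_rpow (by linarith) (by linarith) hθ.le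
      linarith
    · have b1 : Real.log (T / 2) ≤ Real.log (T / 2 + 2 * k * P) :=
        Real.log_le_log (by linarith) hS1
      have b2 : zetaOrdinate j' - zetaOrdinate j ≤ 2 * π * lam' / Real.log (T / 2) := by
        refine a5.trans ?_
        apply div_le_div_of_nonneg_left _ hlogT2 b1
        positivity
      have b3 : (zetaOrdinate j' - zetaOrdinate j) * (Real.log T / (2 * π)) ≤
          2 * π * lam' / Real.log (T / 2) * (Real.log T / (2 * π)) :=
        mul_le_mul_of_nonneg_right b2 (by positivity)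
      refine b3.trans ?_
      have b4 : 2 * π * lam' / Real.log (T / 2) * (Real.log T / (2 * π)) =
          lam' * Real.log T / Real.log (T / 2) := by
        field_simp
      rw [b4, div_le_iff₀ hlogT2]
      exact hll
  choose p hp using hex
  -- the tuples
  set S : Set (Fin (1 + 1) → ZetaZeroIdx) := {j : Fin (1 + 1) → ZetaZeroIdx |
    Function.Injective j ∧ (∀ i, zetaOrdinate (j i) ≤ T) ∧
    ∀ i : Fin 1, (zetaOrdinate (j i.castSucc) - zetaOrdinate (j (Fin.last 1))) *
      (Real.log T / (2 * π)) ∈ Set.Icc ((fun _ => (0 : ℝ)) i) ((fun _ => lam) i)} with hS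
  have hSfin : S.Finite := tupFin 1 T (fun _ => 0) (fun _ => lam)
  have hcard : K ≤ S.ncard := by
    rw [Set.ncard_eq_toFinset_card S hSfin]
    have h7 : (Finset.range K).card ≤ hSfin.toFinset.card := by
      apply Finset.card_le_card_of_injOn (fun k => (![(p k).2, (p k).1] : Fin (1 + 1) → ZetaZeroIdx))
      · intro k hk
        have hk' : k < K := Finset.mem_range.mp (by exact_mod_cast hk)
        obtain ⟨a1, a2, a3, a4, a5, a6⟩ := hp k hk'
        have a7 := hpt k hk'
        simp only [Set.Finite.coe_toFinset]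
        rw [hS]
        refine ⟨?_, ?_, ?_⟩
        · intro x y hxy
          fin_cases x <;> fin_cases y
          · rfl
          · exact absurd hxy.symm a1
          · exact absurd hxy a1
          · rfl
        · intro i
          fin_cases i
          · exact a4.trans a7
          · exact a3.trans a7
        · intro i
          fin_cases i
          refine ⟨?_, a6⟩
          exact mul_nonneg a5 (by positivity)
      · intro k hk l hl hkl
        have hk' : k < K := Finset.mem_range.mp (by exact_mod_cast hk)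
        have hl' : l < K := Finset.mem_range.mp (by exact_mod_cast hl)
        have hkl1 : (p k).1 = (p l).1 := congrFun hkl 1
        obtain ⟨-, a2, a3, -, -, -⟩ := hp k hk'
        obtain ⟨-, c2, c3, -, -, -⟩ := hp l hl'
        rw [hkl1] at a2 a3
        by_contra hne
        rcases lt_or_gt_of_ne hne with hlt | hlt
        · have : (k : ℝ) + 1 ≤ l := by exact_mod_cast hlt
          nlinarith
        · have : (l : ℝ) + 1 ≤ k := by exact_mod_cast hlt
          nlinarith
    simpa using h7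
  have hfin : (K : ℝ) ≤ (tupleCount zetaOrdinate 1 T (fun _ => 0) (fun _ => lam) : ℝ) := by
    have : K ≤ tupleCount zetaOrdinate 1 T (fun _ => 0) (fun _ => lam) := hcard
    exact_mod_cast this
  linarith

end Pool.Agent.MP_67227b_nt.Sg
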