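import Pool.Agent.MP_67227b_nt.Sg.SgC
import Pool.Agent.MP_67227b_nt.Sg.SgZ_a
import Pool.Agent.MP_67227b_nt.Sg.SgZ_b

set_option autoImplicit false

open Filter Topology Set MeasureTheory Complex
open scoped Real

namespace Pool.Agent.MP_67227b_nt.Sg

open Pool.Agent.Lib.ZetaCount_helper33 Pool.Agent.MP_67227b_nt Pool.Agent.MP_67227b_nt.Mo

/-- Under RH, for `lam > 1/2` and `1/lam - 1 < θ < 1`, all intervals `[T, T + T^θ]`, `T` large,
contain two zeros at normalised distance at most `lam`. -/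
theorem local_pairs (hRH : RiemannHypothesis) {lam θ : ℝ} (hlam : 1 / 2 < lam) (hθ0 : 0 < θ)
    (hθ1 : θ < 1) (hθ : 1 / lam - 1 < θ) :
    ∀ᶠ T : ℝ in atTop,
      ∃ j j' : ZetaZeroIdx, j ≠ j' ∧ zetaOrdinate j ∈ Icc T (T + T ^ θ) ∧
        zetaOrdinate j' ∈ Icc T (T + T ^ θ) ∧ 0 ≤ zetaOrdinate j' - zetaOrdinate j ∧
        zetaOrdinate j' - zetaOrdinate j ≤ 2 * π * lam / Real.log T := by
  filter_upwards [not_sep hRH hlam hθ0 hθ1 hθ, eventually_gt_atTop 1] with T hT hT1
  have hL : 0 < Real.log T := Real.log_pos hT1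
  have hπ := Real.pi_pos
  exact exists_pair_of_not_sep (by linarith) (by positivity) hT

/-- The number of pairs. -/
theorem count_pairs (hRH : RiemannHypothesis) {lam η : ℝ} (hlam : 1 / 2 < lam) (hlam1 : lam ≤ 1)
    (hη0 : 0 < η) (hη : η < 2 - 1 / lam) :
    ∀ᶠ T : ℝ in atTop,
      T ^ η ≤ (tupleCount zetaOrdinate 1 T (fun _ => 0) (fun _ => lam) : ℝ) := by
  have hl0 : 0 < lam := by linarith
  have hi1 : 1 ≤ 1 / lam := by
    rw [le_div_iff₀ hl0]
    linarith
  have hη1 : η < 1 := by linarith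
  set x : ℝ := max (1 / 2) (1 / (2 - η)) with hx
  have hx1 : 1 / (2 - η) < lam := by
    rw [div_lt_iff₀ (by linarith)]
    have h1 : 1 / lam < 2 - η := by linarith
    rw [div_lt_iff₀ hl0] at h1
    linarith
  have hxl : x < lam := max_lt hlam hx1
  have hx2 : 1 / 2 ≤ x := le_max_left _ _
  have hx3 : 1 / (2 - η) ≤ x := le_max_right _ _
  set lam' : ℝ := (x + lam) / 2 with hlam'
  have h1 : x < lam' := by rw [hlam']; linarith
  have h2 : lam' < lam := by rw [hlam']; linarith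
  have h3 : 1 / 2 < lam' := by linarith
  have h4 : 1 / (2 - η) < lam' := by linarith
  have h5 : 1 / lam' < 2 - η := by
    rw [div_lt_iff₀ (by linarith)] at h4
    rw [div_lt_iff₀ (by linarith)]
    linarith
  have h6 : 1 < 1 / lam' := by
    rw [lt_div_iff₀ (by linarith)]
    linarith
  set θ : ℝ := ((1 / lam' - 1) + (1 - η)) / 2 with hθ
  have h7 : 1 / lam' - 1 < θ := by rw [hθ]; linarith
  have h8 : θ < 1 - η := by rw [hθ]; linarith
  have h9 : 0 < θ := by linarith
  have h10 : θ < 1 := by linarith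
  exact count_of_local h9 h10 (by linarith) h2 (by linarith) (local_pairs hRH h3 h9 h10 h7)

end Pool.Agent.MP_67227b_nt.Sg
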