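import Pool.Agent.MP_67227b_nt.Mo.Zeros

set_option autoImplicit false

open Filter Topology Set MeasureTheory Complex
open scoped Real

namespace Pool.Agent.MP_67227b_nt.Sg

open Pool.Agent.Lib.ZetaCount_helper33 Pool.Agent.MP_67227b_nt Pool.Agent.MP_67227b_nt.Mo

/-- The point `σ + i t`. -/
noncomputable def pl (σ t : ℝ) : ℂ := (σ : ℂ) + (t : ℂ) * I

lemma pl_re (σ t : ℝ) : (pl σ t).re = σ := by simp [pl]

lemma pl_im (σ t : ℝ) : (pl σ t).im = t := by simp [pl]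

/-- The zeros with ordinate in `J` are simple and their mutual distances exceed `a`. -/
def Sep (J : Set ℝ) (a : ℝ) : Prop :=
  (∀ z : Zer, ord z ∈ J → mu z = 1) ∧
    ∀ z z' : Zer, ord z ∈ J → ord z' ∈ J → z ≠ z' → a < |ord z - ord z'|

/-- The quotient `ζ(s + iα) / ζ(s)`. -/
noncomputable def Hq (α : ℝ) (s : ℂ) : ℂ := riemannZeta (s + (α : ℂ) * I) / riemannZeta s

/-- The Dirichlet polynomial `∑_{1 ≤ n ≤ N} μ(n) n^{-s}`. -/
noncomputable def AN (N : ℕ) (s : ℂ) : ℂ :=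
  ∑ n ∈ Finset.Icc 1 N, ((ArithmeticFunction.moebius n : ℤ) : ℂ) * (n : ℂ) ^ (-s)

/-- The Gaussian window, centred at `1/2 + b + i t₀`, of width `Δ`. -/
noncomputable def Wg (Δ b t₀ : ℝ) (s : ℂ) : ℂ :=
  Complex.exp (((s - pl (1 / 2 + b) t₀) / (Δ : ℂ)) ^ 2)

/-- The integrand. -/
noncomputable def Ph (α b t₀ Δ : ℝ) (N : ℕ) (s : ℂ) : ℂ :=
  Hq α s * AN N (s + (α : ℂ) * I) * AN N (1 + 2 * (b : ℂ) - s - (α : ℂ) * I) * Wg Δ b t₀ s

/-- The diagonal sum. -/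
noncomputable def Sd (α b : ℝ) (N : ℕ) : ℂ :=
  ∑ m ∈ Finset.Icc 1 N, (((ArithmeticFunction.moebius m : ℤ) : ℂ)) ^ 2 *
    (m : ℂ) ^ (-(1 + 2 * (b : ℂ)) + (α : ℂ) * I)

end Pool.Agent.MP_67227b_nt.Sg
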