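import Pool.Agent.MP_67227b_nt.Sg.SgM_a

set_option autoImplicit false
set_option linter.unusedVariables false

open Filter Topology Set MeasureTheory Complex
open scoped Real

namespace Pool.Agent.MP_67227b_nt.Sg

open Pool.Agent.Lib.ZetaCount_helper33 Pool.Agent.MP_67227b_nt Pool.Agent.MP_67227b_nt.Mo

namespace M21

/-- The imaginary part of one term. -/
lemma term_im (ψ u β L : ℝ) (m : ℕ) (hm : 1 ≤ m) :
    (Complex.exp (I * ψ) * ((((ArithmeticFunction.moebius m : ℤ) : ℂ)) ^ 2 *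
      (m : ℂ) ^ (-(1 + 2 * ((β / L : ℝ) : ℂ)) + ((2 * π * u / L : ℝ) : ℂ) * I))).im =
      ((ArithmeticFunction.moebius m : ℤ) : ℝ) ^ 2 / m *
        (Real.exp (-(2 * β * (Real.log m / L))) *
          Real.sin (ψ + 2 * π * u * (Real.log m / L))) := by
  have hmpos : (0 : ℝ) < m := by exact_mod_cast hm
  have hm0 : (m : ℂ) ≠ 0 := by exact_mod_cast hmpos.ne'
  rw [Complex.cpow_def_of_ne_zero hm0, ← Complex.natCast_log]
  have h1 : Complex.exp (I * ψ) * ((((ArithmeticFunction.moebius m : ℤ) : ℂ)) ^ 2 *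
      Complex.exp ((Real.log m : ℂ) * (-(1 + 2 * ((β / L : ℝ) : ℂ)) +
        ((2 * π * u / L : ℝ) : ℂ) * I))) =
      (((((ArithmeticFunction.moebius m : ℤ) : ℝ) ^ 2 : ℝ)) : ℂ) *
      Complex.exp (((-(Real.log m) - 2 * β * (Real.log m / L) : ℝ) : ℂ) +
        ((ψ + 2 * π * u * (Real.log m / L) : ℝ) : ℂ) * I) := by
    rw [mul_left_comm, ← Complex.exp_add]
    push_cast
    congr 2
    ring
  have hre : (((-(Real.log m) - 2 * β * (Real.log m / L) : ℝ) : ℂ) +
        ((ψ + 2 * π * u * (Real.log m / L) : ℝ) : ℂ) * I).re =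
        -(Real.log m) - 2 * β * (Real.log m / L) := by
    rw [Complex.add_re, Complex.ofReal_re, Complex.re_ofReal_mul, Complex.I_re, mul_zero, add_zero]
  have him : (((-(Real.log m) - 2 * β * (Real.log m / L) : ℝ) : ℂ) +
        ((ψ + 2 * π * u * (Real.log m / L) : ℝ) : ℂ) * I).im =
        ψ + 2 * π * u * (Real.log m / L) := by
    rw [Complex.add_im, Complex.ofReal_im, Complex.im_ofReal_mul, Complex.I_im, mul_one, zero_add]
  rw [h1, Complex.im_ofReal_mul, Complex.exp_im, hre, him]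
  have h2 : Real.exp (-(Real.log m) - 2 * β * (Real.log m / L)) =
      (1 / (m : ℝ)) * Real.exp (-(2 * β * (Real.log m / L))) := by
    rw [sub_eq_add_neg, Real.exp_add, Real.exp_neg, Real.exp_log hmpos, one_div]
  rw [h2]
  ring

lemma exp_lip {a x y : ℝ} (ha : 0 ≤ a) (hx : 0 ≤ x) (hxy : x ≤ y) :
    |Real.exp (-(a * x)) - Real.exp (-(a * y))| ≤ a * (y - x) := by
  have h1 : Real.exp (-(a * y)) ≤ Real.exp (-(a * x)) :=
    Real.exp_le_exp.mpr (by nlinarith)
  rw [abs_of_nonneg (by linarith)]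
  have h2 : Real.exp (-(a * y)) = Real.exp (-(a * x)) * Real.exp (-(a * (y - x))) := by
    rw [← Real.exp_add]; congr 1; ring
  have h3 : 1 - a * (y - x) ≤ Real.exp (-(a * (y - x))) := by
    have := Real.add_one_le_exp (-(a * (y - x)))
    linarith
  have h4 : Real.exp (-(a * x)) ≤ 1 := Real.exp_le_one_iff.mpr (by nlinarith [mul_nonneg ha hx])
  have h5 : 0 < Real.exp (-(a * x)) := Real.exp_pos _
  have h6 : 0 ≤ a * (y - x) := mul_nonneg ha (by linarith)
  calc Real.exp (-(a * x)) - Real.exp (-(a * y)) =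
      Real.exp (-(a * x)) * (1 - Real.exp (-(a * (y - x)))) := by rw [h2]; ring
    _ ≤ Real.exp (-(a * x)) * (a * (y - x)) := mul_le_mul_of_nonneg_left (by linarith) h5.le
    _ ≤ 1 * (a * (y - x)) := mul_le_mul_of_nonneg_right h4 h6
    _ = _ := one_mul _

/-- The function. -/
noncomputable def ff (u β : ℝ) (x : ℝ) : ℝ :=
  Real.exp (-(2 * β * x)) * Real.sin (π * u + 2 * π * u * x)

lemma ff_abs (u β : ℝ) (hβ : 0 ≤ β) (x : ℝ) (hx : 0 ≤ x) : |ff u β x| ≤ 1 := by
  unfold ff
  rw [abs_mul, abs_of_pos (Real.exp_pos _)]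
  have h1 : Real.exp (-(2 * β * x)) ≤ 1 := Real.exp_le_one_iff.mpr (by nlinarith [mul_nonneg hβ hx])
  calc _ ≤ 1 * 1 := mul_le_mul h1 (Real.abs_sin_le_one _) (abs_nonneg _) zero_le_one
    _ = 1 := one_mul 1

lemma sin_lip (a b : ℝ) : |Real.sin a - Real.sin b| ≤ |a - b| := Real.abs_sin_sub_sin_le _ _

lemma ff_lip (u β : ℝ) (hu : 0 ≤ u) (hβ : 0 ≤ β) (x y : ℝ) (hx : 0 ≤ x) (hxy : x ≤ y) :
    |ff u β x - ff u β y| ≤ (2 * β + 2 * π * u) * (y - x) := by
  unfold ff
  have hpi := Real.pi_pos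
  have h1 := exp_lip (a := 2 * β) (by linarith) hx hxy
  have h2 : |Real.sin (π * u + 2 * π * u * x) - Real.sin (π * u + 2 * π * u * y)| ≤
      2 * π * u * (y - x) := by
    refine (sin_lip _ _).trans ?_
    have : π * u + 2 * π * u * x - (π * u + 2 * π * u * y) = -(2 * π * u * (y - x)) := by ring
    rw [this, abs_neg, abs_of_nonneg]
    apply mul_nonneg (by positivity) (by linarith)
  have h3 : Real.exp (-(2 * β * y)) ≤ 1 :=
    Real.exp_le_one_iff.mpr (by nlinarith [mul_nonneg hβ (hx.trans hxy)])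
  have key : Real.exp (-(2 * β * x)) * Real.sin (π * u + 2 * π * u * x) -
      Real.exp (-(2 * β * y)) * Real.sin (π * u + 2 * π * u * y) =
      (Real.exp (-(2 * β * x)) - Real.exp (-(2 * β * y))) * Real.sin (π * u + 2 * π * u * x) +
      Real.exp (-(2 * β * y)) *
        (Real.sin (π * u + 2 * π * u * x) - Real.sin (π * u + 2 * π * u * y)) := by ring
  rw [key]
  refine (abs_add_le _ _).trans ?_
  rw [abs_mul, abs_mul, abs_of_pos (Real.exp_pos _)]
  have h4 : |Real.exp (-(2 * β * x)) - Real.exp (-(2 * β * y))| *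
      |Real.sin (π * u + 2 * π * u * x)| ≤ 2 * β * (y - x) * 1 :=
    mul_le_mul h1 (Real.abs_sin_le_one _) (abs_nonneg _) ((abs_nonneg _).trans h1)
  have h5 : Real.exp (-(2 * β * y)) *
      |Real.sin (π * u + 2 * π * u * x) - Real.sin (π * u + 2 * π * u * y)| ≤
      1 * (2 * π * u * (y - x)) :=
    mul_le_mul h3 h2 (abs_nonneg _) zero_le_one
  linarith

lemma ff_cont (u β : ℝ) : Continuous (ff u β) := by
  unfold ff
  fun_prop

lemma int_sin (u κ : ℝ) (hu : 0 < u) :
    ∫ x in (0 : ℝ)..κ, Real.sin (π * u + 2 * π * u * x) =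
      Real.sin (π * u * (1 + κ)) * Real.sin (π * u * κ) / (π * u) := by
  have hpi := Real.pi_pos
  have h1 : ∀ x ∈ uIcc (0 : ℝ) κ, HasDerivAt
      (fun x => -Real.cos (π * u + 2 * π * u * x) / (2 * π * u))
      (Real.sin (π * u + 2 * π * u * x)) x := by
    intro x _
    have h2 : HasDerivAt (fun x : ℝ => π * u + 2 * π * u * x) (2 * π * u) x := by
      have := ((hasDerivAt_id x).const_mul (2 * π * u)).const_add (π * u)
      simpa using this
    have h3 := (h2.cos.neg).div_const (2 * π * u)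
    have h9 : -(-Real.sin (π * u + 2 * π * u * x) * (2 * π * u)) / (2 * π * u) =
        Real.sin (π * u + 2 * π * u * x) := by
      have : (2 * π * u) ≠ 0 := by positivity
      rw [neg_mul, neg_neg, mul_div_assoc, div_self this, mul_one]
    rw [← h9]
    exact h3
  rw [intervalIntegral.integral_eq_sub_of_hasDerivAt h1
    ((by fun_prop : Continuous fun x => Real.sin (π * u + 2 * π * u * x)).intervalIntegrable _ _)]
  have h4 := Real.cos_sub_cos (π * u + 2 * π * u * 0) (π * u + 2 * π * u * κ)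
  have h5 : (π * u + 2 * π * u * 0 + (π * u + 2 * π * u * κ)) / 2 = π * u * (1 + κ) := by ring
  have h6 : (π * u + 2 * π * u * 0 - (π * u + 2 * π * u * κ)) / 2 = -(π * u * κ) := by ring
  rw [h5, h6, Real.sin_neg] at h4
  have h7 : -Real.cos (π * u + 2 * π * u * κ) / (2 * π * u) -
      -Real.cos (π * u + 2 * π * u * 0) / (2 * π * u) =
      (Real.cos (π * u + 2 * π * u * 0) - Real.cos (π * u + 2 * π * u * κ)) / (2 * π * u) := by ring
  rw [h7, h4]
  field_simp

end M21

open M21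

/-- MODULE SG11. The diagonal sum is negative. -/
theorem sum_neg {u κ : ℝ} (hu : 1 / 2 < u) (hu1 : u < 1) (hκ : 0 < κ) (hκ1 : κ < 1)
    (h : 1 < u * (1 + κ)) : ∃ β c : ℝ, 0 < β ∧ 0 < c ∧ ∀ C : ℝ, ∀ᶠ T : ℝ in atTop, ∀ ψ : ℝ,
      |ψ - π * u| ≤ C / Real.log T →
        (Complex.exp (I * ψ) * Sd (2 * π * u / Real.log T) (β / Real.log T) ⌊T ^ κ⌋₊).im ≤
          -c * Real.log T := by
  have hpi := Real.pi_pos
  have hu0 : 0 < u := by linarith
  set c0 := ∑' d : ℕ, ((ArithmeticFunction.moebius d : ℤ) : ℝ) / (d : ℝ) ^ 2 with hc0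
  have hc0pos : 0 < c0 := const_pos
  set J := Real.sin (π * u * (1 + κ)) * Real.sin (π * u * κ) / (π * u) with hJ
  have hJneg : J < 0 := by
    have h1 : Real.sin (π * u * (1 + κ)) < 0 := by
      have h2 : Real.sin (π * u * (1 + κ)) = -Real.sin (π * u * (1 + κ) - π) := by
        rw [Real.sin_sub_pi, neg_neg]
      rw [h2, neg_neg_iff_pos]
      apply Real.sin_pos_of_pos_of_lt_pi
      · nlinarith
      · have : u * (1 + κ) < 2 := by nlinarith
        nlinarith
    have h3 : 0 < Real.sin (π * u * κ) := by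
      apply Real.sin_pos_of_pos_of_lt_pi (by positivity)
      have : u * κ < 1 := by nlinarith
      nlinarith
    rw [hJ]
    apply div_neg_of_neg_of_pos _ (by positivity)
    exact mul_neg_of_neg_of_pos h1 h3
  obtain ⟨β, hβpos, hβ⟩ : ∃ β : ℝ, 0 < β ∧ 2 * β ≤ -J / 2 := ⟨-J / 4, by linarith, by linarith⟩
  have hint : (∫ x in (0 : ℝ)..κ, ff u β x) ≤ J / 2 := by
    have h1 : (∫ x in (0 : ℝ)..κ, ff u β x) ≤
        ∫ x in (0 : ℝ)..κ, (Real.sin (π * u + 2 * π * u * x) + 2 * β) := by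
      apply intervalIntegral.integral_mono_on hκ.le ((ff_cont u β).intervalIntegrable _ _)
        ((by fun_prop : Continuous fun x =>
          Real.sin (π * u + 2 * π * u * x) + 2 * β).intervalIntegrable _ _)
      intro x hx
      unfold ff
      have h2 : 1 - 2 * β * x ≤ Real.exp (-(2 * β * x)) := by
        have := Real.add_one_le_exp (-(2 * β * x))
        linarith
      have h3 : Real.exp (-(2 * β * x)) ≤ 1 :=
        Real.exp_le_one_iff.mpr (by nlinarith [mul_nonneg hβpos.le hx.1])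
      have h4 : |(1 - Real.exp (-(2 * β * x))) * Real.sin (π * u + 2 * π * u * x)| ≤ 2 * β := by
        rw [abs_mul, abs_of_nonneg (by linarith)]
        have hx1 : x ≤ 1 := hx.2.trans hκ1.le
        calc _ ≤ (2 * β) * 1 := by
              apply mul_le_mul _ (Real.abs_sin_le_one _) (abs_nonneg _) (by linarith)
              nlinarith
          _ = _ := mul_one _
      have h5 := (abs_le.mp h4).1
      linarith
    have h6 : ∫ x in (0 : ℝ)..κ, (Real.sin (π * u + 2 * π * u * x) + 2 * β) = J + 2 * β * κ := by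
      rw [intervalIntegral.integral_add
        ((by fun_prop : Continuous fun x => Real.sin (π * u + 2 * π * u * x)).intervalIntegrable _ _)
        (by simp), int_sin u κ hu0, intervalIntegral.integral_const]
      simp
      ring
    rw [h6] at h1
    nlinarith
  obtain ⟨C1, hC1, hsq⟩ := sum_sqf κ hκ hκ1 (1 + 2 * β + 2 * π * u)
  refine ⟨β, -(c0 * J) / 4, hβpos, by nlinarith, ?_⟩
  intro C
  obtain ⟨C2, hC2, hsq2⟩ := sum_sqf κ hκ hκ1 1
  -- the sum of `μ²(m)/m`
  have hlarge : ∀ᶠ T : ℝ in atTop, C1 + |C| * (c0 + C2) + 1 ≤ (-(c0 * J) / 4) * Real.log T := by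
    have h1 : Tendsto (fun T : ℝ => (-(c0 * J) / 4) * Real.log T) atTop atTop :=
      Real.tendsto_log_atTop.const_mul_atTop (by nlinarith)
    exact h1.eventually_ge_atTop _
  filter_upwards [hsq, hsq2, hlarge, eventually_ge_atTop (Real.exp 1)] with T hT1 hT2 hT3 hT ψ hψ
  have hTpos : 0 < T := (Real.exp_pos 1).trans_le hT
  have hL1 : 1 ≤ Real.log T := by
    rw [Real.le_log_iff_exp_le hTpos]
    exact hT
  set L := Real.log T with hL
  have hLpos : 0 < L := by linarith
  have h1 := hT1 (ff u β) (fun x hx => (ff_abs u β hβpos.le x hx.1).trans (by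
      have : 0 ≤ π * u := by positivity
      linarith)) (by
    intro x hx y hy
    rcases le_total x y with hxy | hxy
    · refine (ff_lip u β hu0.le hβpos.le x y hx.1 hxy).trans ?_
      rw [abs_of_nonpos (by linarith : x - y ≤ 0)]
      have : 0 ≤ y - x := by linarith
      nlinarith
    · rw [abs_sub_comm]
      refine (ff_lip u β hu0.le hβpos.le y x hy.1 hxy).trans ?_
      rw [abs_of_nonneg (by linarith : 0 ≤ x - y)]
      have : 0 ≤ x - y := by linarith
      nlinarith)
  have h2 := hT2 (fun _ => 1) (fun x _ => by simp) (fun x _ y _ => by simp)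
  simp only [mul_one, intervalIntegral.integral_const, sub_zero, smul_eq_mul] at h2
  set S2 := ∑ m ∈ Finset.Icc 1 ⌊T ^ κ⌋₊, ((ArithmeticFunction.moebius m : ℤ) : ℝ) ^ 2 / m with hS2
  have hS2le : S2 ≤ (c0 + C2) * L := by
    have h3 := (abs_le.mp h2).2
    have h4 : c0 * (L * κ) ≤ c0 * L := by
      apply mul_le_mul_of_nonneg_left _ hc0pos.le
      nlinarith
    have h5 : C2 ≤ C2 * L := by nlinarith
    nlinarith
  have him : (Complex.exp (I * ψ) * Sd (2 * π * u / L) (β / L) ⌊T ^ κ⌋₊).im =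
      ∑ m ∈ Finset.Icc 1 ⌊T ^ κ⌋₊, ((ArithmeticFunction.moebius m : ℤ) : ℝ) ^ 2 / m *
        (Real.exp (-(2 * β * (Real.log m / L))) *
          Real.sin (ψ + 2 * π * u * (Real.log m / L))) := by
    unfold Sd
    rw [Finset.mul_sum, Complex.im_sum]
    apply Finset.sum_congr rfl
    intro m hm
    rw [Finset.mem_Icc] at hm
    exact term_im ψ u β L m hm.1
  rw [him]
  have hcmp : ∑ m ∈ Finset.Icc 1 ⌊T ^ κ⌋₊, ((ArithmeticFunction.moebius m : ℤ) : ℝ) ^ 2 / m *
        (Real.exp (-(2 * β * (Real.log m / L))) *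
          Real.sin (ψ + 2 * π * u * (Real.log m / L))) ≤
      ∑ m ∈ Finset.Icc 1 ⌊T ^ κ⌋₊, (((ArithmeticFunction.moebius m : ℤ) : ℝ) ^ 2 / m *
        ff u β (Real.log m / L) +
        ((ArithmeticFunction.moebius m : ℤ) : ℝ) ^ 2 / m * (|C| / L)) := by
    apply Finset.sum_le_sum
    intro m hm
    rw [Finset.mem_Icc] at hm
    have hmpos : (0 : ℝ) < m := by exact_mod_cast hm.1
    have hlm : 0 ≤ Real.log m / L := div_nonneg (Real.log_nonneg (by exact_mod_cast hm.1)) hLpos.le
    rw [← mul_add]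
    apply mul_le_mul_of_nonneg_left _ (by positivity)
    unfold ff
    set x := Real.log m / L with hx
    have h3 : Real.sin (ψ + 2 * π * u * x) ≤ Real.sin (π * u + 2 * π * u * x) + |C| / L := by
      have h4 := sin_lip (ψ + 2 * π * u * x) (π * u + 2 * π * u * x)
      have h5 : ψ + 2 * π * u * x - (π * u + 2 * π * u * x) = ψ - π * u := by ring
      rw [h5] at h4
      have h6 := (abs_le.mp h4).2
      have h7 : C / L ≤ |C| / L := div_le_div_of_nonneg_right (le_abs_self C) hLpos.le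
      linarith
    have h8 : Real.exp (-(2 * β * x)) ≤ 1 :=
      Real.exp_le_one_iff.mpr (by nlinarith [mul_nonneg hβpos.le hlm])
    have h9 : 0 < Real.exp (-(2 * β * x)) := Real.exp_pos _
    have h10 : 0 ≤ |C| / L := by positivity
    calc Real.exp (-(2 * β * x)) * Real.sin (ψ + 2 * π * u * x) ≤
        Real.exp (-(2 * β * x)) * (Real.sin (π * u + 2 * π * u * x) + |C| / L) :=
          mul_le_mul_of_nonneg_left h3 h9.le
      _ = Real.exp (-(2 * β * x)) * Real.sin (π * u + 2 * π * u * x) +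
          Real.exp (-(2 * β * x)) * (|C| / L) := by ring
      _ ≤ _ := by
          have := mul_le_mul_of_nonneg_right h8 h10
          linarith
  refine hcmp.trans ?_
  rw [Finset.sum_add_distrib, ← Finset.sum_mul]
  have h3 := (abs_le.mp h1).2
  have h4 : S2 * (|C| / L) ≤ |C| * (c0 + C2) := by
    have h5 : 0 ≤ |C| / L := by positivity
    calc S2 * (|C| / L) ≤ (c0 + C2) * L * (|C| / L) := mul_le_mul_of_nonneg_right hS2le h5
      _ = |C| * (c0 + C2) := by field_simp
  have h6 : c0 * (L * ∫ x in (0 : ℝ)..κ, ff u β x) ≤ c0 * (L * (J / 2)) :=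
    mul_le_mul_of_nonneg_left (mul_le_mul_of_nonneg_left hint hLpos.le) hc0pos.le
  have h7 : c0 * (L * (J / 2)) = 2 * (-(-(c0 * J) / 4) * L) := by ring
  linarith

end Pool.Agent.MP_67227b_nt.Sg
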