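import Pool.Agent.MP_67227b_nt.Sg.SgDefs

set_option autoImplicit false

open Filter Topology Set MeasureTheory Complex
open scoped Real

namespace Pool.Agent.MP_67227b_nt.Sg

open Pool.Agent.Lib.ZetaCount_helper33 Pool.Agent.MP_67227b_nt Pool.Agent.MP_67227b_nt.Mo

private lemma aa_half_re {s : ℂ} (hs : 0 < s.re) : 0 < (s / 2).re := by
  have : (s / 2).re = s.re / 2 := by simp
  rw [this]
  linarith

private lemma aa_im_le_norm {σ t : ℝ} : |t| ≤ ‖pl σ t‖ := by
  have := abs_im_le_norm (pl σ t)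
  rwa [pl_im] at this

/-- MODULE SG4a. The archimedean factor, main term. -/
theorem archF_near : ∃ C : ℝ, 0 < C ∧ ∀ σ t : ℝ, 1 / 2 < σ → σ ≤ 2 → 2 ≤ t →
    ‖archF (pl σ t) - ((Real.log t / 2 : ℝ) : ℂ)‖ ≤ C := by
  refine ⟨100, by norm_num, fun σ t hσ hσ2 ht => ?_⟩
  have ht0 : 0 < t := by linarith
  have h1 : ((pl σ t) / 2).re = σ / 2 := by
    simp [pl]
  have h2 : ((pl σ t) / 2).im = t / 2 := by
    simp [pl]
  have h3 := digamma_bound (s := pl σ t / 2) (by rw [h1]; linarith) (by rw [h1]; linarith)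
    (by rw [h2, abs_of_nonneg (by linarith)]; linarith)
  rw [h2, abs_of_nonneg (by linarith : (0 : ℝ) ≤ t / 2)] at h3
  have e1 : archF (pl σ t) - ((Real.log t / 2 : ℝ) : ℂ) =
      (pl σ t)⁻¹ + (pl σ t - 1)⁻¹ + (digamma (pl σ t / 2) - Real.log (t / 2)) / 2 +
      (((Real.log (t / 2) - Real.log t - Real.log Real.pi) / 2 : ℝ) : ℂ) := by
    unfold archF
    push_cast
    ring
  rw [e1]
  have n1 : ‖(pl σ t)⁻¹‖ ≤ 1 := by
    rw [norm_inv]
    apply inv_le_one_of_one_le₀
    have := aa_im_le_norm (σ := σ) (t := t)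
    rw [abs_of_nonneg ht0.le] at this
    linarith
  have n2 : ‖(pl σ t - 1)⁻¹‖ ≤ 1 := by
    rw [norm_inv]
    apply inv_le_one_of_one_le₀
    have h4 := abs_im_le_norm (pl σ t - 1)
    have h5 : (pl σ t - 1).im = t := by simp [pl]
    rw [h5, abs_of_nonneg ht0.le] at h4
    linarith
  have n3 : ‖(digamma (pl σ t / 2) - Real.log (t / 2)) / 2‖ ≤ 91 := by
    rw [norm_div, norm_ofNat]
    have h5 : ‖digamma (pl σ t / 2) - Real.log (t / 2)‖ ≤ 181 := h3
    linarith
  have n4 : ‖(((Real.log (t / 2) - Real.log t - Real.log Real.pi) / 2 : ℝ) : ℂ)‖ ≤ 4 := by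
    rw [norm_real, Real.norm_eq_abs, Real.log_div ht0.ne' (by norm_num)]
    have l3 : 0 ≤ Real.log Real.pi := Real.log_nonneg (by linarith [Real.pi_gt_three])
    have l4 : Real.log Real.pi ≤ 3 := by
      have := Real.log_le_sub_one_of_pos Real.pi_pos
      linarith [Real.pi_lt_four]
    have l5 : 0 ≤ Real.log 2 := Real.log_nonneg (by norm_num)
    have l6 : Real.log 2 ≤ 1 := by
      have := Real.log_le_sub_one_of_pos (show (0 : ℝ) < 2 by norm_num)
      linarith
    rw [abs_le]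
    constructor <;> linarith
  calc _ ≤ ‖(pl σ t)⁻¹ + (pl σ t - 1)⁻¹ + (digamma (pl σ t / 2) - Real.log (t / 2)) / 2‖ + 4 :=
        (norm_add_le _ _).trans (by gcongr)
    _ ≤ (‖(pl σ t)⁻¹ + (pl σ t - 1)⁻¹‖ + 91) + 4 := by
        gcongr
        exact (norm_add_le _ _).trans (by gcongr)
    _ ≤ ((1 + 1) + 91) + 4 := by
        gcongr
        exact (norm_add_le _ _).trans (by gcongr)
    _ ≤ 100 := by norm_num

private lemma aa_deriv {σ t : ℝ} (hσ : 1 / 2 < σ) (ht : 2 ≤ t) :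
    DifferentiableAt ℂ archF (pl σ t) ∧ ‖deriv archF (pl σ t)‖ ≤ 4 / t := by
  have hs : 0 < (pl σ t).re := by rw [pl_re]; linarith
  have hti : (pl σ t).im = t := pl_im σ t
  set s := pl σ t with hsd
  have ht0 : 0 < t := by linarith
  have h0 : s ≠ 0 := by
    intro h
    rw [h] at hs
    simp at hs
  have h1 : s - 1 ≠ 0 := by
    intro h
    have := congrArg Complex.im h
    simp at this
    linarith
  have h2 := analyticAt_Gamma (aa_half_re hs)
  have h3 : AnalyticAt ℂ digamma (s / 2) :=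
    h2.deriv.div h2 (Gamma_ne_zero_of_re_pos (aa_half_re hs))
  have d1 : HasDerivAt (fun s : ℂ => s⁻¹) (-(s ^ 2)⁻¹) s := hasDerivAt_inv h0
  have d2 : HasDerivAt (fun s : ℂ => (s - 1)⁻¹) (-1 / (s - 1) ^ 2) s :=
    ((hasDerivAt_id s).sub_const 1).inv h1
  have d3 : HasDerivAt (fun s : ℂ => digamma (s / 2)) (deriv digamma (s / 2) * (1 / 2)) s :=
    h3.differentiableAt.hasDerivAt.comp s ((hasDerivAt_id s).div_const 2)
  have d4 : HasDerivAt archF (-(s ^ 2)⁻¹ + -1 / (s - 1) ^ 2 + deriv digamma (s / 2) * (1 / 2) / 2)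
      s := by
    have := ((d1.add d2).sub_const ((Real.log Real.pi : ℂ) / 2)).add (d3.div_const 2)
    exact this
  refine ⟨d4.differentiableAt, ?_⟩
  rw [d4.deriv]
  have i1 : (s / 2).im = t / 2 := by simp [hti]
  have b1 : ‖-(s ^ 2)⁻¹‖ ≤ 1 / (2 * t) := by
    rw [norm_neg, norm_inv, norm_pow, ← one_div]
    apply one_div_le_one_div_of_le (by positivity)
    have := aa_im_le_norm (σ := σ) (t := t)
    rw [← hsd, abs_of_nonneg ht0.le] at this
    nlinarith
  have b2 : ‖-1 / (s - 1) ^ 2‖ ≤ 1 / (2 * t) := by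
    rw [norm_div, norm_neg, norm_one, norm_pow]
    apply one_div_le_one_div_of_le (by positivity)
    have h4 := abs_im_le_norm (s - 1)
    have h5 : (s - 1).im = t := by simp [hti]
    rw [h5, abs_of_nonneg ht0.le] at h4
    nlinarith
  have b3 : ‖deriv digamma (s / 2) * (1 / 2) / 2‖ ≤ 2 / t := by
    have h4 := deriv_digamma_bound (aa_half_re hs) (by
      rw [i1, abs_of_nonneg (by linarith : (0 : ℝ) ≤ t / 2)]
      linarith)
    rw [i1, abs_of_nonneg (by linarith : (0 : ℝ) ≤ t / 2)] at h4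
    rw [norm_div, norm_mul, norm_div, norm_one, norm_ofNat]
    have h5 : 4 / (t / 2) = 8 / t := by field_simp; norm_num
    rw [h5] at h4
    have h6 : (2 : ℝ) / t = 8 / t * (1 / 2) / 2 := by ring
    rw [h6]
    gcongr
  calc _ ≤ (‖-(s ^ 2)⁻¹‖ + ‖-1 / (s - 1) ^ 2‖) + ‖deriv digamma (s / 2) * (1 / 2) / 2‖ :=
        (norm_add_le _ _).trans (by gcongr; exact norm_add_le _ _)
    _ ≤ (1 / (2 * t) + 1 / (2 * t)) + 2 / t := by gcongr
    _ = 3 / t := by
        field_simp
        norm_num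
    _ ≤ 4 / t := by gcongr; norm_num

/-- MODULE SG4b. The archimedean factor, variation. -/
theorem archF_lip : ∃ C : ℝ, 0 < C ∧ ∀ σ T t t' : ℝ, 1 / 2 < σ → σ ≤ 2 → 8 ≤ T →
    T / 2 ≤ t → T / 2 ≤ t' → ‖archF (pl σ t) - archF (pl σ t')‖ ≤ C * |t - t'| / T := by
  refine ⟨8, by norm_num, fun σ T t t' hσ hσ2 hT ht ht' => ?_⟩
  have hline : ∀ u ∈ segment ℝ t' t, T / 2 ≤ u := by
    intro u hu
    rw [segment_eq_uIcc, mem_uIcc] at hu
    rcases hu with h | h <;> linarith [h.1, h.2]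
  have h3 := (convex_segment t' t).norm_image_sub_le_of_norm_hasDerivWithin_le
    (f := fun u : ℝ => archF (pl σ u)) (f' := fun u => deriv archF (pl σ u) * I)
    (C := 8 / T) (fun u hu => by
      have h4 : HasDerivAt archF (deriv archF (pl σ u)) (pl σ u) :=
        (aa_deriv hσ (by linarith [hline u hu])).1.hasDerivAt
      have h5 : HasDerivAt (pl σ) I u := by
        have h6 : HasDerivAt (fun t : ℝ => (σ : ℂ) + (t : ℂ) * I) (1 * I) u :=
          ((hasDerivAt_id u).ofReal_comp.mul_const I).const_add _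
        rw [one_mul] at h6
        exact h6
      exact (h4.comp u h5).hasDerivWithinAt) (fun u hu => by
      have h4 := hline u hu
      rw [norm_mul, norm_I, mul_one]
      refine (aa_deriv hσ (by linarith)).2.trans ?_
      rw [div_le_div_iff₀ (by linarith) (by linarith)]
      linarith) (left_mem_segment ℝ t' t) (right_mem_segment ℝ t' t)
  rw [Real.norm_eq_abs] at h3
  calc ‖archF (pl σ t) - archF (pl σ t')‖ ≤ 8 / T * |t - t'| := h3
    _ = 8 * |t - t'| / T := by ring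

end Pool.Agent.MP_67227b_nt.Sg
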