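import Pool.Agent.MP_67227b_nt.Sg.SgDefs

set_option autoImplicit false

open Filter Topology Set MeasureTheory Complex
open scoped Real

namespace Pool.Agent.MP_67227b_nt.Sg

open Pool.Agent.Lib.ZetaCount_helper33 Pool.Agent.MP_67227b_nt Pool.Agent.MP_67227b_nt.Mo

private lemma SG13_conj (N : ℕ) (z : ℂ) :
    AN N ((starRingEnd ℂ) z) = (starRingEnd ℂ) (AN N z) := by
  unfold AN
  rw [map_sum]
  refine Finset.sum_congr rfl fun n hn => ?_
  rw [map_mul]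
  congr 1
  · simp
  · have h1 : ((n : ℂ)).arg ≠ π := by
      rw [Complex.natCast_arg]
      exact Real.pi_pos.ne
    rw [← map_neg, Complex.cpow_conj _ _ h1]
    simp

/-- MODULE SG13. Positivity of the integrand on the left line. -/
theorem Ph_left {α b t₀ Δ t ψ : ℝ} {N : ℕ} (hΔ : 0 < Δ)
    (h : 0 ≤ (Complex.exp (I * ψ) * Hq α (pl (1 / 2 + b) t)).im) :
    0 ≤ (Complex.exp (I * ψ) * Ph α b t₀ Δ N (pl (1 / 2 + b) t)).im := by
  have e1 : 1 + 2 * (b : ℂ) - pl (1 / 2 + b) t - (α : ℂ) * I =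
      (starRingEnd ℂ) (pl (1 / 2 + b) t + (α : ℂ) * I) := by
    simp only [pl, map_add, map_mul, Complex.conj_ofReal, Complex.conj_I]
    push_cast
    ring
  have e2 : AN N (pl (1 / 2 + b) t + (α : ℂ) * I) *
      AN N (1 + 2 * (b : ℂ) - pl (1 / 2 + b) t - (α : ℂ) * I) =
      ((Complex.normSq (AN N (pl (1 / 2 + b) t + (α : ℂ) * I)) : ℝ) : ℂ) := by
    rw [e1, SG13_conj, Complex.mul_conj]
  have e3 : Wg Δ b t₀ (pl (1 / 2 + b) t) =
      ((Real.exp (-((t - t₀) / Δ) ^ 2) : ℝ) : ℂ) := by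
    have e4 : ((pl (1 / 2 + b) t - pl (1 / 2 + b) t₀) / (Δ : ℂ)) ^ 2 =
        ((-((t - t₀) / Δ) ^ 2 : ℝ) : ℂ) := by
      simp only [pl]
      push_cast
      have : (1 / 2 + (b : ℂ) + (t : ℂ) * I - (1 / 2 + (b : ℂ) + (t₀ : ℂ) * I)) / (Δ : ℂ) =
          (((t : ℂ) - t₀) / Δ) * I := by ring
      rw [this, mul_pow, Complex.I_sq]
      ring
    unfold Wg
    rw [e4, Complex.ofReal_exp]
  have e5 : Complex.exp (I * ψ) * Ph α b t₀ Δ N (pl (1 / 2 + b) t) =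
      (((Complex.normSq (AN N (pl (1 / 2 + b) t + (α : ℂ) * I)) *
        Real.exp (-((t - t₀) / Δ) ^ 2) : ℝ)) : ℂ) *
        (Complex.exp (I * ψ) * Hq α (pl (1 / 2 + b) t)) := by
    unfold Ph
    rw [e3, mul_assoc (Hq α (pl (1 / 2 + b) t)), e2]
    push_cast
    ring
  rw [e5, Complex.im_ofReal_mul]
  exact mul_nonneg (mul_nonneg (Complex.normSq_nonneg _) (Real.exp_pos _).le) h

end Pool.Agent.MP_67227b_nt.Sg
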