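import Pool.Agent.MP_67227b_nt.Sg.SgPos
import Pool.Agent.MP_67227b_nt.Sg.SgG
import Pool.Agent.MP_67227b_nt.Sg.SgR
import Pool.Agent.MP_67227b_nt.Sg.SgM
import Pool.Agent.MP_67227b_nt.Sg.SgC_a
import Pool.Agent.MP_67227b_nt.Sg.SgC_b

set_option autoImplicit false

open Filter Topology Set MeasureTheory Complex
open scoped Real

namespace Pool.Agent.MP_67227b_nt.Sg

open Pool.Agent.Lib.ZetaCount_helper33 Pool.Agent.MP_67227b_nt Pool.Agent.MP_67227b_nt.Mo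

lemma Sep.mono {J : Set ℝ} {a a' : ℝ} (h : Sep J a) (ha : a' ≤ a) : Sep J a' :=
  ⟨h.1, fun z z' hz hz' hne => ha.trans_lt (h.2 z z' hz hz' hne)⟩

/-- The imaginary part of an integral of functions with nonnegative imaginary part. -/
lemma im_integral_nonneg {g : ℝ → ℂ} {A B : ℝ} (hAB : A ≤ B) (ζ : ℂ)
    (h : ∀ t ∈ Icc A B, 0 ≤ (ζ * g t).im) : 0 ≤ (ζ * ∫ t in A..B, g t).im := by
  by_cases hi : IntervalIntegrable g volume A B
  · rw [← intervalIntegral.integral_const_mul]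
    have h1 : IntervalIntegrable (fun t => ζ * g t) volume A B := hi.const_mul ζ
    have h2 := Complex.imCLM.intervalIntegral_comp_comm h1
    simp only [Complex.imCLM_apply] at h2
    rw [← h2]
    exact intervalIntegral.integral_nonneg hAB h
  · rw [intervalIntegral.integral_undef hi]
    simp

/-- Decay: a power times an exponential of a negative power tends to zero. -/
lemma tendsto_pow_exp (a k : ℝ) {δ : ℝ} (hδ : 0 < δ) (hk : 0 < k) :
    Tendsto (fun T : ℝ => T ^ a * Real.exp (-(k * T ^ δ))) atTop (𝓝 0) := by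
  have h1 : Tendsto (fun x : ℝ => x ^ (a / δ) * Real.exp (-k * x)) atTop (𝓝 0) :=
    tendsto_rpow_mul_exp_neg_mul_atTop_nhds_zero _ _ hk
  have h2 := h1.comp (tendsto_rpow_atTop hδ)
  refine h2.congr' ?_
  filter_upwards [eventually_gt_atTop 0] with T hT
  simp only [Function.comp]
  rw [← Real.rpow_mul hT.le, mul_div_cancel₀ _ hδ.ne', neg_mul]

theorem not_sep (hRH : RiemannHypothesis) {lam θ : ℝ} (hlam : 1 / 2 < lam) (hθ0 : 0 < θ)
    (h3 : θ < 1) (hθl : 1 / lam - 1 < θ) :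
    ∀ᶠ T : ℝ in atTop, ¬ Sep (Icc T (T + T ^ θ)) (2 * π * lam / Real.log T) := by
  set lam' : ℝ := min lam 1 with hlam'
  have hl1 : 1 / 2 < lam' := lt_min hlam (by norm_num)
  have hl2 : lam' ≤ 1 := min_le_right _ _
  have hl3 : lam' ≤ lam := min_le_left _ _
  have hl4 : 1 / (1 + θ) < lam' := by
    rw [div_lt_iff₀ (by linarith)]
    rcases le_total lam 1 with h | h
    · rw [hlam', min_eq_left h]
      have h5 : 1 / lam < 1 + θ := by linarith
      rw [div_lt_iff₀ (by linarith)] at h5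
      linarith
    · rw [hlam', min_eq_right h]
      linarith
  have hl5 : 1 / 2 < 1 / (1 + θ) := by
    apply one_div_lt_one_div_of_lt <;> linarith
  set u : ℝ := (1 / (1 + θ) + lam') / 2 with hu
  have hu1 : 1 / 2 < u := by rw [hu]; linarith only [hl4, hl5]
  have hu2 : u < lam' := by rw [hu]; linarith
  have hu3 : u < 1 := lt_of_lt_of_le hu2 hl2
  have hu0 : 0 < u := by linarith
  have hu4 : 1 / (1 + θ) < u := by rw [hu]; linarith only [hu, hu2]
  have hu5 : 1 / u - 1 < θ := by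
    rw [div_lt_iff₀ (by linarith only [hθ0, hl2, hl5, hu, hu2])] at hu4
    have : 1 / u < 1 + θ := by
      rw [div_lt_iff₀ hu0]
      linarith only [hu4]
    linarith only [this]
  have hu6 : 0 < 1 / u - 1 := by
    have : 1 < 1 / u := by
      rw [lt_div_iff₀ hu0]
      linarith only [hl2, hu2]
    linarith only [this]
  set κ : ℝ := (1 / u - 1 + θ) / 2 with hκ
  have hκ0 : 0 < κ := by rw [hκ]; linarith only [hθ0, hu6]
  have hκθ : κ < θ := by rw [hκ]; linarith only [hu5]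
  have hκ1 : κ < 1 := by linarith only [h3, hκθ]
  have hκu : 1 < u * (1 + κ) := by
    have h5 : 1 / u - 1 < κ := by rw [hκ]; linarith only [hκ, hκθ]
    have h6 : 1 / u < 1 + κ := by linarith only [hκ, hκθ]
    rw [div_lt_iff₀ hu0] at h6
    linarith only [h6]
  set θ₁ : ℝ := (κ + θ) / 2 with hθ₁
  have h1 : κ < θ₁ := by rw [hθ₁]; linarith only [hκθ]
  have h2 : θ₁ < θ := by rw [hθ₁]; linarith only [hu5, hκ]
  have hθ₁0 : 0 < θ₁ := by rw [hθ₁]; linarith only [hθ0, hu6, hκ]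
  obtain ⟨β, c, hβ, hc, hneg⟩ := sum_neg hu1 hu3 hκ0 hκ1 hκu
  obtain ⟨C₁, hC₁, hpos⟩ := Hq_im_nonneg hRH (lam := lam') (u := u) (θ := θ) (β := β) hu0 hu2 hθ0 h3 hβ
  obtain ⟨C₂, hC₂, hgr⟩ := Hq_growth hRH hu0 hβ
  obtain ⟨C₃, hC₃, hright⟩ := right_line
  -- the error terms
  have e1 : Tendsto (fun T : ℝ => C₃ * (T ^ (12 * κ) * Real.exp (-(1 / 32 * T ^ (2 * (θ₁ - κ)))) +
      T ^ (12 * κ) * Real.exp (-(1 / 32 * T ^ (2 * (θ - θ₁))))) +
      100 * (T ^ (C₂ + 12 * κ) * Real.exp (-(1 / 16 * T ^ (2 * (θ - θ₁)))))) atTop (𝓝 0) := by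
    have t1 := tendsto_pow_exp (12 * κ) (1 / 32) (δ := 2 * (θ₁ - κ)) (by linarith only [h1]) (by norm_num)
    have t2 := tendsto_pow_exp (12 * κ) (1 / 32) (δ := 2 * (θ - θ₁)) (by linarith only [hθ₁, h1]) (by norm_num)
    have t3 := tendsto_pow_exp (C₂ + 12 * κ) (1 / 16) (δ := 2 * (θ - θ₁)) (by linarith only [hθ₁, h1])
      (by norm_num)
    have := ((t1.add t2).const_mul C₃).add (t3.const_mul 100)
    simpa using this
  have hlog : Tendsto Real.log atTop atTop := Real.tendsto_log_atTop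
  have ev1 : ∀ᶠ T : ℝ in atTop, C₃ * (T ^ (12 * κ) * Real.exp (-(1 / 32 * T ^ (2 * (θ₁ - κ)))) +
      T ^ (12 * κ) * Real.exp (-(1 / 32 * T ^ (2 * (θ - θ₁))))) +
      100 * (T ^ (C₂ + 12 * κ) * Real.exp (-(1 / 16 * T ^ (2 * (θ - θ₁))))) < c :=
    e1.eventually (gt_mem_nhds hc)
  have ev2 : ∀ᶠ T : ℝ in atTop, (32 : ℝ) ≤ T ^ (θ₁ - κ) :=
    (tendsto_rpow_atTop (by linarith only [h1] : 0 < θ₁ - κ)).eventually_ge_atTop 32
  have ev3 : ∀ᶠ T : ℝ in atTop, 2 * π * u + β + 1 ≤ Real.log T := hlog.eventually_ge_atTop _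
  filter_upwards [hneg C₁, hpos, hgr, ev1, ev2, ev3, eventually_ge_atTop 4] with T hneg' hpos'
    hgr' hE h32 hL hT4 hsep
  have hT0 : 0 < T := by linarith only [hT4]
  have hT1 : 1 ≤ T := by linarith only [hT4]
  have hπ := Real.pi_pos
  have hL0 : 0 < Real.log T := by
    have : 0 < 2 * π * u + β + 1 := by positivity
    linarith only [hL, this]
  have hL1 : 1 ≤ Real.log T := by
    have : 0 < 2 * π * u + β := by positivity
    linarith only [hL, this]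
  have hsep' : Sep (Icc T (T + T ^ θ)) (2 * π * lam' / Real.log T) := by
    apply hsep.mono
    gcongr
  obtain ⟨ψ, hψ, hψpos⟩ := hpos' hsep'
  have hneg'' := hneg' ψ hψ
  set L := Real.log T with hLdef
  set α : ℝ := 2 * π * u / L with hα
  set b : ℝ := β / L with hb
  set t₀ : ℝ := T + T ^ θ / 2 with ht₀
  set X : ℝ := T ^ θ / 4 with hX
  set Δ : ℝ := T ^ θ₁ with hΔ
  set N : ℕ := ⌊T ^ κ⌋₊ with hN
  have hα0 : 0 ≤ α := by positivity
  have hα1 : α ≤ 1 := by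
    rw [hα, div_le_one hL0]
    linarith only [h3, hu6, hκ, hθ₁, h1, hβ, hL]
  have hb0 : 0 < b := by positivity
  have hb1 : b ≤ 1 := by
    rw [hb, div_le_one hL0]
    have : 0 < 2 * π * u := by positivity
    linarith only [h3, hu6, hκ, hθ₁, h1, hL, this]
  have hTκ : 1 ≤ T ^ κ := Real.one_le_rpow hT1 hκ0.le
  have hN1 : 1 ≤ N := by
    rw [hN, Nat.one_le_floor_iff]
    exact hTκ
  have hNle : (N : ℝ) ≤ T ^ κ := Nat.floor_le (by positivity)
  have hN1' : (1 : ℝ) ≤ N := by exact_mod_cast hN1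
  have hΔ0 : 0 < Δ := by positivity
  have hΔN : 32 * (N : ℝ) ≤ Δ := by
    have : Δ = T ^ (θ₁ - κ) * T ^ κ := by
      rw [hΔ, ← Real.rpow_add hT0]
      congr 1
      ring
    rw [this]
    gcongr
  have hΔ4 : 4 ≤ Δ := by linarith only [h3, hu6, hκ, hθ₁, h1, hN1', hΔN]
  have hTθ0 : 0 < T ^ θ := by positivity
  have hTθ : T ^ θ ≤ T := by
    calc T ^ θ ≤ T ^ (1 : ℝ) := Real.rpow_le_rpow_of_exponent_le hT1 h3.le
      _ = T := Real.rpow_one T
  have hX0 : 0 < X := by positivity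
  have hXt : X < t₀ := by
    rw [hX, ht₀]
    linarith only [h3, hu6, hκ, hθ₁, h1, hT4, hX, hX0]
  -- left
  have hleft : 0 ≤ (Complex.exp (I * ψ) *
      ∫ t in (t₀ - X)..(t₀ + X), Ph α b t₀ Δ N (pl (1 / 2 + b) t)).im := by
    apply im_integral_nonneg (by linarith only [hX0])
    intro t ht
    apply Ph_left hΔ0
    apply hψpos
    rw [abs_le]
    constructor <;> linarith [ht.1, ht.2]
  have hr := hright α b t₀ Δ X N hN1 hα0 hb0 hb1 hΔN hX0
  have hm := move_line hRH (α := α) (b := b) (t₀ := t₀) (Δ := Δ) (X := X) (K := T ^ C₂) (N := N)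
    hα0 hα1 hb0 hb1 hΔ4 hX0 hXt hN1 (by
      intro σ t hσ1 hσ2 ht
      apply hgr' σ t hσ1 hσ2
      · rcases ht with rfl | rfl <;> rw [hX, ht₀] <;> linarith
      · rcases ht with rfl | rfl <;> rw [hX, ht₀] <;> linarith)
  set IL := ∫ t in (t₀ - X)..(t₀ + X), Ph α b t₀ Δ N (pl (1 / 2 + b) t) with hIL
  set IR := ∫ t in (t₀ - X)..(t₀ + X), Ph α b t₀ Δ N (pl 4 t) with hIR
  set M : ℂ := ((Δ * Real.sqrt π : ℝ) : ℂ) * Sd α b N with hM
  have hnorm : ‖Complex.exp (I * ψ)‖ = 1 := by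
    rw [mul_comm, Complex.norm_exp_ofReal_mul_I]
  have hdiff : (Complex.exp (I * ψ) * IL).im - (Complex.exp (I * ψ) * M).im ≤
      ‖IL - IR‖ + ‖IR - M‖ := by
    have h5 : (Complex.exp (I * ψ) * IL).im - (Complex.exp (I * ψ) * M).im =
        (Complex.exp (I * ψ) * (IL - M)).im := by
      rw [mul_sub, Complex.sub_im]
    rw [h5]
    calc (Complex.exp (I * ψ) * (IL - M)).im ≤ ‖Complex.exp (I * ψ) * (IL - M)‖ :=
          (le_abs_self _).trans (Complex.abs_im_le_norm _)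
      _ = ‖IL - M‖ := by rw [norm_mul, hnorm, one_mul]
      _ = ‖(IL - IR) + (IR - M)‖ := by congr 1; ring
      _ ≤ _ := norm_add_le _ _
  have hMim : (Complex.exp (I * ψ) * M).im ≤ -(Δ * Real.sqrt π * (c * L)) := by
    have h6 : Complex.exp (I * ψ) * M =
        ((Δ * Real.sqrt π : ℝ) : ℂ) * (Complex.exp (I * ψ) * Sd α b N) := by
      rw [hM]
      ring
    rw [h6, Complex.im_ofReal_mul]
    have h7 : 0 ≤ Δ * Real.sqrt π := by positivity
    have h9 := mul_le_mul_of_nonneg_left hneg'' h7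
    refine h9.trans (le_of_eq ?_)
    ring
  have hsq : 1 ≤ Real.sqrt π := by
    rw [Real.one_le_sqrt]
    linarith only [Real.pi_gt_three, h3, hu6, hκ, hθ₁, h1]
  -- bounds of the errors
  have hN12 : (N : ℝ) ^ 12 ≤ T ^ (12 * κ) := by
    calc (N : ℝ) ^ 12 ≤ (T ^ κ) ^ 12 := by gcongr
      _ = T ^ (12 * κ) := by
        rw [← Real.rpow_natCast, ← Real.rpow_mul hT0.le]
        congr 1
        push_cast
        ring
  have hx1 : Real.exp (-(Δ ^ 2 / (32 * (N : ℝ) ^ 2))) ≤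
      Real.exp (-(1 / 32 * T ^ (2 * (θ₁ - κ)))) := by
    apply Real.exp_le_exp.mpr
    apply neg_le_neg
    have h8 : T ^ (2 * (θ₁ - κ)) = Δ ^ 2 / (T ^ κ) ^ 2 := by
      rw [hΔ, ← Real.rpow_natCast, ← Real.rpow_natCast, ← Real.rpow_mul hT0.le,
        ← Real.rpow_mul hT0.le, ← Real.rpow_sub hT0]
      congr 1
      push_cast
      ring
    rw [h8]
    rw [div_mul_div_comm, one_mul]
    gcongr
  have hx2 : X ^ 2 / (2 * Δ ^ 2) = 1 / 32 * T ^ (2 * (θ - θ₁)) := by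
    have h8 : T ^ (2 * (θ - θ₁)) = (T ^ θ) ^ 2 / Δ ^ 2 := by
      rw [hΔ, ← Real.rpow_natCast, ← Real.rpow_natCast, ← Real.rpow_mul hT0.le,
        ← Real.rpow_mul hT0.le, ← Real.rpow_sub hT0]
      congr 1
      push_cast
      ring
    rw [h8, hX]
    field_simp
    ring
  have hx3 : X ^ 2 / Δ ^ 2 = 1 / 16 * T ^ (2 * (θ - θ₁)) := by
    have : X ^ 2 / Δ ^ 2 = 2 * (X ^ 2 / (2 * Δ ^ 2)) := by field_simp
    rw [this, hx2]
    ring
  rw [hx2] at hr
  rw [hx3] at hm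
  have hr' : ‖IR - M‖ ≤ Δ * (C₃ * (T ^ (12 * κ) * Real.exp (-(1 / 32 * T ^ (2 * (θ₁ - κ)))) +
      T ^ (12 * κ) * Real.exp (-(1 / 32 * T ^ (2 * (θ - θ₁)))))) := by
    refine hr.trans ?_
    calc C₃ * (N : ℝ) ^ 12 * Δ * (Real.exp (-(Δ ^ 2 / (32 * (N : ℝ) ^ 2))) +
          Real.exp (-(1 / 32 * T ^ (2 * (θ - θ₁)))))
        ≤ C₃ * T ^ (12 * κ) * Δ * (Real.exp (-(1 / 32 * T ^ (2 * (θ₁ - κ)))) +
          Real.exp (-(1 / 32 * T ^ (2 * (θ - θ₁))))) := by gcongr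
      _ = _ := by ring
  have hm' : ‖IL - IR‖ ≤ Δ * (100 * (T ^ (C₂ + 12 * κ) *
      Real.exp (-(1 / 16 * T ^ (2 * (θ - θ₁)))))) := by
    refine hm.trans ?_
    rw [Real.rpow_add hT0]
    calc 100 * T ^ C₂ * (N : ℝ) ^ 12 * Real.exp (-(1 / 16 * T ^ (2 * (θ - θ₁))))
        ≤ 100 * T ^ C₂ * T ^ (12 * κ) * Real.exp (-(1 / 16 * T ^ (2 * (θ - θ₁)))) := by gcongr
      _ = 1 * (100 * (T ^ C₂ * T ^ (12 * κ) * Real.exp (-(1 / 16 * T ^ (2 * (θ - θ₁)))))) := by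
        ring
      _ ≤ _ := by
        gcongr
        linarith only [h3, hu6, hκ, hθ₁, h1, hN1', hΔN]
  have hfin : Δ * Real.sqrt π * (c * L) ≤ Δ * (C₃ * (T ^ (12 * κ) *
      Real.exp (-(1 / 32 * T ^ (2 * (θ₁ - κ)))) +
      T ^ (12 * κ) * Real.exp (-(1 / 32 * T ^ (2 * (θ - θ₁))))) +
      100 * (T ^ (C₂ + 12 * κ) * Real.exp (-(1 / 16 * T ^ (2 * (θ - θ₁)))))) := by
    rw [mul_add]
    linarith only [hleft, hdiff, hMim, hr', hm']
  have hfin2 : Δ * (C₃ * (T ^ (12 * κ) *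
      Real.exp (-(1 / 32 * T ^ (2 * (θ₁ - κ)))) +
      T ^ (12 * κ) * Real.exp (-(1 / 32 * T ^ (2 * (θ - θ₁))))) +
      100 * (T ^ (C₂ + 12 * κ) * Real.exp (-(1 / 16 * T ^ (2 * (θ - θ₁)))))) < Δ * c := by
    gcongr
  have hfin3 : Δ * c ≤ Δ * Real.sqrt π * (c * L) := by
    have : Δ * c * 1 * 1 ≤ Δ * c * Real.sqrt π * L := by gcongr
    linarith only [hleft, hdiff, hMim, hr', hm', hfin2, this]
  linarith only [hleft, hdiff, hMim, hr', hm', hfin2, hfin3]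

end Pool.Agent.MP_67227b_nt.Sg
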