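import Pool.Agent.MP_67227b_nt.Sg.SgDefs

set_option autoImplicit false
set_option linter.unusedVariables false

open Filter Topology Set MeasureTheory Complex
open scoped Real

namespace Pool.Agent.MP_67227b_nt.Sg

open Pool.Agent.Lib.ZetaCount_helper33 Pool.Agent.MP_67227b_nt Pool.Agent.MP_67227b_nt.Mo

namespace M21

lemma sqf_div (N m : ℕ) (hm : m ∈ Finset.Icc 1 N) :
    ∑ d ∈ (Finset.Icc 1 N).filter (fun d => d ^ 2 ∣ m), (ArithmeticFunction.moebius d : ℤ) =
      (ArithmeticFunction.moebius m) ^ 2 := by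
  rw [Finset.mem_Icc] at hm
  obtain ⟨k, b, hkb, hk⟩ := Nat.sq_mul_squarefree m
  have hb0 : b ≠ 0 := by
    rintro rfl
    simp at hkb
    omega
  have hk0 : k ≠ 0 := by
    rintro rfl
    simp at hkb
    omega
  have hbm : b ≤ m := by
    calc b ≤ b ^ 2 := Nat.le_self_pow (by norm_num) b
      _ ≤ b ^ 2 * k := Nat.le_mul_of_pos_right _ (Nat.pos_of_ne_zero hk0)
      _ = m := hkb
  have hset : (Finset.Icc 1 N).filter (fun d => d ^ 2 ∣ m) = b.divisors := by
    ext d
    rw [Finset.mem_filter, Finset.mem_Icc, Nat.mem_divisors]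
    constructor
    · rintro ⟨⟨hd1, hdN⟩, hdm⟩
      refine ⟨?_, hb0⟩
      rw [← hkb] at hdm
      set g := Nat.gcd d b with hg
      have hgpos : 0 < g := Nat.gcd_pos_of_pos_right d (Nat.pos_of_ne_zero hb0)
      obtain ⟨d', hd'⟩ : g ∣ d := Nat.gcd_dvd_left d b
      obtain ⟨b', hb'⟩ : g ∣ b := Nat.gcd_dvd_right d b
      have hcop : Nat.Coprime d' b' := by
        have h1 := Nat.coprime_div_gcd_div_gcd (m := d) (n := b) hgpos
        rw [← hg] at h1
        have h2 : d / g = d' := by rw [hd']; exact Nat.mul_div_cancel_left d' hgpos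
        have h3 : b / g = b' := by
          conv_lhs => rw [hb']
          exact Nat.mul_div_cancel_left b' hgpos
        rwa [h2, h3] at h1
      have h4 : d' ^ 2 ∣ b' ^ 2 * k := by
        have h5 : g ^ 2 * d' ^ 2 ∣ g ^ 2 * (b' ^ 2 * k) := by
          have h6 : g ^ 2 * d' ^ 2 = d ^ 2 := by
            conv_rhs => rw [hd']
            ring
          have h7 : g ^ 2 * (b' ^ 2 * k) = b ^ 2 * k := by
            conv_rhs => rw [hb']
            ring
          rw [h6, h7]
          exact hdm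
        exact Nat.dvd_of_mul_dvd_mul_left (by positivity) h5
      have h8 : d' ^ 2 ∣ k := (Nat.Coprime.pow 2 2 hcop).dvd_of_dvd_mul_left h4
      have h9 : d' = 1 := by
        have := hk d' (by rw [← sq]; exact h8)
        exact Nat.isUnit_iff.mp this
      rw [hd', h9, mul_one]
      exact Nat.gcd_dvd_right d b
    · rintro ⟨hdb, -⟩
      refine ⟨⟨Nat.pos_of_dvd_of_pos hdb (Nat.pos_of_ne_zero hb0), ?_⟩, ?_⟩
      · exact (Nat.le_of_dvd (Nat.pos_of_ne_zero hb0) hdb).trans (hbm.trans hm.2)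
      · rw [← hkb]
        exact Dvd.dvd.mul_right (pow_dvd_pow_of_dvd hdb 2) k
  rw [hset]
  have h1 : ∑ i ∈ b.divisors, (ArithmeticFunction.moebius i : ℤ) = if b = 1 then 1 else 0 := by
    have h2 := ArithmeticFunction.coe_mul_zeta_apply (f := ArithmeticFunction.moebius) (x := b)
    rw [← h2, ArithmeticFunction.moebius_mul_coe_zeta, ArithmeticFunction.one_apply]
  rw [h1, ArithmeticFunction.moebius_sq]
  by_cases hb1 : b = 1
  · have : Squarefree m := by rw [← hkb, hb1]; simpa using hk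
    simp [hb1, this]
  · have : ¬ Squarefree m := by
      intro h
      apply hb1
      have := h b (by rw [← hkb, sq]; exact Dvd.intro k rfl)
      exact Nat.isUnit_iff.mp this
    simp [hb1, this]

/-- The sum over `m ≤ N` divisible by `q`. -/
lemma sum_dvd (N q : ℕ) (hq : 0 < q) :
    ∑ m ∈ (Finset.Icc 1 N).filter (fun m => q ∣ m), (1 : ℝ) / m =
      (1 / (q : ℝ)) * ((harmonic (N / q) : ℚ) : ℝ) := by
  rw [harmonic_eq_sum_Icc]
  push_cast
  rw [Finset.mul_sum]
  symm
  apply Finset.sum_bij' (fun k _ => q * k) (fun m _ => m / q)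
  · intro k hk
    rw [Finset.mem_Icc] at hk
    rw [Finset.mem_filter, Finset.mem_Icc]
    refine ⟨⟨Nat.mul_pos hq hk.1, ?_⟩, Dvd.intro k rfl⟩
    calc q * k ≤ q * (N / q) := Nat.mul_le_mul_left q hk.2
      _ ≤ N := Nat.mul_div_le N q
  · intro m hm
    rw [Finset.mem_filter, Finset.mem_Icc] at hm
    rw [Finset.mem_Icc]
    refine ⟨?_, Nat.div_le_div_right hm.1.2⟩
    exact Nat.div_pos (Nat.le_of_dvd hm.1.1 hm.2) hq
  · intro k _
    exact Nat.mul_div_cancel_left k hq
  · intro m hm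
    rw [Finset.mem_filter] at hm
    exact Nat.mul_div_cancel' hm.2
  · intro k _
    push_cast
    rw [one_div, one_div, mul_inv]

/-- The squarefree harmonic sum. -/
noncomputable def SS (N : ℕ) : ℝ :=
  ∑ m ∈ Finset.Icc 1 N, ((ArithmeticFunction.moebius m : ℤ) : ℝ) ^ 2 / m

lemma SS_eq (N : ℕ) : SS N = ∑ d ∈ Finset.Icc 1 N,
    ((ArithmeticFunction.moebius d : ℤ) : ℝ) / (d : ℝ) ^ 2 * ((harmonic (N / d ^ 2) : ℚ) : ℝ) := by
  have h1 : SS N = ∑ m ∈ Finset.Icc 1 N, ∑ d ∈ Finset.Icc 1 N,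
      if d ^ 2 ∣ m then ((ArithmeticFunction.moebius d : ℤ) : ℝ) * (1 / m) else 0 := by
    unfold SS
    apply Finset.sum_congr rfl
    intro m hm
    rw [← Finset.sum_filter, ← Finset.sum_mul, ← Int.cast_sum, sqf_div N m hm]
    push_cast
    ring
  rw [h1, Finset.sum_comm]
  apply Finset.sum_congr rfl
  intro d hd
  rw [Finset.mem_Icc] at hd
  rw [← Finset.sum_filter, ← Finset.mul_sum, sum_dvd N (d ^ 2) (by have := hd.1; positivity)]
  push_cast
  ring

lemma harm_bound (N d : ℕ) (hN : 1 ≤ N) (hd : 1 ≤ d) :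
    |((harmonic (N / d ^ 2) : ℚ) : ℝ) - Real.log N| ≤ 1 + 2 * Real.log d := by
  have hdpos : (0 : ℝ) < d := by exact_mod_cast hd
  have hNpos : (0 : ℝ) < N := by exact_mod_cast hN
  have hld : 0 ≤ Real.log d := Real.log_nonneg (by exact_mod_cast hd)
  have hlN : 0 ≤ Real.log N := Real.log_nonneg (by exact_mod_cast hN)
  have hdd : 0 < d ^ 2 := by positivity
  by_cases h : d ^ 2 ≤ N
  · set n := N / d ^ 2 with hn
    have hn1 : 1 ≤ n := Nat.div_pos h hdd
    have h1 : (n : ℝ) ≤ N / (d : ℝ) ^ 2 := by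
      have := @Nat.cast_div_le ℝ _ _ _ N (d ^ 2)
      push_cast at this
      exact this
    have h2 : (N : ℝ) / (d : ℝ) ^ 2 < n + 1 := by
      rw [div_lt_iff₀ (by positivity)]
      have := Nat.lt_mul_div_succ N hdd
      rw [← hn] at this
      have h3 : (N : ℝ) < ((d ^ 2 * (n + 1) : ℕ) : ℝ) := by exact_mod_cast this
      push_cast at h3
      linarith
    have h4 : Real.log ((n : ℝ) + 1) ≤ ((harmonic n : ℚ) : ℝ) := by
      have := log_add_one_le_harmonic n
      push_cast at this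
      exact this
    have h5 : ((harmonic n : ℚ) : ℝ) ≤ 1 + Real.log n := harmonic_le_one_add_log n
    have h6 : Real.log ((N : ℝ) / (d : ℝ) ^ 2) = Real.log N - 2 * Real.log d := by
      rw [Real.log_div hNpos.ne' (by positivity), Real.log_pow]
      push_cast
      ring
    have h7 : Real.log ((N : ℝ) / (d : ℝ) ^ 2) ≤ Real.log ((n : ℝ) + 1) :=
      Real.log_le_log (by positivity) h2.le
    have h8 : Real.log n ≤ Real.log ((N : ℝ) / (d : ℝ) ^ 2) :=
      Real.log_le_log (by exact_mod_cast hn1) h1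
    rw [abs_le]
    constructor <;> linarith
  · have h0 : N / d ^ 2 = 0 := Nat.div_eq_of_lt (not_le.mp h)
    rw [h0]
    simp only [harmonic_zero, Rat.cast_zero, zero_sub, abs_neg]
    rw [abs_of_nonneg hlN]
    have : Real.log N ≤ Real.log ((d : ℝ) ^ 2) :=
      Real.log_le_log hNpos (by exact_mod_cast (not_le.mp h).le)
    rw [Real.log_pow] at this
    push_cast at this
    linarith

lemma summable_sq : Summable (fun d : ℕ => ((ArithmeticFunction.moebius d : ℤ) : ℝ) / (d : ℝ) ^ 2) := by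
  apply Summable.of_norm_bounded (g := fun d : ℕ => 1 / (d : ℝ) ^ 2)
    (Real.summable_one_div_nat_pow.mpr (by norm_num))
  intro d
  rw [norm_div, Real.norm_eq_abs, Real.norm_eq_abs, abs_of_nonneg (by positivity : (0 : ℝ) ≤ (d : ℝ) ^ 2)]
  apply div_le_div_of_nonneg_right _ (by positivity)
  have := @ArithmeticFunction.abs_moebius_le_one d
  exact_mod_cast this

lemma summable_logsq : Summable (fun d : ℕ => (1 + 2 * Real.log d) / (d : ℝ) ^ 2) := by
  have h1 : Summable (fun d : ℕ => 5 * (1 / (d : ℝ) ^ (3 / 2 : ℝ))) :=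
    (Real.summable_one_div_nat_rpow.mpr (by norm_num)).mul_left 5
  apply Summable.of_norm_bounded h1
  intro d
  rcases Nat.eq_zero_or_pos d with rfl | hd
  · simp
  have hdpos : (0 : ℝ) < d := by exact_mod_cast hd
  have hd1 : (1 : ℝ) ≤ d := by exact_mod_cast hd
  have hld : 0 ≤ Real.log d := Real.log_nonneg hd1
  rw [Real.norm_eq_abs, abs_of_nonneg (by positivity)]
  have h2 : Real.log d ≤ (d : ℝ) ^ (1 / 2 : ℝ) / (1 / 2) := Real.log_le_rpow_div hdpos.le (by norm_num)
  have h3 : (1 : ℝ) ≤ (d : ℝ) ^ (1 / 2 : ℝ) := Real.one_le_rpow hd1 (by norm_num)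
  have h4 : (d : ℝ) ^ 2 = (d : ℝ) ^ (1 / 2 : ℝ) * (d : ℝ) ^ (3 / 2 : ℝ) := by
    rw [← Real.rpow_add hdpos, ← Real.rpow_natCast]
    norm_num
  rw [h4, div_le_iff₀ (by positivity)]
  have h5 : 5 * (1 / (d : ℝ) ^ (3 / 2 : ℝ)) * ((d : ℝ) ^ (1 / 2 : ℝ) * (d : ℝ) ^ (3 / 2 : ℝ)) =
      5 * (d : ℝ) ^ (1 / 2 : ℝ) := by
    field_simp
  rw [h5]
  linarith

lemma SS_bound : ∃ C : ℝ, 0 ≤ C ∧ ∀ N : ℕ, 1 ≤ N →
    |SS N - (∑' d : ℕ, ((ArithmeticFunction.moebius d : ℤ) : ℝ) / (d : ℝ) ^ 2) * Real.log N| ≤ C := by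
  refine ⟨∑' d : ℕ, (1 + 2 * Real.log d) / (d : ℝ) ^ 2, ?_, ?_⟩
  · apply tsum_nonneg
    intro d
    rcases Nat.eq_zero_or_pos d with rfl | hd
    · simp
    · have : 0 ≤ Real.log d := Real.log_nonneg (by exact_mod_cast hd)
      positivity
  intro N hN
  have hfin : SS N = ∑' d : ℕ, ((ArithmeticFunction.moebius d : ℤ) : ℝ) / (d : ℝ) ^ 2 *
      ((harmonic (N / d ^ 2) : ℚ) : ℝ) := by
    rw [SS_eq, tsum_eq_sum]
    intro d hd
    rw [Finset.mem_Icc] at hd
    rcases Nat.eq_zero_or_pos d with rfl | hd0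
    · simp
    · have hdN : N < d := by
        by_contra h
        exact hd ⟨hd0, not_lt.mp h⟩
      have : N / d ^ 2 = 0 := Nat.div_eq_of_lt (lt_of_lt_of_le hdN (Nat.le_self_pow (by norm_num) d))
      rw [this]
      simp
  have hsum1 : Summable (fun d : ℕ => ((ArithmeticFunction.moebius d : ℤ) : ℝ) / (d : ℝ) ^ 2 *
      ((harmonic (N / d ^ 2) : ℚ) : ℝ)) := by
    apply summable_of_ne_finset_zero (s := Finset.Icc 1 N)
    intro d hd
    rw [Finset.mem_Icc] at hd
    rcases Nat.eq_zero_or_pos d with rfl | hd0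
    · simp
    · have hdN : N < d := by
        by_contra h
        exact hd ⟨hd0, not_lt.mp h⟩
      have : N / d ^ 2 = 0 := Nat.div_eq_of_lt (lt_of_lt_of_le hdN (Nat.le_self_pow (by norm_num) d))
      rw [this]
      simp
  have hsum2 := summable_sq.mul_right (Real.log N)
  rw [hfin, ← tsum_mul_right, ← hsum1.tsum_sub hsum2, ← Real.norm_eq_abs]
  have hb : ∀ d : ℕ, ‖((ArithmeticFunction.moebius d : ℤ) : ℝ) / (d : ℝ) ^ 2 *
      ((harmonic (N / d ^ 2) : ℚ) : ℝ) - ((ArithmeticFunction.moebius d : ℤ) : ℝ) / (d : ℝ) ^ 2 *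
      Real.log N‖ ≤ (1 + 2 * Real.log d) / (d : ℝ) ^ 2 := by
    intro d
    rcases Nat.eq_zero_or_pos d with rfl | hd0
    · simp
    rw [← mul_sub, norm_mul, norm_div, Real.norm_eq_abs, Real.norm_eq_abs, Real.norm_eq_abs,
      abs_of_nonneg (by positivity : (0 : ℝ) ≤ (d : ℝ) ^ 2)]
    have h1 : |((ArithmeticFunction.moebius d : ℤ) : ℝ)| ≤ 1 := by
      have := @ArithmeticFunction.abs_moebius_le_one d
      exact_mod_cast this
    have h2 := harm_bound N d hN hd0
    have h3 : |((ArithmeticFunction.moebius d : ℤ) : ℝ)| / (d : ℝ) ^ 2 ≤ 1 / (d : ℝ) ^ 2 :=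
      div_le_div_of_nonneg_right h1 (by positivity)
    calc _ ≤ 1 / (d : ℝ) ^ 2 * (1 + 2 * Real.log d) :=
          mul_le_mul h3 h2 (abs_nonneg _) (by positivity)
      _ = _ := by ring
  exact tsum_of_norm_bounded summable_logsq.hasSum hb

lemma SS_one : SS 1 = 1 := by
  simp [SS]

lemma SS_succ (N : ℕ) : SS (N + 1) = SS N +
    ((ArithmeticFunction.moebius (N + 1) : ℤ) : ℝ) ^ 2 / ((N + 1 : ℕ) : ℝ) := by
  unfold SS
  rw [Finset.sum_Icc_succ_top (by omega)]


/-- One step of the comparison with the integral. -/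
lemma step_int (L M : ℝ) (hL : 0 < L) (f : ℝ → ℝ)
    (hlip : ∀ x ∈ Icc (0 : ℝ) 1, ∀ y ∈ Icc (0 : ℝ) 1, |f x - f y| ≤ M * |x - y|)
    (a b : ℝ) (ha : 0 ≤ a) (hab : a ≤ b) (hb : b ≤ 1) :
    |(b - a) * f b - ∫ x in a..b, f x| ≤ M * (b - a) ^ 2 := by
  have hbI : b ∈ Icc (0 : ℝ) 1 := ⟨ha.trans hab, hb⟩
  have hcont : ContinuousOn f (Icc (0 : ℝ) 1) := by
    have : LipschitzOnWith (Real.toNNReal M) f (Icc (0 : ℝ) 1) := by
      apply LipschitzOnWith.of_dist_le_mul
      intro x hx y hy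
      rw [Real.dist_eq, Real.dist_eq]
      refine (hlip x hx y hy).trans ?_
      exact mul_le_mul_of_nonneg_right (Real.le_coe_toNNReal M) (abs_nonneg _)
    exact this.continuousOn
  have hint : IntervalIntegrable f volume a b := by
    apply ContinuousOn.intervalIntegrable
    rw [uIcc_of_le hab]
    exact hcont.mono (Icc_subset_Icc ha hb)
  have h1 : (b - a) * f b = ∫ x in a..b, f b := by
    rw [intervalIntegral.integral_const]
    simp
  rw [h1, ← intervalIntegral.integral_sub (by simp) hint, ← Real.norm_eq_abs]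
  have h2 : ∀ x ∈ uIoc a b, ‖f b - f x‖ ≤ M * (b - a) := by
    intro x hx
    rw [uIoc_of_le hab] at hx
    have hxI : x ∈ Icc (0 : ℝ) 1 := ⟨ha.trans hx.1.le, hx.2.trans hb⟩
    rw [Real.norm_eq_abs]
    refine (hlip b hbI x hxI).trans ?_
    rcases eq_or_lt_of_le hab with h | h
    · exfalso
      rw [h] at hx
      exact absurd hx.1 (not_lt.mpr hx.2)
    have hM : 0 ≤ M := by
      have := hlip b hbI a ⟨ha, hab.trans hb⟩
      have h3 : 0 < |b - a| := abs_pos.mpr (by linarith)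
      have h4 : 0 ≤ M * |b - a| := (abs_nonneg _).trans this
      by_contra hneg
      have := mul_neg_of_neg_of_pos (not_le.mp hneg) h3
      linarith
    apply mul_le_mul_of_nonneg_left _ hM
    rw [abs_of_nonneg (by linarith [hx.2])]
    linarith [hx.1]
  have h3 := intervalIntegral.norm_integral_le_of_norm_le_const h2
  rw [abs_of_nonneg (by linarith)] at h3
  calc _ ≤ M * (b - a) * (b - a) := h3
    _ = _ := by ring

lemma abel_main (L M c C0 : ℝ) (hL : 0 < L) (hM : 0 ≤ M) (f : ℝ → ℝ)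
    (hlip : ∀ x ∈ Icc (0 : ℝ) 1, ∀ y ∈ Icc (0 : ℝ) 1, |f x - f y| ≤ M * |x - y|)
    (hE : ∀ N : ℕ, 1 ≤ N → |SS N - c * Real.log N| ≤ C0) (N : ℕ) (hN : 1 ≤ N)
    (hNL : Real.log N ≤ L) :
    |(∑ m ∈ Finset.Icc 1 N, ((ArithmeticFunction.moebius m : ℤ) : ℝ) ^ 2 / m *
        f (Real.log m / L)) - c * (L * ∫ x in (0 : ℝ)..(Real.log N / L), f x) -
        (SS N - c * Real.log N) * f (Real.log N / L)| ≤
      (C0 + |c|) * M * (Real.log N / L) := by
  have hC0 : 0 ≤ C0 := (abs_nonneg _).trans (hE 1 le_rfl)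
  have hcont : ContinuousOn f (Icc (0 : ℝ) 1) := by
    have : LipschitzOnWith (Real.toNNReal M) f (Icc (0 : ℝ) 1) := by
      apply LipschitzOnWith.of_dist_le_mul
      intro x hx y hy
      rw [Real.dist_eq, Real.dist_eq]
      refine (hlip x hx y hy).trans ?_
      exact mul_le_mul_of_nonneg_right (Real.le_coe_toNNReal M) (abs_nonneg _)
    exact this.continuousOn
  induction N, hN using Nat.le_induction with
  | base =>
    simp [SS_one]
  | succ N hN ih =>
    have hNpos : (0 : ℝ) < N := by exact_mod_cast hN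
    have hlogN : 0 ≤ Real.log N := Real.log_nonneg (by exact_mod_cast hN)
    have hle : Real.log N ≤ Real.log ((N + 1 : ℕ) : ℝ) :=
      Real.log_le_log hNpos (by push_cast; linarith)
    have ih' := ih (hle.trans hNL)
    set a := Real.log N / L with ha
    set b := Real.log ((N + 1 : ℕ) : ℝ) / L with hb
    have ha0 : 0 ≤ a := div_nonneg hlogN hL.le
    have hab : a ≤ b := div_le_div_of_nonneg_right hle hL.le
    have hb1 : b ≤ 1 := by rw [hb, div_le_one hL]; exact hNL
    have hst := step_int L M hL f hlip a b ha0 hab hb1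
    have hint1 : IntervalIntegrable f volume 0 a := by
      apply ContinuousOn.intervalIntegrable
      rw [uIcc_of_le ha0]
      exact hcont.mono (Icc_subset_Icc le_rfl (hab.trans hb1))
    have hint2 : IntervalIntegrable f volume a b := by
      apply ContinuousOn.intervalIntegrable
      rw [uIcc_of_le hab]
      exact hcont.mono (Icc_subset_Icc ha0 hb1)
    rw [← intervalIntegral.integral_add_adjacent_intervals hint1 hint2,
      Finset.sum_Icc_succ_top (by omega)]
    have hlogeq : Real.log N = L * a := by rw [ha]; field_simp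
    have hlogeq' : Real.log ((N + 1 : ℕ) : ℝ) = L * b := by rw [hb]; field_simp
    have hdiff : Real.log ((N + 1 : ℕ) : ℝ) - Real.log N ≤ 1 := by
      rw [← Real.log_div (by positivity) hNpos.ne']
      have h1 : ((N + 1 : ℕ) : ℝ) / N ≤ 2 := by
        rw [div_le_iff₀ hNpos]
        push_cast
        have : (1 : ℝ) ≤ N := by exact_mod_cast hN
        linarith
      have h2 := Real.log_le_log (by positivity) h1
      have h3 : Real.log 2 < 1 := by have := Real.log_two_lt_d9; linarith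
      linarith
    have hS : ((ArithmeticFunction.moebius (N + 1) : ℤ) : ℝ) ^ 2 / ((N + 1 : ℕ) : ℝ) =
        SS (N + 1) - SS N := by rw [SS_succ]; ring
    rw [hS]
    have hEN := hE N hN
    have hfab : |f b - f a| ≤ M * (b - a) := by
      have := hlip b ⟨ha0.trans hab, hb1⟩ a ⟨ha0, hab.trans hb1⟩
      rwa [abs_of_nonneg (by linarith : (0 : ℝ) ≤ b - a)] at this
    set S0 := ∑ m ∈ Finset.Icc 1 N, ((ArithmeticFunction.moebius m : ℤ) : ℝ) ^ 2 / m *
        f (Real.log m / L) with hS0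
    have key : S0 + (SS (N + 1) - SS N) * f b -
        c * (L * ((∫ x in (0 : ℝ)..a, f x) + ∫ x in a..b, f x)) -
        (SS (N + 1) - c * Real.log ((N + 1 : ℕ) : ℝ)) * f b =
        (S0 - c * (L * ∫ x in (0 : ℝ)..a, f x) - (SS N - c * Real.log N) * f a) -
        (SS N - c * Real.log N) * (f b - f a) +
        c * (L * ((b - a) * f b - ∫ x in a..b, f x)) := by
      rw [hlogeq, hlogeq']
      ring
    rw [key]
    have h5 : |(SS N - c * Real.log N) * (f b - f a)| ≤ C0 * (M * (b - a)) := by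
      rw [abs_mul]
      exact mul_le_mul hEN hfab (abs_nonneg _) hC0
    have h6 : |c * (L * ((b - a) * f b - ∫ x in a..b, f x))| ≤ |c| * (M * (b - a)) := by
      rw [abs_mul, abs_mul, abs_of_pos hL]
      apply mul_le_mul_of_nonneg_left _ (abs_nonneg _)
      calc L * |(b - a) * f b - ∫ x in a..b, f x| ≤ L * (M * (b - a) ^ 2) :=
            mul_le_mul_of_nonneg_left hst hL.le
        _ = M * (b - a) * (L * b - L * a) := by ring
        _ ≤ M * (b - a) * 1 := by
            apply mul_le_mul_of_nonneg_left _ (mul_nonneg hM (by linarith))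
            rw [← hlogeq, ← hlogeq']
            exact hdiff
        _ = _ := by ring
    have h7 := abs_add_le ((S0 - c * (L * ∫ x in (0 : ℝ)..a, f x) - (SS N - c * Real.log N) * f a) -
        (SS N - c * Real.log N) * (f b - f a)) (c * (L * ((b - a) * f b - ∫ x in a..b, f x)))
    have h8 := abs_sub (S0 - c * (L * ∫ x in (0 : ℝ)..a, f x) - (SS N - c * Real.log N) * f a)
        ((SS N - c * Real.log N) * (f b - f a))
    calc _ ≤ _ := h7
      _ ≤ (C0 + |c|) * M * a + C0 * (M * (b - a)) + |c| * (M * (b - a)) := by linarith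
      _ = _ := by ring

end M21

open M21

/-- MODULE SG10a. -/
theorem sum_sqf (κ : ℝ) (hκ : 0 < κ) (hκ1 : κ < 1) (M : ℝ) :
    ∃ C : ℝ, 0 < C ∧ ∀ᶠ T : ℝ in atTop, ∀ f : ℝ → ℝ, (∀ x ∈ Icc (0 : ℝ) 1, |f x| ≤ M) →
      (∀ x ∈ Icc (0 : ℝ) 1, ∀ y ∈ Icc (0 : ℝ) 1, |f x - f y| ≤ M * |x - y|) →
      |∑ m ∈ Finset.Icc 1 ⌊T ^ κ⌋₊, ((ArithmeticFunction.moebius m : ℤ) : ℝ) ^ 2 / m *
          f (Real.log m / Real.log T) -
        (∑' d : ℕ, ((ArithmeticFunction.moebius d : ℤ) : ℝ) / (d : ℝ) ^ 2) *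
          (Real.log T * ∫ x in (0 : ℝ)..κ, f x)| ≤ C := by
  obtain ⟨C0, hC0, hE⟩ := SS_bound
  set c := ∑' d : ℕ, ((ArithmeticFunction.moebius d : ℤ) : ℝ) / (d : ℝ) ^ 2 with hc
  refine ⟨C0 * |M| + (C0 + |c|) * |M| + |c| * |M| + 1, by positivity, ?_⟩
  filter_upwards [eventually_ge_atTop (Real.exp 1)] with T hT f hf hlip
  have hTpos : 0 < T := (Real.exp_pos 1).trans_le hT
  have hL1 : 1 ≤ Real.log T := by
    rw [Real.le_log_iff_exp_le hTpos]
    exact hT
  set L := Real.log T with hL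
  have hLpos : 0 < L := by linarith
  have hM : 0 ≤ M := (abs_nonneg _).trans (hf 0 ⟨le_rfl, zero_le_one⟩)
  have hT1 : 1 ≤ T := by
    have : (1 : ℝ) ≤ Real.exp 1 := Real.one_le_exp (by norm_num)
    linarith
  have hTk1 : 1 ≤ T ^ κ := Real.one_le_rpow hT1 hκ.le
  set N := ⌊T ^ κ⌋₊ with hN
  have hN1 : 1 ≤ N := by
    rw [hN, Nat.one_le_floor_iff]
    exact hTk1
  have hNpos : (0 : ℝ) < N := by exact_mod_cast hN1
  have hNle : (N : ℝ) ≤ T ^ κ := Nat.floor_le (by positivity)
  have hNlt : T ^ κ < N + 1 := Nat.lt_floor_add_one _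
  have hlogk : Real.log (T ^ κ) = κ * L := Real.log_rpow hTpos κ
  have hlogN : Real.log N ≤ κ * L := by
    rw [← hlogk]
    exact Real.log_le_log hNpos hNle
  have hlogN0 : 0 ≤ Real.log N := Real.log_nonneg (by exact_mod_cast hN1)
  have hlogN' : κ * L - Real.log N ≤ 1 := by
    rw [← hlogk, ← Real.log_div (by positivity) hNpos.ne']
    have h1 : T ^ κ / N ≤ 2 := by
      rw [div_le_iff₀ hNpos]
      have : (1 : ℝ) ≤ N := by exact_mod_cast hN1
      linarith
    have h2 := Real.log_le_log (by positivity) h1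
    have h3 : Real.log 2 < 1 := by have := Real.log_two_lt_d9; linarith
    linarith
  have hkL : κ * L ≤ L := by nlinarith
  have hmain := abel_main L M c C0 hLpos hM f hlip hE N hN1 (hlogN.trans hkL)
  set a := Real.log N / L with ha
  have ha0 : 0 ≤ a := div_nonneg hlogN0 hLpos.le
  have hak : a ≤ κ := by rw [ha, div_le_iff₀ hLpos]; exact hlogN
  have ha1 : a ≤ 1 := hak.trans hκ1.le
  have hcont : ContinuousOn f (Icc (0 : ℝ) 1) := by
    have : LipschitzOnWith (Real.toNNReal M) f (Icc (0 : ℝ) 1) := by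
      apply LipschitzOnWith.of_dist_le_mul
      intro x hx y hy
      rw [Real.dist_eq, Real.dist_eq]
      refine (hlip x hx y hy).trans ?_
      exact mul_le_mul_of_nonneg_right (Real.le_coe_toNNReal M) (abs_nonneg _)
    exact this.continuousOn
  have hint1 : IntervalIntegrable f volume 0 a := by
    apply ContinuousOn.intervalIntegrable
    rw [uIcc_of_le ha0]
    exact hcont.mono (Icc_subset_Icc le_rfl ha1)
  have hint2 : IntervalIntegrable f volume a κ := by
    apply ContinuousOn.intervalIntegrable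
    rw [uIcc_of_le hak]
    exact hcont.mono (Icc_subset_Icc ha0 hκ1.le)
  have hsplit := intervalIntegral.integral_add_adjacent_intervals hint1 hint2
  rw [← hsplit]
  have h2 : |∫ x in a..κ, f x| ≤ M * (κ - a) := by
    have : ∀ x ∈ uIoc a κ, ‖f x‖ ≤ M := by
      intro x hx
      rw [uIoc_of_le hak] at hx
      exact hf x ⟨ha0.trans hx.1.le, hx.2.trans hκ1.le⟩
    have h3 := intervalIntegral.norm_integral_le_of_norm_le_const this
    rwa [abs_of_nonneg (by linarith), Real.norm_eq_abs] at h3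
  have h4 : L * (κ - a) ≤ 1 := by
    have : L * a = Real.log N := by rw [ha]; field_simp
    rw [mul_sub, this]
    linarith
  have h5 : |c * (L * ∫ x in a..κ, f x)| ≤ |c| * M := by
    rw [abs_mul, abs_mul, abs_of_pos hLpos]
    apply mul_le_mul_of_nonneg_left _ (abs_nonneg _)
    calc L * |∫ x in a..κ, f x| ≤ L * (M * (κ - a)) := mul_le_mul_of_nonneg_left h2 hLpos.le
      _ = M * (L * (κ - a)) := by ring
      _ ≤ M * 1 := mul_le_mul_of_nonneg_left h4 hM
      _ = M := mul_one M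
  have h6 : |(SS N - c * Real.log N) * f a| ≤ C0 * M := by
    rw [abs_mul]
    exact mul_le_mul (hE N hN1) (hf a ⟨ha0, ha1⟩) (abs_nonneg _) hC0
  have h7 : (C0 + |c|) * M * a ≤ (C0 + |c|) * M := by
    have : 0 ≤ (C0 + |c|) * M := by positivity
    nlinarith
  set S0 := ∑ m ∈ Finset.Icc 1 N, ((ArithmeticFunction.moebius m : ℤ) : ℝ) ^ 2 / m *
        f (Real.log m / L) with hS0
  have key : S0 - c * (L * ((∫ x in (0 : ℝ)..a, f x) + ∫ x in a..κ, f x)) =
      (S0 - c * (L * ∫ x in (0 : ℝ)..a, f x) - (SS N - c * Real.log N) * f a) +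
      (SS N - c * Real.log N) * f a - c * (L * ∫ x in a..κ, f x) := by ring
  rw [key]
  have h8 := abs_sub ((S0 - c * (L * ∫ x in (0 : ℝ)..a, f x) - (SS N - c * Real.log N) * f a) +
      (SS N - c * Real.log N) * f a) (c * (L * ∫ x in a..κ, f x))
  have h9 := abs_add_le (S0 - c * (L * ∫ x in (0 : ℝ)..a, f x) - (SS N - c * Real.log N) * f a)
      ((SS N - c * Real.log N) * f a)
  rw [abs_of_nonneg hM]
  linarith

/-- MODULE SG10b. The constant is positive. -/
theorem const_pos : 0 < ∑' d : ℕ, ((ArithmeticFunction.moebius d : ℤ) : ℝ) / (d : ℝ) ^ 2 := by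
  have hz := hasSum_zeta_two
  have h1 : HasSum (fun n : ℕ => if n = 1 then (2 : ℝ) else 0) 2 := by
    have := hasSum_ite_eq (1 : ℕ) (2 : ℝ)
    exact this
  have h2 := h1.sub hz
  have h3 : ∀ n : ℕ, (if n = 1 then (2 : ℝ) else 0) - 1 / (n : ℝ) ^ 2 ≤
      ((ArithmeticFunction.moebius n : ℤ) : ℝ) / (n : ℝ) ^ 2 := by
    intro n
    rcases Nat.eq_zero_or_pos n with rfl | hn
    · simp
    by_cases hn1 : n = 1
    · subst hn1
      norm_num
    · rw [if_neg hn1, zero_sub, ← neg_div]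
      apply div_le_div_of_nonneg_right _ (by positivity)
      have := @ArithmeticFunction.abs_moebius_le_one n
      rw [abs_le] at this
      exact_mod_cast this.1
  have h4 := hasSum_le h3 h2 summable_sq.hasSum
  have h5 : π ^ 2 < 12 := by
    have := Real.pi_lt_d2
    have h6 := Real.pi_pos
    nlinarith
  linarith


end Pool.Agent.MP_67227b_nt.Sg
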