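import Pool.Agent.MP_67227b_nt.Sg.SgF
import Pool.Agent.MP_67227b_nt.Sg.SgT
import Pool.Agent.MP_67227b_nt.Sg.SgA

set_option autoImplicit false

open Filter Topology Set MeasureTheory Complex
open scoped Real

namespace Pool.Agent.MP_67227b_nt.Sg

open Pool.Agent.Lib.ZetaCount_helper33 Pool.Agent.MP_67227b_nt Pool.Agent.MP_67227b_nt.Mo

lemma SG5_pl32 (t : ℝ) : pl (1 / 2 + 1) t = pt32 t := by
  rw [pl, pt32]
  push_cast
  norm_num

/-- MODULE SG5a. The zeros near `t`: lower bound. -/
theorem density_lower (hRH : RiemannHypothesis) : ∃ C : ℝ, 0 < C ∧ ∀ t : ℝ, 2 ≤ t →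
    Real.log t / 2 - C ≤ ∑' z : Zer, mu z / (1 + (t - ord z) ^ 2) := by
  obtain ⟨C, hC, h⟩ := archF_near
  refine ⟨C + lam32 + 1, by have := lam32_nonneg; positivity, fun t ht => ?_⟩
  have h1 := hasSum_reF hRH one_pos t
  have h2 : ∑' z : Zer, mu z / (1 + (t - ord z) ^ 2) = (Fl t).re := by
    rw [Fl, ← SG5_pl32 t, ← h1.tsum_eq]
    refine tsum_congr fun z => ?_
    rw [one_pow]; ring
  rw [h2, Fl_eq]
  have h3 := h (3 / 2) t (by norm_num) (by norm_num) ht
  have h4 := norm_LSeries_le t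
  have h5 : pl (3 / 2) t = pt32 t := by rw [← SG5_pl32]; norm_num
  rw [h5] at h3
  have h6 := (abs_re_le_norm _).trans h3
  have h7 := (abs_re_le_norm _).trans h4
  rw [sub_re, ofReal_re] at h6
  rw [sub_re]
  have h8 := (abs_le.1 h6).1
  have h9 := (abs_le.1 h7).2
  linarith

/-- The angle. -/
noncomputable def Th (α b t : ℝ) : ℝ :=
  ∫ η in (0 : ℝ)..α, (logDeriv xi (pl (1 / 2 + b) (t + η))).re

lemma SG5_cont (hRH : RiemannHypothesis) {b : ℝ} (hb : 0 < b) (t : ℝ) :
    Continuous fun η : ℝ => (logDeriv xi (pl (1 / 2 + b) (t + η))).re := by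
  have h := continuousOn_F hRH (σ := 1 / 2 + b) (by linarith)
  exact Complex.continuous_re.comp (h.comp (continuous_const.add continuous_id))

/-- MODULE SG5b. Lower bound for the angle. -/
theorem Th_lower (hRH : RiemannHypothesis) {u β : ℝ} (hu : 0 < u) (hβ : 0 < β) :
    ∃ c : ℝ, 0 < c ∧ ∀ᶠ T : ℝ in atTop, ∀ t : ℝ, T / 2 ≤ t → t ≤ 4 * T →
      c / Real.log T ≤ Th (2 * π * u / Real.log T) (β / Real.log T) t := by
  obtain ⟨C, hC, h⟩ := density_lower hRH
  refine ⟨π * u * β / 2, by positivity, ?_⟩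
  have hlog : Tendsto Real.log atTop atTop := Real.tendsto_log_atTop
  filter_upwards [hlog.eventually_ge_atTop β, hlog.eventually_ge_atTop (4 * C + 4),
    eventually_ge_atTop (4 : ℝ)] with T hT1 hT2 hT3 t ht1 ht2
  set L := Real.log T with hL
  have hL0 : 0 < L := by linarith
  have hb0 : 0 < β / L := by positivity
  have hb1 : β / L ≤ 1 := (div_le_one hL0).2 hT1
  have hα0 : 0 ≤ 2 * π * u / L := by positivity
  have hpt : ∀ η ∈ Icc (0 : ℝ) (2 * π * u / L), β / L * (L / 4) ≤
      (logDeriv xi (pl (1 / 2 + β / L) (t + η))).re := by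
    intro η hη
    have h1 := hasSum_reF hRH hb0 (t + η)
    have h2 := h (t + η) (by linarith [hη.1])
    have h3 : β / L * ∑' z : Zer, mu z / (1 + (t + η - ord z) ^ 2) ≤
        (logDeriv xi (pl (1 / 2 + β / L) (t + η))).re := by
      rw [← tsum_mul_left]
      refine hasSum_le (fun z => ?_) ((summable_zer hRH (t + η)).mul_left _).hasSum h1
      have hm := mu_nonneg z
      have e1 : β / L * (mu z / (1 + (t + η - ord z) ^ 2)) =
          mu z * (β / L / (1 + (t + η - ord z) ^ 2)) := by ring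
      rw [e1]
      apply mul_le_mul_of_nonneg_left _ hm
      apply div_le_div_of_nonneg_left hb0.le (by positivity)
      nlinarith
    refine le_trans ?_ h3
    apply mul_le_mul_of_nonneg_left _ hb0.le
    refine le_trans ?_ h2
    have h4 : L - 1 ≤ Real.log (t + η) := by
      have h5 : Real.log (T / 2) ≤ Real.log (t + η) :=
        Real.log_le_log (by linarith) (by linarith [hη.1])
      have h6 : Real.log (T / 2) = L - Real.log 2 := Real.log_div (by linarith) (by norm_num)
      have h7 : Real.log 2 ≤ 1 := by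
        have := Real.log_two_lt_d9; linarith
      linarith
    linarith
  have hint := intervalIntegral.integral_mono_on hα0
    (show IntervalIntegrable (fun _ : ℝ => β / L * (L / 4)) volume 0 (2 * π * u / L) from
      intervalIntegrable_const)
    ((SG5_cont hRH hb0 t).intervalIntegrable 0 (2 * π * u / L)) hpt
  rw [intervalIntegral.integral_const, smul_eq_mul, sub_zero] at hint
  rw [Th]
  refine le_trans (le_of_eq ?_) hint
  field_simp
  ring

/-- The Poisson kernel. -/
noncomputable def SG5_P (b t x : ℝ) : ℝ := b / (b ^ 2 + (t - x) ^ 2)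

lemma SG5_P_nonneg {b : ℝ} (hb : 0 < b) (t x : ℝ) : 0 ≤ SG5_P b t x := by
  unfold SG5_P; positivity

lemma SG5_P_cont {b : ℝ} (hb : 0 < b) (t : ℝ) : Continuous (SG5_P b t) := by
  unfold SG5_P
  refine continuous_const.div (by fun_prop) fun x => ?_
  positivity

lemma SG5_P_eq {b : ℝ} (hb : 0 < b) (t x : ℝ) :
    SG5_P b t x = b⁻¹ * (1 + (b⁻¹ * (x - t)) ^ 2)⁻¹ := by
  unfold SG5_P
  have h1 : b ^ 2 + (t - x) ^ 2 ≠ 0 := by positivity
  have h2 : (1 + (b⁻¹ * (x - t)) ^ 2) ≠ 0 := by positivity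
  field_simp
  ring

lemma SG5_P_int {b : ℝ} (hb : 0 < b) (t : ℝ) : Integrable (SG5_P b t) := by
  have h : SG5_P b t = fun x => b⁻¹ * (fun y => (1 + (b⁻¹ * y) ^ 2)⁻¹) (x - t) := by
    funext x; exact SG5_P_eq hb t x
  rw [h]
  apply Integrable.const_mul
  have h2 : Integrable (fun y : ℝ => (1 + (b⁻¹ * y) ^ 2)⁻¹) :=
    integrable_inv_one_add_sq.comp_mul_left' (inv_ne_zero hb.ne')
  exact h2.comp_sub_right t

lemma SG5_P_pi {b : ℝ} (hb : 0 < b) (t : ℝ) : ∫ x, SG5_P b t x = π := by
  have h : SG5_P b t = fun x => b⁻¹ * (fun y => (1 + (b⁻¹ * y) ^ 2)⁻¹) (x - t) := by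
    funext x; exact SG5_P_eq hb t x
  rw [h, integral_const_mul, integral_sub_right_eq_self (fun y => (1 + (b⁻¹ * y) ^ 2)⁻¹) t]
  rw [Measure.integral_comp_mul_left (fun y => (1 + y ^ 2)⁻¹) b⁻¹, integral_univ_inv_one_add_sq,
    inv_inv, abs_of_pos hb, smul_eq_mul, ← mul_assoc, inv_mul_cancel₀ hb.ne', one_mul]

/-- Disjoint segments. -/
lemma SG5_disj {b a t : ℝ} (hb : 0 < b) (ha : 0 ≤ a) (S : Finset Zer)
    (hS : ∀ z ∈ S, ∀ z' ∈ S, z ≠ z' → a < |ord z - ord z'|) :
    ∑ z ∈ S, ∫ x in (ord z - a)..(ord z), SG5_P b t x ≤ π := by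
  have h1 : ∀ z ∈ S, ∫ x in (ord z - a)..(ord z), SG5_P b t x =
      ∫ x in Ioc (ord z - a) (ord z), SG5_P b t x := by
    intro z _
    exact intervalIntegral.integral_of_le (by linarith)
  rw [Finset.sum_congr rfl h1, ← integral_biUnion_finset S (fun z _ => measurableSet_Ioc) ?_
    (fun z _ => (SG5_P_int hb t).integrableOn)]
  · rw [← SG5_P_pi hb t]
    exact setIntegral_le_integral (SG5_P_int hb t)
      (Eventually.of_forall fun x => SG5_P_nonneg hb t x)
  · intro z hz z' hz' hne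
    rw [Function.onFun, Set.disjoint_left]
    intro x hx hx'
    have := hS z hz z' hz' hne
    rw [lt_abs] at this
    rcases this with h | h
    · linarith [hx.1, hx.2, hx'.1, hx'.2]
    · linarith [hx.1, hx.2, hx'.1, hx'.2]

/-- One zero: the integral over `η` in terms of the integral over a segment. -/
lemma SG5_subst {b : ℝ} (hb : 0 < b) (α t o : ℝ) :
    ∫ η in (0 : ℝ)..α, b / (b ^ 2 + (t + η - o) ^ 2) = ∫ x in (o - α)..o, SG5_P b t x := by
  have h := intervalIntegral.integral_comp_sub_left (fun x => SG5_P b t x) o (a := 0) (b := α)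
  rw [sub_zero] at h
  rw [← h]
  refine intervalIntegral.integral_congr fun η _ => ?_
  unfold SG5_P
  rw [show t - (o - η) = t + η - o by ring]

/-- The part of a segment which is not used. -/
lemma SG5_gap {b a α t o : ℝ} (hb : 0 < b) (hb1 : b ≤ 1) (hα : 0 ≤ α) (ha : α ≤ a)
    (ha1 : a ≤ 1) :
    ∫ x in (o - α)..o, SG5_P b t x ≤
      (∫ x in (o - a)..o, SG5_P b t x) - (a - α) * (b / 3) * (1 / (1 + (t - o) ^ 2)) := by
  have hc := SG5_P_cont hb t
  have h1 := intervalIntegral.integral_add_adjacent_intervals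
    (hc.intervalIntegrable (μ := volume) (o - a) (o - α)) (hc.intervalIntegrable (o - α) o)
  have h2 : (a - α) * (b / 3) * (1 / (1 + (t - o) ^ 2)) ≤
      ∫ x in (o - a)..(o - α), SG5_P b t x := by
    have h3 := intervalIntegral.integral_mono_on (μ := volume) (a := o - a) (b := o - α)
      (f := fun _ => b / 3 * (1 / (1 + (t - o) ^ 2))) (g := SG5_P b t) (by linarith)
      (intervalIntegrable_const) (hc.intervalIntegrable _ _) ?_
    · rw [intervalIntegral.integral_const, smul_eq_mul] at h3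
      refine le_trans (le_of_eq ?_) h3
      ring
    · intro x hx
      unfold SG5_P
      have h4 : b ^ 2 + (t - x) ^ 2 ≤ 3 * (1 + (t - o) ^ 2) := by
        have h5 : (o - x) ^ 2 ≤ 1 := by
          have h6 : 0 ≤ o - x := by linarith [hx.2]
          have h7 : o - x ≤ 1 := by linarith [hx.1]
          nlinarith
        have h8 : (t - x) ^ 2 ≤ 2 * (t - o) ^ 2 + 2 * (o - x) ^ 2 := by nlinarith [sq_nonneg ((t - o) - (o - x))]
        have h9 : b ^ 2 ≤ 1 := by nlinarith
        nlinarith [sq_nonneg (t - o)]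
      have h5 : b / 3 * (1 / (1 + (t - o) ^ 2)) = b / (3 * (1 + (t - o) ^ 2)) := by
        field_simp
      rw [h5]
      exact div_le_div_of_nonneg_left hb.le (by positivity) h4
  linarith

/-- Uniform approximation by finite sums. -/
lemma SG5_fin (hRH : RiemannHypothesis) {b α t : ℝ} (hb : 0 < b) (hb1 : b ≤ 1)
    (hα : 0 ≤ α) (hα1 : α ≤ 1) (S : Finset Zer) :
    Th α b t ≤ ∑ z ∈ S, mu z * (∫ x in (ord z - α)..(ord z), SG5_P b t x) +
      α * (3 / b * (∑' z : Zer, mu z / (1 + (t - ord z) ^ 2) -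
        ∑ z ∈ S, mu z / (1 + (t - ord z) ^ 2))) := by
  set g : Zer → ℝ := fun z => mu z / (1 + (t - ord z) ^ 2) with hg
  have hgs : Summable g := summable_zer hRH t
  have hpt : ∀ η ∈ Icc (0 : ℝ) α, (logDeriv xi (pl (1 / 2 + b) (t + η))).re ≤
      ∑ z ∈ S, mu z * (b / (b ^ 2 + (t + η - ord z) ^ 2)) +
        3 / b * (∑' z, g z - ∑ z ∈ S, g z) := by
    intro η hη
    have h1 := hasSum_reF hRH hb (t + η)
    have hcmp : ∀ z : Zer, mu z * (b / (b ^ 2 + (t + η - ord z) ^ 2)) ≤ 3 / b * g z := by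
      intro z
      have hm := mu_nonneg z
      have e1 : 3 / b * g z = mu z * (3 / b / (1 + (t - ord z) ^ 2)) := by
        rw [hg]; ring
      rw [e1]
      apply mul_le_mul_of_nonneg_left _ hm
      rw [div_le_div_iff₀ (by positivity) (by positivity)]
      set y := t + η - ord z with hy
      have e2 : t - ord z = y - η := by rw [hy]; ring
      rw [e2]
      have e3 : η ^ 2 ≤ 1 := by nlinarith [hη.1, hη.2]
      have e4 : 1 + (y - η) ^ 2 ≤ 3 + 2 * y ^ 2 := by nlinarith [sq_nonneg (y + η)]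
      have e5 : b * (3 + 2 * y ^ 2) ≤ 3 / b * (b ^ 2 + y ^ 2) := by
        rw [div_mul_eq_mul_div, le_div_iff₀ hb]
        have e6 : b ^ 2 ≤ 1 := by nlinarith
        nlinarith [sq_nonneg y, mul_nonneg (sq_nonneg y) (by linarith : (0:ℝ) ≤ 1 - b ^ 2)]
      calc b * (1 + (y - η) ^ 2) ≤ b * (3 + 2 * y ^ 2) := mul_le_mul_of_nonneg_left e4 hb.le
        _ ≤ _ := e5
    have h2 : HasSum (fun z => 3 / b * g z - mu z * (b / (b ^ 2 + (t + η - ord z) ^ 2)))
        (3 / b * ∑' z, g z - (logDeriv xi (pl (1 / 2 + b) (t + η))).re) :=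
      (hgs.hasSum.mul_left _).sub h1
    have h3 := sum_le_hasSum S (fun z _ => sub_nonneg.2 (hcmp z)) h2
    rw [Finset.sum_sub_distrib, ← Finset.mul_sum] at h3
    linarith
  have hcont : ∀ z : Zer, Continuous fun η : ℝ => mu z * (b / (b ^ 2 + (t + η - ord z) ^ 2)) := by
    intro z
    refine continuous_const.mul (continuous_const.div (by fun_prop) fun x => ?_)
    positivity
  have hcs : Continuous fun η : ℝ => ∑ z ∈ S, mu z * (b / (b ^ 2 + (t + η - ord z) ^ 2)) +
      3 / b * (∑' z, g z - ∑ z ∈ S, g z) :=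
    (continuous_finsetSum S fun z _ => hcont z).add continuous_const
  have h4 := intervalIntegral.integral_mono_on hα
    ((SG5_cont hRH hb t).intervalIntegrable (μ := volume) 0 α) (hcs.intervalIntegrable 0 α) hpt
  rw [Th]
  refine h4.trans (le_of_eq ?_)
  rw [intervalIntegral.integral_add
    ((continuous_finsetSum S fun z _ => hcont z).intervalIntegrable _ _)
    (intervalIntegrable_const), intervalIntegral.integral_const, smul_eq_mul, sub_zero,
    intervalIntegral.integral_finsetSum fun z _ => (hcont z).intervalIntegrable _ _]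
  congr 1
  refine Finset.sum_congr rfl fun z _ => ?_
  rw [intervalIntegral.integral_const_mul, SG5_subst hb]

/-- A zero far away. -/
lemma SG5_far {b α t o : ℝ} (hb : 0 < b) (hα : 0 ≤ α) (hα1 : α ≤ 1 / 2) (hto : 1 ≤ |t - o|) :
    ∫ x in (o - α)..o, SG5_P b t x ≤ 4 * α * b * (1 / (t - o) ^ 2) := by
  have hne : t - o ≠ 0 := by
    intro h; rw [h, abs_zero] at hto; linarith
  have h3 := intervalIntegral.integral_mono_on (μ := volume) (a := o - α) (b := o)
    (f := SG5_P b t) (g := fun _ => 4 * b * (1 / (t - o) ^ 2)) (by linarith)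
    ((SG5_P_cont hb t).intervalIntegrable _ _) (intervalIntegrable_const) ?_
  · rw [intervalIntegral.integral_const, smul_eq_mul] at h3
    refine h3.trans (le_of_eq ?_)
    ring
  · intro x hx
    unfold SG5_P
    have h1 : |o - x| ≤ 1 / 2 := by
      rw [abs_of_nonneg (by linarith [hx.2])]
      linarith [hx.1]
    have h2 : |t - o| ≤ |t - x| + |o - x| := by
      have := abs_sub_le t x o
      rw [abs_sub_comm x o] at this
      exact this
    have h4 : |t - o| / 2 ≤ |t - x| := by linarith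
    have h5 : (t - o) ^ 2 / 4 ≤ (t - x) ^ 2 := by
      rw [← sq_abs (t - o), ← sq_abs (t - x)]
      nlinarith [abs_nonneg (t - o), abs_nonneg (t - x)]
    have h6 : 0 < (t - o) ^ 2 := by positivity
    have h7 : 4 * b * (1 / (t - o) ^ 2) = b / ((t - o) ^ 2 / 4) := by
      field_simp
    rw [h7]
    exact div_le_div_of_nonneg_left hb.le (by positivity) (by nlinarith [sq_nonneg b])

/-- MODULE SG5c. Upper bound for the angle, for separated zeros. -/
theorem Th_upper (hRH : RiemannHypothesis) {lam u θ β : ℝ} (hu : 0 < u) (hul : u < lam)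
    (hθ : 0 < θ) (hθ1 : θ < 1) (hβ : 0 < β) :
    ∃ c : ℝ, 0 < c ∧ ∀ᶠ T : ℝ in atTop, Sep (Icc T (T + T ^ θ)) (2 * π * lam / Real.log T) →
      ∀ t : ℝ, |t - (T + T ^ θ / 2)| ≤ T ^ θ / 4 →
        Th (2 * π * u / Real.log T) (β / Real.log T) t ≤ π - c / Real.log T := by
  classical
  obtain ⟨C1, hC1, hden⟩ := density_lower hRH
  obtain ⟨C2, hC2, htail⟩ := tail_le hRH
  have hlu : 0 < lam - u := by linarith
  have hlam : 0 < lam := by linarith
  obtain ⟨c, hc⟩ : ∃ c : ℝ, c = π * (lam - u) * β / 18 := ⟨_, rfl⟩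
  have hc0 : 0 < c := by rw [hc]; positivity
  refine ⟨c, hc0, ?_⟩
  have hlog : Tendsto Real.log atTop atTop := Real.tendsto_log_atTop
  have hpow : Tendsto (fun T : ℝ => T ^ θ) atTop atTop := tendsto_rpow_atTop hθ
  have hlo := (isLittleO_log_rpow_atTop hθ).bound (show (0 : ℝ) < 1 / (4 * C2) by positivity)
  filter_upwards [hlog.eventually_ge_atTop β, hlog.eventually_ge_atTop (4 * π * lam),
    hlog.eventually_ge_atTop (4 * C1 + 8), eventually_ge_atTop (4 : ℝ),
    hpow.eventually_ge_atTop 4, hpow.eventually_ge_atTop (32 * π * u * β * C2 / c), hlo]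
    with T hT1 hT2 hT3 hT4 hT5 hT6 hT7 hsep t ht
  set L := Real.log T with hL
  have hL0 : 0 < L := by linarith
  have hT0 : (0 : ℝ) < T := by linarith
  have hX1 : 1 ≤ T ^ θ / 4 := by linarith
  have hTθ : T ^ θ ≤ T := by
    calc T ^ θ ≤ T ^ (1 : ℝ) := Real.rpow_le_rpow_of_exponent_le (by linarith) hθ1.le
      _ = T := Real.rpow_one T
  have hX0 : 0 < T ^ θ / 4 := by linarith
  set X := T ^ θ / 4 with hX
  have hXT : X ≤ T := by rw [hX]; linarith
  rw [abs_le] at ht
  have ht1 : T + X ≤ t := by rw [hX]; linarith [ht.1]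
  have ht2 : t ≤ T + 3 * X := by rw [hX]; linarith [ht.2]
  have ht3 : t ≤ 4 * T := by linarith
  have ht4 : T / 2 ≤ t := by linarith
  -- numerical consequences
  have hCX : C2 * L / X ≤ 1 := by
    rw [Real.norm_of_nonneg hL0.le, Real.norm_of_nonneg (by positivity)] at hT7
    rw [div_le_one hX0]
    have := mul_le_mul_of_nonneg_left hT7 hC2.le
    refine this.trans (le_of_eq ?_)
    rw [hX]; field_simp
  have hCX2 : 4 * (2 * π * u / L) * (β / L) * (C2 * L / X) ≤ c / L := by
    have h1 : 8 * π * u * β * C2 / c ≤ X := by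
      rw [hX]
      refine le_trans (le_of_eq ?_) (div_le_div_of_nonneg_right hT6 (by norm_num : (0:ℝ) ≤ 4))
      ring
    rw [div_le_iff₀ hc0] at h1
    have h2 : 4 * (2 * π * u / L) * (β / L) * (C2 * L / X) = (8 * π * u * β * C2) / X / L := by
      field_simp
      ring
    rw [h2]
    apply div_le_div_of_nonneg_right _ hL0.le
    rw [div_le_iff₀ hX0]
    linarith
  set b := β / L with hb
  set α := 2 * π * u / L with hα
  set a := 2 * π * lam / L with ha
  have hb0 : 0 < b := by positivity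
  have hb1 : b ≤ 1 := (div_le_one hL0).2 hT1
  have hα0 : 0 ≤ α := by positivity
  have hαa : α ≤ a := by
    rw [hα, ha]
    apply div_le_div_of_nonneg_right _ hL0.le
    nlinarith [Real.pi_pos]
  have ha1 : a ≤ 1 / 2 := by
    rw [ha, div_le_iff₀ hL0]; linarith
  have ha0 : 0 ≤ a := hα0.trans hαa
  have hα1 : α ≤ 1 / 2 := hαa.trans ha1
  -- the finite set
  set g : Zer → ℝ := fun z => mu z / (1 + (t - ord z) ^ 2) with hg
  have hgs : Summable g := summable_zer hRH t
  obtain ⟨δ, hδ0, hδ1, hδ2⟩ : ∃ δ : ℝ, 0 < δ ∧ δ ≤ 1 ∧ α * (3 / b * δ) ≤ c / L := by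
    refine ⟨min 1 (c / L / (α * (3 / b) + 1)), by positivity, min_le_left _ _, ?_⟩
    have h1 : 0 ≤ α * (3 / b) := by positivity
    calc α * (3 / b * min 1 (c / L / (α * (3 / b) + 1)))
        = α * (3 / b) * min 1 (c / L / (α * (3 / b) + 1)) := by ring
      _ ≤ α * (3 / b) * (c / L / (α * (3 / b) + 1)) :=
          mul_le_mul_of_nonneg_left (min_le_right _ _) h1
      _ ≤ (α * (3 / b) + 1) * (c / L / (α * (3 / b) + 1)) :=
          mul_le_mul_of_nonneg_right (by linarith) (by positivity)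
      _ = c / L := by field_simp
  obtain ⟨S, hS⟩ : ∃ S : Finset Zer, ∑' z, g z - ∑ z ∈ S, g z < δ := by
    have h0 : Tendsto (fun S : Finset Zer => ∑ z ∈ S, g z) atTop (𝓝 (∑' z, g z)) := by
      have := hgs.hasSum
      rw [HasSum, SummationFilter.unconditional_filter] at this
      exact this
    have h1 : ∀ᶠ S in (atTop : Filter (Finset Zer)), ∑' z, g z - δ < ∑ z ∈ S, g z :=
      h0.eventually_const_lt (by linarith)
    obtain ⟨S, hS⟩ := h1.exists
    exact ⟨S, by linarith⟩
  have hfin := SG5_fin hRH hb0 hb1 hα0 (by linarith : α ≤ 1) (t := t) S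
  -- split
  rw [← Finset.sum_filter_add_sum_filter_not S (fun z => ord z ∈ Icc T (T + T ^ θ))] at hfin
  set S1 := S.filter (fun z => ord z ∈ Icc T (T + T ^ θ)) with hS1
  set S2 := S.filter (fun z => ¬ ord z ∈ Icc T (T + T ^ θ)) with hS2
  have hfar : ∀ z ∈ S2, X ≤ |t - ord z| := by
    intro z hz
    have h1 := (Finset.mem_filter.1 hz).2
    rw [mem_Icc, not_and_or, not_le, not_le] at h1
    rcases h1 with h | h
    · rw [le_abs]; left; linarith
    · rw [le_abs]; right
      have : T ^ θ = 4 * X := by rw [hX]; ring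
      linarith
  have hY := htail T t X (by linarith) ht4 ht3 hX1 hXT S2 hfar
  have hsum2 : ∑ z ∈ S2, mu z * (∫ x in (ord z - α)..(ord z), SG5_P b t x) ≤ c / L := by
    calc ∑ z ∈ S2, mu z * (∫ x in (ord z - α)..(ord z), SG5_P b t x)
        ≤ ∑ z ∈ S2, mu z * (4 * α * b * (1 / (t - ord z) ^ 2)) := by
          refine Finset.sum_le_sum fun z hz => ?_
          exact mul_le_mul_of_nonneg_left (SG5_far hb0 hα0 hα1 (hX1.trans (hfar z hz)))
            (mu_nonneg z)
      _ = 4 * α * b * ∑ z ∈ S2, mu z / (t - ord z) ^ 2 := by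
          rw [Finset.mul_sum]
          refine Finset.sum_congr rfl fun z _ => ?_
          ring
      _ ≤ 4 * α * b * (C2 * L / X) := mul_le_mul_of_nonneg_left hY (by positivity)
      _ ≤ c / L := hCX2
  have hg2 : ∑ z ∈ S2, g z ≤ 1 := by
    calc ∑ z ∈ S2, g z ≤ ∑ z ∈ S2, mu z / (t - ord z) ^ 2 := by
          refine Finset.sum_le_sum fun z hz => ?_
          have h1 := hfar z hz
          have h2 : 0 < |t - ord z| := by linarith
          have h3 : 0 < (t - ord z) ^ 2 := by rw [← sq_abs]; positivity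
          exact div_le_div_of_nonneg_left (mu_nonneg z) h3 (by linarith)
      _ ≤ C2 * L / X := hY
      _ ≤ 1 := hCX
  have hg1 : L / 4 ≤ ∑ z ∈ S1, g z := by
    have h1 := Finset.sum_filter_add_sum_filter_not S (fun z => ord z ∈ Icc T (T + T ^ θ)) g
    have h2 := hden t (by linarith)
    have h3 : L ≤ Real.log t := Real.log_le_log hT0 (by linarith)
    linarith
  have hsum1 : ∑ z ∈ S1, mu z * (∫ x in (ord z - α)..(ord z), SG5_P b t x) ≤
      π - (a - α) * (b / 3) * (L / 4) := by
    have hone : ∀ z ∈ S1, mu z = 1 := fun z hz => hsep.1 z (Finset.mem_filter.1 hz).2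
    calc ∑ z ∈ S1, mu z * (∫ x in (ord z - α)..(ord z), SG5_P b t x)
        ≤ ∑ z ∈ S1, ((∫ x in (ord z - a)..(ord z), SG5_P b t x) -
            (a - α) * (b / 3) * g z) := by
          refine Finset.sum_le_sum fun z hz => ?_
          have h1 := SG5_gap (t := t) (o := ord z) hb0 hb1 hα0 hαa (by linarith)
          rw [hone z hz, one_mul, hg]
          simp only
          rw [hone z hz]
          exact h1
      _ = ∑ z ∈ S1, (∫ x in (ord z - a)..(ord z), SG5_P b t x) -
            (a - α) * (b / 3) * ∑ z ∈ S1, g z := by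
          rw [Finset.sum_sub_distrib, Finset.mul_sum]
      _ ≤ π - (a - α) * (b / 3) * (L / 4) := by
          have h1 := SG5_disj hb0 ha0 (t := t) S1 (fun z hz z' hz' hne =>
            hsep.2 z z' (Finset.mem_filter.1 hz).2 (Finset.mem_filter.1 hz').2 hne)
          have h2 : 0 ≤ (a - α) * (b / 3) := by
            have : 0 ≤ a - α := by linarith
            positivity
          have h3 := mul_le_mul_of_nonneg_left hg1 h2
          linarith
  have hmain : (a - α) * (b / 3) * (L / 4) = 3 * (c / L) := by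
    rw [ha, hα, hb, hc]
    field_simp
    ring
  have hlast : α * (3 / b * (∑' z, g z - ∑ z ∈ S, g z)) ≤ c / L := by
    refine le_trans ?_ hδ2
    apply mul_le_mul_of_nonneg_left _ hα0
    exact mul_le_mul_of_nonneg_left hS.le (by positivity)
  linarith

end Pool.Agent.MP_67227b_nt.Sg
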