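import Pool.Agent.MP_67227b_nt.Sg.SgP

set_option autoImplicit false

open Filter Topology Set MeasureTheory Complex
open scoped Real

namespace Pool.Agent.MP_67227b_nt.Sg

open Pool.Agent.Lib.ZetaCount_helper33 Pool.Agent.MP_67227b_nt Pool.Agent.MP_67227b_nt.Mo

private lemma arch_int {σ α t : ℝ} (hσ : 1 / 2 < σ) (hα : 0 ≤ α) (ht : 0 < t) :
    IntervalIntegrable (fun η : ℝ => archF (pl σ (t + η))) volume 0 α := by
  apply ContinuousOn.intervalIntegrable
  rw [Set.uIcc_of_le hα]
  have h1 := continuousOn_archF hσ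
  exact h1.comp (by fun_prop) (fun η hη => by
    simp only [mem_Ioi]
    have := hη.1
    linarith)

private lemma F_int (hRH : RiemannHypothesis) {σ α t : ℝ} (hσ : 1 / 2 < σ) :
    IntervalIntegrable (fun η : ℝ => logDeriv xi (pl σ (t + η))) volume 0 α := by
  apply Continuous.intervalIntegrable
  exact (continuousOn_F hRH hσ).comp (by fun_prop)

private lemma im_exp (ψ : ℝ) (Z : ℂ) : (Complex.exp (I * ψ) * Complex.exp (I * Z)).im =
    Real.exp (-Z.im) * Real.sin (ψ + Z.re) := by
  rw [← Complex.exp_add, Complex.exp_im]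
  congr 2
  · simp
  · simp

/-- MODULE SG6. Positivity on the line at distance `β / log T` from the critical line. -/
theorem Hq_im_nonneg (hRH : RiemannHypothesis) {lam u θ β : ℝ} (hu : 0 < u) (hul : u < lam)
    (hθ : 0 < θ) (hθ1 : θ < 1) (hβ : 0 < β) :
    ∃ C : ℝ, 0 < C ∧ ∀ᶠ T : ℝ in atTop, Sep (Icc T (T + T ^ θ)) (2 * π * lam / Real.log T) →
      ∃ ψ : ℝ, |ψ - π * u| ≤ C / Real.log T ∧
        ∀ t : ℝ, |t - (T + T ^ θ / 2)| ≤ T ^ θ / 4 →
          0 ≤ (Complex.exp (I * ψ) *
            Hq (2 * π * u / Real.log T) (pl (1 / 2 + β / Real.log T) t)).im := by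
  obtain ⟨c1, hc1, hL⟩ := Th_lower hRH hu hβ
  obtain ⟨c2, hc2, hU⟩ := Th_upper hRH hu hul hθ hθ1 hβ
  obtain ⟨C1, hC1, hnear⟩ := archF_near
  obtain ⟨C2, hC2, hlip⟩ := archF_lip
  refine ⟨2 * π * u * (C1 + 1), by positivity, ?_⟩
  have e1 : ∀ᶠ T : ℝ in atTop, β ≤ Real.log T := Real.tendsto_log_atTop.eventually_ge_atTop _
  have e2 : ∀ᶠ T : ℝ in atTop, 2 * π * u ≤ Real.log T :=
    Real.tendsto_log_atTop.eventually_ge_atTop _
  have e3 : ∀ᶠ T : ℝ in atTop, (1 : ℝ) ≤ Real.log T := Real.tendsto_log_atTop.eventually_ge_atTop _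
  have e4 : ∀ᶠ T : ℝ in atTop, (16 : ℝ) ≤ T := eventually_ge_atTop _
  have e5 : ∀ᶠ T : ℝ in atTop, 2 * π * u * C2 / min c1 c2 ≤ T ^ (1 - θ) :=
    (tendsto_rpow_atTop (by linarith)).eventually_ge_atTop _
  filter_upwards [hL, hU, e1, e2, e3, e4, e5] with T hL hU h1 h2 h3 h4 h5 hSep
  have hTpos : 0 < T := by linarith
  have hlog : 0 < Real.log T := by linarith
  set α : ℝ := 2 * π * u / Real.log T with hα
  have hα0 : 0 < α := by positivity
  have hα1 : α ≤ 1 := (div_le_one hlog).mpr h2
  set σ : ℝ := 1 / 2 + β / Real.log T with hσ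
  have hb0 : 0 < β / Real.log T := by positivity
  have hb1 : β / Real.log T ≤ 1 := (div_le_one hlog).mpr h1
  have hσ1 : 1 / 2 < σ := by rw [hσ]; linarith
  have hσ2 : σ ≤ 2 := by rw [hσ]; linarith
  set P : ℝ := T ^ θ with hP
  have hPpos : 0 < P := Real.rpow_pos_of_pos hTpos _
  have hPT : P * T ^ (1 - θ) = T := by
    rw [hP, ← Real.rpow_add hTpos]
    have : θ + (1 - θ) = 1 := by ring
    rw [this, Real.rpow_one]
  have hPle : P ≤ T := by
    have := Real.rpow_le_rpow_of_exponent_le (by linarith : (1 : ℝ) ≤ T) hθ1.le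
    rwa [Real.rpow_one] at this
  set t₀ : ℝ := T + P / 2 with ht₀
  set A : ℝ → ℂ := fun t => ∫ η in (0 : ℝ)..α, archF (pl σ (t + η)) with hA
  refine ⟨(A t₀).re, ?_, ?_⟩
  · -- the phase
    have h6 : ‖A t₀ - ((α * (Real.log T / 2) : ℝ) : ℂ)‖ ≤ (C1 + 1) * |α - 0| := by
      have h7 : A t₀ - ((α * (Real.log T / 2) : ℝ) : ℂ) =
          ∫ η in (0 : ℝ)..α, (archF (pl σ (t₀ + η)) - ((Real.log T / 2 : ℝ) : ℂ)) := by
        rw [intervalIntegral.integral_sub (arch_int hσ1 hα0.le (by positivity))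
          intervalIntegrable_const, intervalIntegral.integral_const]
        simp [hA]
      rw [h7]
      apply intervalIntegral.norm_integral_le_of_norm_le_const
      intro η hη
      rw [Set.uIoc_of_le hα0.le] at hη
      have h8 := hnear σ (t₀ + η) hσ1 hσ2 (by have := hη.1; rw [ht₀]; linarith)
      have h9 : ‖((Real.log (t₀ + η) / 2 : ℝ) : ℂ) - ((Real.log T / 2 : ℝ) : ℂ)‖ ≤ 1 := by
        rw [← Complex.ofReal_sub, norm_real, Real.norm_eq_abs]
        have h10 : Real.log T ≤ Real.log (t₀ + η) :=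
          Real.log_le_log hTpos (by have := hη.1; rw [ht₀]; linarith)
        have h11 : Real.log (t₀ + η) ≤ Real.log (2 * T) :=
          Real.log_le_log (by have := hη.1; rw [ht₀]; linarith)
            (by have := hη.2; rw [ht₀]; linarith)
        have h12 : Real.log (2 * T) = Real.log 2 + Real.log T :=
          Real.log_mul (by norm_num) hTpos.ne'
        have h13 : Real.log 2 < 1 := by
          have := Real.log_two_lt_d9
          linarith
        rw [abs_le]
        constructor <;> linarith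
      have h14 : archF (pl σ (t₀ + η)) - ((Real.log T / 2 : ℝ) : ℂ) =
          (archF (pl σ (t₀ + η)) - ((Real.log (t₀ + η) / 2 : ℝ) : ℂ)) +
            (((Real.log (t₀ + η) / 2 : ℝ) : ℂ) - ((Real.log T / 2 : ℝ) : ℂ)) := by ring
      rw [h14]
      exact (norm_add_le _ _).trans (add_le_add h8 h9)
    have h15 := (Complex.abs_re_le_norm _).trans h6
    rw [Complex.sub_re, Complex.ofReal_re] at h15
    have h16 : α * (Real.log T / 2) = π * u := by
      rw [hα]; field_simp
    rw [h16, sub_zero, abs_of_pos hα0] at h15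
    refine h15.trans (le_of_eq ?_)
    rw [hα]
    ring
  · intro t ht
    have ht1 : |t - t₀| ≤ P / 4 := ht
    rw [abs_le] at ht
    have htpos : 0 < t := by linarith
    rw [Hq_eq_exp hRH hα0.le hσ1 htpos, im_exp]
    apply mul_nonneg (Real.exp_pos _).le
    have hsplit : (∫ η in (0 : ℝ)..α, (logDeriv xi (pl σ (t + η)) - archF (pl σ (t + η)))) =
        (∫ η in (0 : ℝ)..α, logDeriv xi (pl σ (t + η))) - A t := by
      rw [intervalIntegral.integral_sub (F_int hRH hσ1) (arch_int hσ1 hα0.le htpos)]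
    have hTh : (∫ η in (0 : ℝ)..α, logDeriv xi (pl σ (t + η))).re = Th α (β / Real.log T) t := by
      have := Complex.reCLM.intervalIntegral_comp_comm
        (F_int hRH (α := α) (t := t) hσ1)
      simp only [Complex.reCLM_apply] at this
      rw [← this, Th]
    rw [hsplit, Complex.sub_re, hTh]
    have hd : ‖A t₀ - A t‖ ≤ (C2 * (P / 4) / T) * |α - 0| := by
      have h7 : A t₀ - A t =
          ∫ η in (0 : ℝ)..α, (archF (pl σ (t₀ + η)) - archF (pl σ (t + η))) := by
        rw [intervalIntegral.integral_sub (arch_int hσ1 hα0.le (by positivity))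
          (arch_int hσ1 hα0.le htpos)]
      rw [h7]
      apply intervalIntegral.norm_integral_le_of_norm_le_const
      intro η hη
      rw [Set.uIoc_of_le hα0.le] at hη
      refine (hlip σ T (t₀ + η) (t + η) hσ1 hσ2 (by linarith)
        (by have := hη.1; rw [ht₀]; linarith) (by have := hη.1; linarith)).trans ?_
      apply div_le_div_of_nonneg_right _ hTpos.le
      apply mul_le_mul_of_nonneg_left _ hC2.le
      have : t₀ + η - (t + η) = -(t - t₀) := by ring
      rw [this, abs_neg]
      exact ht1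
    have hd2 := (Complex.abs_re_le_norm _).trans hd
    rw [Complex.sub_re, sub_zero, abs_of_pos hα0] at hd2
    have hsmall : C2 * (P / 4) / T * α ≤ min c1 c2 / Real.log T := by
      have hmin : 0 < min c1 c2 := lt_min hc1 hc2
      rw [div_le_iff₀ hmin] at h5
      rw [hα, ← mul_div_assoc]
      apply div_le_div_of_nonneg_right _ hlog.le
      rw [div_mul_eq_mul_div, div_le_iff₀ hTpos]
      have h20 : 2 * π * u * C2 * P ≤ min c1 c2 * T := by
        calc 2 * π * u * C2 * P ≤ T ^ (1 - θ) * min c1 c2 * P :=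
              mul_le_mul_of_nonneg_right h5 hPpos.le
          _ = min c1 c2 * (P * T ^ (1 - θ)) := by ring
          _ = min c1 c2 * T := by rw [hPT]
      have h21 : 0 < min c1 c2 * T := by positivity
      have h22 : C2 * (P / 4) * (2 * π * u) = 2 * π * u * C2 * P / 4 := by ring
      rw [h22]
      linarith
    have hl := hL t (by linarith) (by linarith)
    have hu' := hU hSep t (by rw [abs_le]; exact ht)
    have hm1 : min c1 c2 / Real.log T ≤ c1 / Real.log T :=
      div_le_div_of_nonneg_right (min_le_left _ _) hlog.le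
    have hm2 : min c1 c2 / Real.log T ≤ c2 / Real.log T :=
      div_le_div_of_nonneg_right (min_le_right _ _) hlog.le
    rw [abs_le] at hd2
    apply Real.sin_nonneg_of_nonneg_of_le_pi
    · linarith [hd2.1]
    · linarith [hd2.2]

end Pool.Agent.MP_67227b_nt.Sg
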