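import Pool.Agent.MP_67227b_nt.Sg.SgZ

set_option autoImplicit false

open Filter Topology Set MeasureTheory Complex
open scoped Real

namespace Pool.Agent.MP_67227b_nt.Sg

open Pool.Agent.Lib.ZetaCount_helper33 Pool.Agent.MP_67227b_nt Pool.Agent.MP_67227b_nt.Mo

/-- The ordered pairs of distinct indices of zeros with ordinates in `[T, T + H]` and normalised
difference in `[0, lam]`. -/
def closePairs (T H lam : ℝ) : Set (ZetaZeroIdx × ZetaZeroIdx) :=
  {p | p.1 ≠ p.2 ∧ zetaOrdinate p.1 ∈ Icc T (T + H) ∧ zetaOrdinate p.2 ∈ Icc T (T + H) ∧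
    (zetaOrdinate p.1 - zetaOrdinate p.2) * (Real.log T / (2 * π)) ∈ Icc 0 lam}

lemma closePairs_finite (T H lam : ℝ) : (closePairs T H lam).Finite := by
  have h := goodFamily_zeta.fin (T + H)
  refine (h.prod h).subset ?_
  rintro ⟨a, b⟩ ⟨-, h1, h2, -⟩
  exact ⟨h1.2, h2.2⟩

/-- Many pairs in short intervals. -/
theorem count_window (hRH : RiemannHypothesis) {lam θ η : ℝ} (hlam : 1 / 2 < lam)
    (hlam1 : lam ≤ 1) (hθ1 : θ ≤ 1) (hη0 : 0 ≤ η) (hη : η < θ - (1 / lam - 1)) :
    ∀ᶠ T : ℝ in atTop, T ^ η ≤ ((closePairs T (T ^ θ) lam).ncard : ℝ) := by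
  have hl0 : 0 < lam := by linarith
  have hi1 : 1 ≤ 1 / lam := by
    rw [le_div_iff₀ hl0]
    linarith
  set θ' : ℝ := ((1 / lam - 1) + (θ - η)) / 2 with hθ'
  have a1 : 1 / lam - 1 < θ' := by rw [hθ']; linarith
  have a2 : θ' < θ - η := by rw [hθ']; linarith
  have a3 : 0 < θ' := by linarith
  have a4 : θ' < 1 := by linarith
  obtain ⟨T0, hT0⟩ := eventually_atTop.mp (local_pairs hRH hlam a3 a4 a1)
  have e3 : ∀ᶠ T : ℝ in atTop, (32 : ℝ) ≤ T ^ (θ - θ' - η) :=
    (tendsto_rpow_atTop (by linarith)).eventually_ge_atTop _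
  filter_upwards [eventually_ge_atTop T0, eventually_ge_atTop (4 : ℝ), e3] with T h1 h2 h3
  have hTpos : 0 < T := by linarith
  have hT1 : 1 ≤ T := by linarith
  set P : ℝ := (2 * T) ^ θ' with hP
  have hPpos : 0 < P := Real.rpow_pos_of_pos (by linarith) _
  have hP2 : P ≤ 2 * T ^ θ' := by
    rw [hP, Real.mul_rpow (by norm_num) hTpos.le]
    have : (2 : ℝ) ^ θ' ≤ 2 ^ (1 : ℝ) := Real.rpow_le_rpow_of_exponent_le (by norm_num) a4.le
    rw [Real.rpow_one] at this
    gcongr
  have hTθ : T ^ θ ≤ T := by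
    calc T ^ θ ≤ T ^ (1 : ℝ) := Real.rpow_le_rpow_of_exponent_le hT1 hθ1
      _ = T := Real.rpow_one T
  have hTη : 1 ≤ T ^ η := Real.one_le_rpow hT1 hη0
  have hTθ'pos : 0 < T ^ θ' := Real.rpow_pos_of_pos hTpos _
  have hprod : T ^ θ = T ^ θ' * T ^ η * T ^ (θ - θ' - η) := by
    rw [← Real.rpow_add hTpos, ← Real.rpow_add hTpos]
    congr 1
    ring
  have hbig : 16 * T ^ η * P ≤ T ^ θ := by
    rw [hprod]
    calc 16 * T ^ η * P ≤ 16 * T ^ η * (2 * T ^ θ') := by gcongr
      _ = T ^ θ' * T ^ η * 32 := by ring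
      _ ≤ _ := by gcongr
  set K : ℕ := ⌈T ^ η⌉₊ with hK
  have hK1 : T ^ η ≤ (K : ℝ) := Nat.le_ceil _
  have hK2 : (K : ℝ) ≤ 2 * T ^ η := by
    have := Nat.ceil_lt_add_one (show 0 ≤ T ^ η by positivity)
    rw [← hK] at this
    linarith
  have hpt : ∀ k : ℕ, k < K → T + 2 * k * P + P ≤ T + T ^ θ := by
    intro k hk
    have hk' : (k : ℝ) ≤ 2 * T ^ η := by
      have : (k : ℝ) ≤ K := by exact_mod_cast hk.le
      linarith
    have h5 : 2 * (k : ℝ) * P ≤ 2 * (2 * T ^ η) * P := by gcongr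
    have h6 : P ≤ T ^ η * P := by nlinarith
    nlinarith
  have hL0 : 0 < Real.log T := Real.log_pos (by linarith)
  have hπ := Real.pi_pos
  have hex : ∀ k : ℕ, ∃ p : ZetaZeroIdx × ZetaZeroIdx, k < K →
      (p ∈ closePairs T (T ^ θ) lam ∧ T + 2 * k * P ≤ zetaOrdinate p.2 ∧
        zetaOrdinate p.2 ≤ T + 2 * k * P + P) := by
    intro k
    have hS1 : T ≤ T + 2 * k * P := by
      have : 0 ≤ 2 * (k : ℝ) * P := by positivity
      linarith
    obtain ⟨j, j', b1, b2, b3, b4, b5⟩ := hT0 (T + 2 * k * P) (by linarith)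
    refine ⟨(j', j), fun hk => ?_⟩
    have hS2 := hpt k hk
    have hwin : (T + 2 * k * P) ^ θ' ≤ P := by
      rw [hP]
      apply Real.rpow_le_rpow (by linarith) _ a3.le
      linarith
    refine ⟨⟨b1.symm, ⟨?_, ?_⟩, ⟨?_, ?_⟩, ?_, ?_⟩, b2.1, ?_⟩
    · exact hS1.trans b3.1
    · exact b3.2.trans (by linarith)
    · exact hS1.trans b2.1
    · exact b2.2.trans (by linarith)
    · exact mul_nonneg b4 (by positivity)
    · have b6 : Real.log T ≤ Real.log (T + 2 * k * P) := Real.log_le_log hTpos hS1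
      have b7 : zetaOrdinate j' - zetaOrdinate j ≤ 2 * π * lam / Real.log T := by
        refine b5.trans ?_
        gcongr
      calc (zetaOrdinate j' - zetaOrdinate j) * (Real.log T / (2 * π)) ≤
            2 * π * lam / Real.log T * (Real.log T / (2 * π)) := by gcongr
        _ = lam := by field_simp
    · exact b2.2.trans (by linarith)
  choose p hp using hex
  have hfin := closePairs_finite T (T ^ θ) lam
  have hcard : K ≤ (closePairs T (T ^ θ) lam).ncard := by
    rw [Set.ncard_eq_toFinset_card _ hfin]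
    have h7 : (Finset.range K).card ≤ hfin.toFinset.card := by
      apply Finset.card_le_card_of_injOn p
      · intro k hk
        have hk' : k < K := Finset.mem_range.mp (by exact_mod_cast hk)
        simp only [Set.Finite.coe_toFinset]
        exact (hp k hk').1
      · intro k hk l hl hkl
        have hk' : k < K := Finset.mem_range.mp (by exact_mod_cast hk)
        have hl' : l < K := Finset.mem_range.mp (by exact_mod_cast hl)
        obtain ⟨-, c2, c3⟩ := hp k hk'
        obtain ⟨-, d2, d3⟩ := hp l hl'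
        rw [hkl] at c2 c3
        by_contra hne
        rcases lt_or_gt_of_ne hne with hlt | hlt
        · have : (k : ℝ) + 1 ≤ l := by exact_mod_cast hlt
          nlinarith
        · have : (l : ℝ) + 1 ≤ k := by exact_mod_cast hlt
          nlinarith
    simpa using h7
  have : (K : ℝ) ≤ ((closePairs T (T ^ θ) lam).ncard : ℝ) := by exact_mod_cast hcard
  linarith

end Pool.Agent.MP_67227b_nt.Sg
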